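import Pool.Agent.Lib.UNIT.Stat

/-!
# UNIT: the operators, explicitly
-/

set_option autoImplicit false

open scoped TensorProduct ComplexConjugate
open Complex Pool.Agent.HCM Pool.Agent.RAT

namespace Pool.Agent.UNIT

noncomputable section

variable {κ : Type} {K G : κ → Type} [∀ k, Field (K k)] {T : Type} [Fintype T]

theorem scl_apply (z : ∀ k, K k) (u : (T → LU K G) → ℂ) (t : T → LU K G) :
    scl z u t = (∏ a, (t a).2 (z (t a).1.1)) * u t := rfl

theorem der_apply [Fintype κ] [∀ k, NumberField (K k)] [∀ k, Fintype (G k)] [DecidableEq T]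
    (X : ∀ k, Matrix (G k) (G k) (K k)) (u : (T → LU K G) → ℂ) (t : T → LU K G) :
    der X u t = ∑ a, ∑ g' : G (t a).1.1, (t a).2 (X (t a).1.1 (t a).1.2 g') *
      u (Function.update t a ⟨⟨(t a).1.1, g'⟩, (t a).2⟩) := by
  classical
  have h0 : der X u t = ∑ a, ∑ y : LU K G, ∑ g' : G y.1.1,
      (if t a = y then y.2 (X y.1.1 y.1.2 g') else 0) *
        u (Function.update t a ⟨⟨y.1.1, g'⟩, y.2⟩) := by
    unfold der
    simp only [LinearMap.sum_apply, Finset.sum_apply]
    rfl
  rw [h0]
  refine Finset.sum_congr rfl fun a _ => ?_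
  rw [Finset.sum_eq_single (t a)]
  · refine Finset.sum_congr rfl fun g _ => ?_
    rw [if_pos rfl]
  · intro y _ hy
    refine Finset.sum_eq_zero fun g _ => ?_
    rw [if_neg (Ne.symm hy), zero_mul]
  · intro h
    exact absurd (Finset.mem_univ _) h

end

end Pool.Agent.UNIT
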