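import Pool.Agent.Lib.UNIT.Rows

/-!
# UNIT, row UC: the rational Lie algebras `𝔰𝔲` and the root vectors (helper36)
-/

set_option autoImplicit false

open scoped TensorProduct ComplexConjugate
open Complex Pool.Agent.HCM Pool.Agent.RAT

namespace Pool.Agent.UNIT

noncomputable section

namespace UCx

/-- a sum of multiples of embeddings vanishes only if the coefficients do -/
theorem coeff_eq_zero {F : Type} [Field F] [NumberField F] (f : (F →+* ℂ) → ℂ)
    (h : ∀ l : F, ∑ τ : F →+* ℂ, τ l * f τ = 0) (τ : F →+* ℂ) : f τ = 0 := by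
  have h1 : LinearIndependent ℂ fun τ : F →+* ℂ => ((τ : F →* ℂ) : F → ℂ) :=
    (linearIndependent_monoidHom F ℂ).comp (fun τ : F →+* ℂ => (τ : F →* ℂ))
      (fun a b hab => RingHom.ext fun x => DFunLike.congr_fun hab x)
  have h2 := Fintype.linearIndependent_iff.1 h1 f ?_ τ
  · exact h2
  · funext l
    rw [Finset.sum_apply]
    refine Eq.trans ?_ (h l)
    refine Finset.sum_congr rfl fun τ _ => ?_
    rw [Pi.smul_apply, smul_eq_mul, mul_comm]
    rfl

variable {κ : Type} {K G : κ → Type} [∀ k, Field (K k)]

open Classical in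
/-- `λ E_(g,g') + μ E_(g',g)` in the block `k` -/
def mx (k : κ) (g g' : G k) (l m : K k) : ∀ k, Matrix (G k) (G k) (K k) :=
  Function.update (fun _ => 0) k (Matrix.single g g' l + Matrix.single g' g m)

theorem mx_self (k : κ) (g g' : G k) (l m : K k) :
    mx k g g' l m k = by classical exact Matrix.single g g' l + Matrix.single g' g m := by
  classical
  unfold mx
  rw [Function.update_self]

theorem mx_ne (k : κ) (g g' : G k) (l m : K k) {k' : κ} (h : k' ≠ k) : mx k g g' l m k' = 0 := by
  classical
  unfold mx
  rw [Function.update_of_ne h]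

theorem isSU_mx [∀ k, Fintype (G k)] (h : ∀ k, G k → K k) (k : κ) (g g' : G k) (hg : g ≠ g')
    (l m : K k) (h1 : ∀ τ : K k →+* ℂ, τ (h k g * l) + conj (τ m) * τ (h k g') = 0)
    (h2 : ∀ τ : K k →+* ℂ, τ (h k g' * m) + conj (τ l) * τ (h k g) = 0) :
    IsSU h (mx k g g' l m) := by
  classical
  intro k'
  by_cases hk : k' = k
  · subst hk
    rw [mx_self]
    refine ⟨?_, ?_⟩
    · rw [Matrix.trace_add, Matrix.trace_single_eq_of_ne _ _ _ hg,
        Matrix.trace_single_eq_of_ne _ _ _ hg.symm, add_zero]
    · intro τ a b
      simp only [Matrix.add_apply, Matrix.single_apply]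
      by_cases ha : a = g
      · subst ha
        by_cases hb : b = g'
        · subst hb
          have h3 := h1 τ
          simpa [hg, hg.symm] using h3
        · have hb' : ¬ g' = b := fun h => hb h.symm
          simp [hb', hg.symm]
      · have ha' : ¬ g = a := fun h => ha h.symm
        by_cases ha2 : a = g'
        · subst ha2
          by_cases hb : b = g
          · subst hb
            have h3 := h2 τ
            simpa [hg, hg.symm] using h3
          · have hb' : ¬ g = b := fun h => hb h.symm
            simp [hb', hg]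
        · have ha2' : ¬ g' = a := fun h => ha2 h.symm
          simp [ha', ha2']
  · rw [mx_ne _ _ _ _ _ hk]
    refine ⟨Matrix.trace_zero _ _, fun τ a b => by simp⟩

end UCx

open UCx

/-- Row UC. -/
theorem uc : UC := by
  classical
  intro κ _ _ K G _ _ _ _ h hh T _ _ u hu k g g' τ hg t
  have hg0 : h k g ≠ 0 := (hh k g).1
  have hg0' : h k g' ≠ 0 := (hh k g').1
  have hreal : ∀ (g : G k) (τ : K k →+* ℂ), conj (τ (h k g)) = τ (h k g) := by
    intro g τ
    exact Complex.conj_eq_iff_im.2 ((hh k g).2 τ)
  refine coeff_eq_zero (fun τ => root h k g g' τ u t) ?_ τ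
  intro l
  let m : K k := -(h k g / h k g' * NumberField.IsCMField.complexConj (K k) l)
  have hm : ∀ τ : K k →+* ℂ, τ m = -(τ (h k g) / τ (h k g') * conj (τ l)) := by
    intro τ
    simp only [m, map_neg, map_mul, map_div₀, NumberField.IsCMField.complexEmbedding_complexConj]
  have hne : ∀ (g : G k) (τ : K k →+* ℂ), h k g ≠ 0 → τ (h k g) ≠ 0 := by
    intro g τ h0
    exact (map_ne_zero τ).2 h0
  have hsu : IsSU h (mx k g g' l m) := by
    apply isSU_mx h k g g' hg
    · intro τ
      rw [hm, map_mul, map_neg, map_mul, map_div₀, hreal, hreal, Complex.conj_conj]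
      have := hne g' τ hg0'
      field_simp
      ring
    · intro τ
      rw [map_mul, hm]
      have := hne g' τ hg0'
      field_simp
      ring
  have h1 := congrFun (hu _ hsu) t
  rw [der_apply, Pi.zero_apply] at h1
  have h2 : ∀ a : T, ∑ g'' : G (t a).1.1, (t a).2 (mx k g g' l m (t a).1.1 (t a).1.2 g'') *
      u (Function.update t a ⟨⟨(t a).1.1, g''⟩, (t a).2⟩) =
      (∑ τ : K k →+* ℂ, τ l * if t a = ⟨⟨k, g⟩, τ⟩ then u (Function.update t a ⟨⟨k, g'⟩, τ⟩) else 0) +
      ∑ τ : K k →+* ℂ, τ m *
        if t a = ⟨⟨k, g'⟩, τ⟩ then u (Function.update t a ⟨⟨k, g⟩, τ⟩) else 0 := by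
    intro a
    rcases hta : t a with ⟨⟨k1, g1⟩, τ1⟩
    simp only
    by_cases hk : k1 = k
    · subst hk
      rw [mx_self]
      simp only [Matrix.add_apply, Matrix.single_apply, map_add, add_mul, Finset.sum_add_distrib]
      congr 1
      · by_cases hg1 : g = g1
        · subst hg1
          rw [Finset.sum_eq_single g', Finset.sum_eq_single τ1]
          · simp
          · intro τ2 _ h2
            rw [if_neg, mul_zero]
            intro h3
            exact h2 (eq_of_heq (Sigma.mk.inj h3).2).symm
          · intro h2
            exact absurd (Finset.mem_univ _) h2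
          · intro g2 _ h2
            rw [if_neg (fun h3 => h2 h3.2.symm), map_zero, zero_mul]
          · intro h2
            exact absurd (Finset.mem_univ _) h2
        · rw [Finset.sum_eq_zero, Finset.sum_eq_zero]
          · intro τ2 _
            rw [if_neg, mul_zero]
            intro h3
            exact hg1 (eq_of_heq (Sigma.mk.inj (Sigma.mk.inj h3).1).2).symm
          · intro g2 _
            rw [if_neg (fun h3 => hg1 h3.1), map_zero, zero_mul]
      · by_cases hg1 : g' = g1
        · subst hg1
          rw [Finset.sum_eq_single g, Finset.sum_eq_single τ1]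
          · simp
          · intro τ2 _ h2
            rw [if_neg, mul_zero]
            intro h3
            exact h2 (eq_of_heq (Sigma.mk.inj h3).2).symm
          · intro h2
            exact absurd (Finset.mem_univ _) h2
          · intro g2 _ h2
            rw [if_neg (fun h3 => h2 h3.2.symm), map_zero, zero_mul]
          · intro h2
            exact absurd (Finset.mem_univ _) h2
        · rw [Finset.sum_eq_zero, Finset.sum_eq_zero]
          · intro τ2 _
            rw [if_neg, mul_zero]
            intro h3
            exact hg1 (eq_of_heq (Sigma.mk.inj (Sigma.mk.inj h3).1).2).symm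
          · intro g2 _
            rw [if_neg (fun h3 => hg1 h3.1), map_zero, zero_mul]
    · rw [mx_ne _ _ _ _ _ hk, Finset.sum_eq_zero, Finset.sum_eq_zero, Finset.sum_eq_zero, add_zero]
      · intro τ2 _
        rw [if_neg, mul_zero]
        intro h3
        exact hk (congrArg (fun y : LU K G => y.1.1) h3)
      · intro τ2 _
        rw [if_neg, mul_zero]
        intro h3
        exact hk (congrArg (fun y : LU K G => y.1.1) h3)
      · intro g2 _
        rw [Matrix.zero_apply, map_zero, zero_mul]
  rw [Finset.sum_congr rfl fun a _ => h2 a, Finset.sum_add_distrib, Finset.sum_comm,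
    Finset.sum_comm (s := Finset.univ (α := T))] at h1
  rw [← h1]
  have hcj : Function.Involutive (cj : (K k →+* ℂ) → (K k →+* ℂ)) := by
    intro τ
    ext x
    simp [cj]
  have hcs := Equiv.sum_comp (hcj.toPerm _) (fun τ : K k →+* ℂ => ∑ a, τ m *
    if t a = ⟨⟨k, g'⟩, τ⟩ then u (Function.update t a ⟨⟨k, g⟩, τ⟩) else 0)
  rw [← hcs, ← Finset.sum_add_distrib]
  refine Finset.sum_congr rfl fun τ _ => ?_
  have hcm : (cj τ) m = -(τ (h k g) / τ (h k g') * τ l) := by
    rw [hm]
    have h3 : ∀ x, (cj τ) x = conj (τ x) := fun x => rfl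
    rw [h3, h3, h3, hreal, hreal, Complex.conj_conj]
  rw [Function.Involutive.coe_toPerm, hcm, ← Finset.mul_sum, ← Finset.mul_sum]
  unfold root
  ring_nf

end

end Pool.Agent.UNIT
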