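import Pool.Agent.Lib.UNIT.Rows
import Pool.Agent.Lib.HCM.TateGal

/-!
# UNIT, row UI: weights of a product of pairings and determinants (helper26)
-/

set_option autoImplicit false

open scoped TensorProduct ComplexConjugate
open Complex Pool.Agent.HCM Pool.Agent.RAT

namespace Pool.Agent.UNIT

namespace UIx

noncomputable section

section lift

variable {L E : Type} [Field L] [NumberField L] [Field E] [NumberField E]

theorem exists_lift [IsGalois ℚ E] (j : L →+* E) (τ₀ : E →+* ℂ) (σ : L →+* ℂ) :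
    ∃ s : L →+* E, σ = τ₀.comp s := by
  obtain ⟨g, hg⟩ := exists_aut_comp j τ₀ σ
  exact ⟨(g : E →+* E).comp j, hg⟩

omit [NumberField L] [NumberField E] in
theorem lift_unique (τ₀ : E →+* ℂ) {s s' : L →+* E} (h : τ₀.comp s = τ₀.comp s') : s = s' := by
  ext x
  apply τ₀.injective
  exact congrArg (fun f : L →+* ℂ => f x) h

/-- Complex conjugation commutes with the Galois action. -/
theorem conj_lift [NumberField.IsCMField L] (τ₀ : E →+* ℂ) (s s' : L →+* E)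
    (h : τ₀.comp s' = cj (τ₀.comp s)) (g : E ≃ₐ[ℚ] E) :
    τ₀.comp ((g : E →+* E).comp s') = cj (τ₀.comp ((g : E →+* E).comp s)) := by
  have h1 : s' = s.comp (NumberField.IsCMField.complexConj L : L →+* L) := by
    apply lift_unique τ₀
    rw [h]
    ext x
    have h2 := NumberField.IsCMField.complexEmbedding_complexConj L (τ₀.comp s) x
    simp only [cj, RingHom.comp_apply] at h2 ⊢
    exact h2.symm
  rw [h1]
  ext x
  have h2 := NumberField.IsCMField.complexEmbedding_complexConj L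
    (τ₀.comp ((g : E →+* E).comp s)) x
  simp only [cj, RingHom.comp_apply] at h2 ⊢
  exact h2

end lift

section weight

variable {κ : Type} {K G : κ → Type} [∀ k, Field (K k)] [∀ k, NumberField (K k)]
  {E : Type} [Field E] [NumberField E] [IsGalois ℚ E]

/-- The lift of an embedding. -/
def lf (j : ∀ k, K k →+* E) (τ₀ : E →+* ℂ) (k : κ) (σ : K k →+* ℂ) : K k →+* E :=
  Classical.choose (exists_lift (j k) τ₀ σ)

theorem lf_spec (j : ∀ k, K k →+* E) (τ₀ : E →+* ℂ) (k : κ) (σ : K k →+* ℂ) :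
    σ = τ₀.comp (lf j τ₀ k σ) := Classical.choose_spec (exists_lift (j k) τ₀ σ)

/-- The number of the types which contain the conjugate of `σ` by `g`. -/
def wv (Φ : ∀ i : Σ k, G k, Set (K i.1 →+* ℂ)) (j : ∀ k, K k →+* E) (τ₀ : E →+* ℂ)
    (g : E ≃ₐ[ℚ] E) (k : κ) (σ : K k →+* ℂ) : ℕ :=
  {g' : G k | τ₀.comp ((g : E →+* E).comp (lf j τ₀ k σ)) ∈ Φ ⟨k, g'⟩}.ncard

theorem bal_iff {T : Type} [Fintype T] (Φ : ∀ i : Σ k, G k, Set (K i.1 →+* ℂ)) (e : κ → ℕ)
    (j : ∀ k, K k →+* E) (τ₀ : E →+* ℂ) (m : ℕ) (t : T → LU K G) :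
    Bal Φ e τ₀ m t ↔ ∀ g : E ≃ₐ[ℚ] E,
      ∑ a, e (t a).1.1 * wv Φ j τ₀ g (t a).1.1 (t a).2 = m := by
  constructor
  · intro h g
    exact h (fun a => lf j τ₀ (t a).1.1 (t a).2) (fun a => lf_spec j τ₀ _ _) g
  · intro h s hs g
    have h1 : s = fun a => lf j τ₀ (t a).1.1 (t a).2 := by
      funext a
      apply lift_unique τ₀
      rw [← hs a, ← lf_spec]
    rw [h1]
    exact h g

theorem balD_iff (Φ : ∀ i : Σ k, G k, Set (K i.1 →+* ℂ)) (j : ∀ k, K k →+* E) (τ₀ : E →+* ℂ)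
    (m : ℕ) {r : ℕ} (blk : Fin r → κ) (τ : ∀ i, K (blk i) →+* ℂ) :
    BalD Φ τ₀ m blk τ ↔ ∀ g : E ≃ₐ[ℚ] E, ∑ i, wv Φ j τ₀ g (blk i) (τ i) = m := by
  constructor
  · intro h g
    exact h (fun i => lf j τ₀ (blk i) (τ i)) (fun i => lf_spec j τ₀ _ _) g
  · intro h s hs g
    have h1 : s = fun i => lf j τ₀ (blk i) (τ i) := by
      funext i
      apply lift_unique τ₀
      rw [← hs i, ← lf_spec]
    rw [h1]
    exact h g

/-- The weights of the two letters of a pairing. -/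
theorem wv_cj [∀ k, NumberField.IsCMField (K k)] [∀ k, Fintype (G k)]
    (Φ : ∀ i : Σ k, G k, Set (K i.1 →+* ℂ)) (hΦ : ∀ i, IsCMType (Φ i))
    (j : ∀ k, K k →+* E) (τ₀ : E →+* ℂ) (g : E ≃ₐ[ℚ] E) (k : κ) (σ : K k →+* ℂ) :
    wv Φ j τ₀ g k σ + wv Φ j τ₀ g k (cj σ) = Fintype.card (G k) := by
  classical
  have h1 : τ₀.comp (lf j τ₀ k (cj σ)) = cj (τ₀.comp (lf j τ₀ k σ)) := by
    rw [← lf_spec, ← lf_spec]
  have h2 := conj_lift τ₀ (lf j τ₀ k σ) (lf j τ₀ k (cj σ)) h1 g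
  unfold wv
  rw [h2]
  have h3 : {g' : G k | cj (τ₀.comp ((g : E →+* E).comp (lf j τ₀ k σ))) ∈ Φ ⟨k, g'⟩} =
      {g' : G k | τ₀.comp ((g : E →+* E).comp (lf j τ₀ k σ)) ∈ Φ ⟨k, g'⟩}ᶜ := by
    ext g'
    exact hΦ ⟨k, g'⟩ _
  rw [h3, Set.ncard_add_ncard_compl, Nat.card_eq_fintype_card]

omit [∀ k, NumberField (K k)] in
/-- The two letters of a pairing. -/
theorem pc_ne [∀ k, Fintype (G k)] {h : ∀ k, G k → K k} {k : κ} {τ : K k →+* ℂ} {y y' : LU K G}
    (hne : pc h k τ y y' ≠ 0) : ∃ g : G k, y = ⟨⟨k, g⟩, τ⟩ ∧ y' = ⟨⟨k, g⟩, cj τ⟩ := by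
  classical
  by_contra hcon
  push Not at hcon
  apply hne
  unfold pc
  refine Finset.sum_eq_zero fun g _ => ?_
  rw [if_neg]
  rintro ⟨h1, h2⟩
  exact hcon g h1 h2

omit [∀ k, NumberField (K k)] in
/-- The letters of a determinant. -/
theorem dc_ne [∀ k, Fintype (G k)] {k : κ} {τ : K k →+* ℂ} {w : G k → LU K G}
    (hne : dc k τ w ≠ 0) : ∃ π : Equiv.Perm (G k), ∀ g, w g = ⟨⟨k, π g⟩, τ⟩ := by
  classical
  by_contra hcon
  push Not at hcon
  apply hne
  unfold dc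
  refine Finset.sum_eq_zero fun π _ => ?_
  rw [if_neg, mul_zero]
  intro h1
  obtain ⟨g, hg⟩ := hcon π
  exact hg (congrFun h1 g)

end weight

end

end UIx

open UIx in
/-- **Row UI.** -/
theorem ui : UI := by
  classical
  intro κ _ K G _ _ _ _ _ Φ hΦ h N e hN he E _ _ _ j τ₀ n d r pk pτ blk τ f t hne
  rw [bal_iff Φ e j τ₀, balD_iff Φ j τ₀]
  unfold bt at hne
  have hp := left_ne_zero_of_mul hne
  have hd := right_ne_zero_of_mul hne
  rw [Finset.prod_ne_zero_iff] at hp hd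
  have hp' : ∀ i, ∃ g : G (pk i), t (f (Sum.inl (i, 0))) = ⟨⟨pk i, g⟩, pτ i⟩ ∧
      t (f (Sum.inl (i, 1))) = ⟨⟨pk i, g⟩, cj (pτ i)⟩ := fun i => pc_ne (hp i (Finset.mem_univ _))
  have hd' : ∀ i, ∃ π : Equiv.Perm (G (blk i)), ∀ g, t (f (Sum.inr ⟨i, g⟩)) =
      ⟨⟨blk i, π g⟩, τ i⟩ := fun i => dc_ne (hd i (Finset.mem_univ _))
  have hdn : d ≤ n := by
    have h1 := Fintype.card_congr f
    rw [Fintype.card_sum, Fintype.card_prod, Fintype.card_fin, Fintype.card_fin,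
      Fintype.card_fin] at h1
    omega
  have key : ∀ g : E ≃ₐ[ℚ] E, ∑ a, e (t a).1.1 * wv Φ j τ₀ g (t a).1.1 (t a).2 =
      d * N + (∑ i, wv Φ j τ₀ g (blk i) (τ i)) * N := by
    intro g
    rw [← Equiv.sum_comp f, Fintype.sum_sum_type]
    congr 1
    · rw [Fintype.sum_prod_type]
      calc ∑ i : Fin d, ∑ b : Fin 2, e (t (f (Sum.inl (i, b)))).1.1 *
            wv Φ j τ₀ g (t (f (Sum.inl (i, b)))).1.1 (t (f (Sum.inl (i, b)))).2
          = ∑ i : Fin d, N := by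
            refine Finset.sum_congr rfl fun i _ => ?_
            obtain ⟨g', h1, h2⟩ := hp' i
            rw [Fin.sum_univ_two, h1, h2]
            dsimp only
            rw [← mul_add, wv_cj Φ hΦ, he]
        _ = d * N := by simp
    · rw [Fintype.sum_sigma, Finset.sum_mul]
      refine Finset.sum_congr rfl fun i _ => ?_
      obtain ⟨π, h1⟩ := hd' i
      calc ∑ y : G (blk i), e (t (f (Sum.inr ⟨i, y⟩))).1.1 *
            wv Φ j τ₀ g (t (f (Sum.inr ⟨i, y⟩))).1.1 (t (f (Sum.inr ⟨i, y⟩))).2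
          = ∑ y : G (blk i), e (blk i) * wv Φ j τ₀ g (blk i) (τ i) := by
            refine Finset.sum_congr rfl fun y _ => ?_
            rw [h1 y]
        _ = wv Φ j τ₀ g (blk i) (τ i) * N := by
            rw [Finset.sum_const, Finset.card_univ, smul_eq_mul, ← he (blk i)]
            ring
  refine forall_congr' fun g => ?_
  rw [key g]
  constructor
  · intro h1
    have h2 : (d + ∑ i, wv Φ j τ₀ g (blk i) (τ i)) * N = n * N := by rw [add_mul]; exact h1
    have h3 := Nat.eq_of_mul_eq_mul_right hN h2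
    omega
  · intro h1
    rw [h1, ← add_mul]
    congr 1
    omega

end Pool.Agent.UNIT
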