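import Pool.Agent.Lib.UNIT.Rows

/-!
# UNIT, row UO: assembly of the rational form (helper16)
-/

set_option autoImplicit false

open scoped TensorProduct ComplexConjugate
open Complex Pool.Agent.HCM Pool.Agent.RAT

namespace Pool.Agent.UNIT

noncomputable section

open Classical in
/-- restriction of functions to a set -/
def resC {W : Type} (P : W → Prop) : (W → ℂ) →ₗ[ℂ] (W → ℂ) where
  toFun f t := if P t then f t else 0
  map_add' f g := by
    funext t
    by_cases h : P t <;> simp [h]
  map_smul' c f := by
    funext t
    by_cases h : P t <;> simp [h]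

theorem resC_apply_pos {W : Type} {P : W → Prop} (f : W → ℂ) {t : W} (h : P t) :
    resC P f t = f t := by
  classical
  exact if_pos h

theorem resC_apply_neg {W : Type} {P : W → Prop} (f : W → ℂ) {t : W} (h : ¬ P t) :
    resC P f t = 0 := by
  classical
  exact if_neg h

/-- Row UO. -/
theorem uo : UO := by
  intro hB hC hD hH hI hJ hK n κ _ K G _ _ _ _ _ Φ hΦ h hh N e hN he E _ _ _ j τ₀ M hM u hu
    hsu htor
  classical
  have hkill : Killed h u := hC κ K G h hh (Fin (2 * n)) u hsu
  have hspan := hB κ K G h hh (Fin (2 * n)) u hkill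
  have hbal : ∀ t, u t ≠ 0 → Bal Φ e τ₀ (n * N) t :=
    hD κ K G Φ e E j τ₀ M (n * N) hM (Fin (2 * n)) u htor
  let P : (Fin (2 * n) → LU K G) → Prop := fun t => Bal Φ e τ₀ (n * N) t
  have hres : resC P u = u := by
    funext t
    by_cases ht : P t
    · exact resC_apply_pos u ht
    · rw [resC_apply_neg u ht]
      by_contra h0
      exact ht (hbal t fun h1 => h0 h1.symm)
  -- the restriction of a product of pairings and determinants
  have hgood : ∀ w : (Fin (2 * n) → LU K G) → ℂ, IsBT h w →
      resC P w ∈ Submodule.span ℂ {w : (Fin (2 * n) → LU K G) → ℂ | IsProdU Φ h n w} := by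
    rintro w ⟨d, r, pk, pτ, blk, τ, f, rfl⟩
    have hcard : d * 2 + Fintype.card (Σ j, G (blk j)) = 2 * n := by
      have h1 := Fintype.card_congr f
      rw [Fintype.card_sum, Fintype.card_prod, Fintype.card_fin, Fintype.card_fin,
        Fintype.card_fin] at h1
      exact h1
    have hdn : d + (n - d) = n := by omega
    have hI' := fun t ht => hI κ K G Φ hΦ h N e hN he E j τ₀ n d r pk pτ blk τ f t ht
    by_cases hb : BalD Φ τ₀ (n - d) blk τ
    · have h1 : resC P (bt h pk pτ blk τ f) = bt h pk pτ blk τ f := by
        funext t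
        by_cases ht : P t
        · exact resC_apply_pos _ ht
        · rw [resC_apply_neg _ ht]
          by_contra h0
          exact ht ((hI' t fun h1 => h0 h1.symm).mpr hb)
      rw [h1]
      exact hH κ K G Φ hΦ h E j τ₀ n d r (n - d) pk pτ blk τ f hdn hb
    · have h1 : resC P (bt h pk pτ blk τ f) = 0 := by
        funext t
        by_cases ht : P t
        · rw [resC_apply_pos _ ht, Pi.zero_apply]
          by_contra h0
          exact hb ((hI' t h0).mp ht)
        · rw [resC_apply_neg _ ht, Pi.zero_apply]
      rw [h1]
      exact Submodule.zero_mem _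
  have hmem : resC P u ∈
      Submodule.span ℂ {w : (Fin (2 * n) → LU K G) → ℂ | IsProdU Φ h n w} := by
    have h1 : ∀ v ∈ Submodule.span ℂ {w : (Fin (2 * n) → LU K G) → ℂ | IsBT h w},
        resC P v ∈ Submodule.span ℂ {w : (Fin (2 * n) → LU K G) → ℂ | IsProdU Φ h n w} := by
      intro v hv
      induction hv using Submodule.span_induction with
      | mem w hw => exact hgood w hw
      | zero =>
        rw [map_zero]
        exact Submodule.zero_mem _
      | add v w _ _ hv hw =>
        rw [map_add]
        exact Submodule.add_mem _ hv hw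
      | smul c v _ hv =>
        rw [map_smul]
        exact Submodule.smul_mem _ _ hv
    exact h1 u hspan
  rw [hres] at hmem
  exact hK κ K G (Fin (2 * n)) _ (fun w hw => hJ κ K G Φ h hh n w hw) u hu hmem

end

end Pool.Agent.UNIT
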