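import Pool.Agent.Lib.TPR.Tt

/-!
# UNIT, row U8: coordinates over `ℚ_p`, abstract form (helper16)
-/

set_option autoImplicit false

open scoped TensorProduct

namespace Pool.Agent.UNIT

noncomputable section

open Pool.Agent.TPR

theorem coord_tmul {L M κ : Type} [Field L] [Algebra ℚ L] [AddCommGroup M] [Module ℚ M]
    (b : Module.Basis κ ℚ L) (l : L) (u : M) (k : κ) :
    Tt.coord b (l ⊗ₜ[ℚ] u) k = b.repr l k • u := by
  classical
  unfold Tt.coord
  rw [TensorProduct.equivFinsuppOfBasisLeft_apply_tmul_apply]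

variable {F : Type} [AddCommGroup F] [Module ℚ F] (p : ℕ) [Fact p.Prime]

/-- the coordinates of a `p`-adic class -/
def crd (c : ℚ_[p] ⊗[ℚ] F) : Module.Basis.ofVectorSpaceIndex ℚ ℚ_[p] →₀ F :=
  Tt.coord (L := ℚ_[p]) (M := F) (Module.Basis.ofVectorSpace ℚ ℚ_[p]) c

theorem crd_sum (c : ℚ_[p] ⊗[ℚ] F) : c = ∑ k ∈ (crd p c).support,
    (Module.Basis.ofVectorSpace ℚ ℚ_[p]) k • ((1 : ℚ_[p]) ⊗ₜ[ℚ] crd p c k) := by
  have h1 := Tt.coord_sum (L := ℚ_[p]) (M := F) (Module.Basis.ofVectorSpace ℚ ℚ_[p]) c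
  refine h1.trans (Finset.sum_congr rfl fun k _ => ?_)
  rw [TensorProduct.smul_tmul', smul_eq_mul, mul_one]
  rfl

theorem crd_tmul (r : ℚ_[p]) (u : F) (k) : crd p (r ⊗ₜ[ℚ] u) k =
    (Module.Basis.ofVectorSpace ℚ ℚ_[p]).repr r k • u :=
  coord_tmul (Module.Basis.ofVectorSpace ℚ ℚ_[p]) r u k

theorem crd_add (c d : ℚ_[p] ⊗[ℚ] F) (k) : crd p (c + d) k = crd p c k + crd p d k := by
  unfold crd Tt.coord
  exact (congrArg (fun f : _ →₀ F => f k) (map_add _ c d)).trans rfl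

theorem crd_baseChange (D : F →ₗ[ℚ] F) (c : ℚ_[p] ⊗[ℚ] F) (k) :
    crd p (D.baseChange ℚ_[p] c) k = D (crd p c k) :=
  Tt.coord_baseChange (L := ℚ_[p]) (M := F) _ D c k

theorem crd_smul (q : ℚ) (c : ℚ_[p] ⊗[ℚ] F) (k) :
    crd p ((q : ℚ_[p]) • c) k = q • crd p c k :=
  Tt.coord_smul (L := ℚ_[p]) (M := F) _ q c k

theorem crd_zero (k) : crd p (0 : ℚ_[p] ⊗[ℚ] F) k = 0 := by
  unfold crd Tt.coord
  exact (congrArg (fun f : _ →₀ F => f k) (map_zero _)).trans rfl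

/-- the coordinates of a class with coefficients in `R` lie in `R` -/
theorem crd_mem (R : Submodule ℚ F) {c : ℚ_[p] ⊗[ℚ] F} (hc : c ∈ R.baseChange ℚ_[p]) (k) :
    crd p c k ∈ R := by
  rw [Submodule.baseChange_eq_span] at hc
  induction hc using Submodule.span_induction generalizing k with
  | mem c hc =>
    obtain ⟨u, hu, rfl⟩ := hc
    rw [TensorProduct.mk_apply, crd_tmul]
    exact R.smul_mem _ hu
  | zero =>
    rw [crd_zero]
    exact R.zero_mem
  | add c d _ _ hc hd =>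
    rw [crd_add]
    exact R.add_mem (hc k) (hd k)
  | smul l c _ hc =>
    -- multiplication by `l` is a rational combination of the coordinates
    have h : ∀ c : ℚ_[p] ⊗[ℚ] F, (∀ k, crd p c k ∈ R) → crd p (l • c) k ∈ R := by
      intro c hc
      rw [crd_sum p c, Finset.smul_sum]
      have h1 : ∀ (s : Finset (Module.Basis.ofVectorSpaceIndex ℚ ℚ_[p])),
          crd p (∑ k ∈ s, l • (Module.Basis.ofVectorSpace ℚ ℚ_[p]) k •
            ((1 : ℚ_[p]) ⊗ₜ[ℚ] crd p c k)) k ∈ R := by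
        intro s
        induction s using Finset.cons_induction with
        | empty =>
          rw [Finset.sum_empty, crd_zero]
          exact R.zero_mem
        | cons a s ha ih =>
          rw [Finset.sum_cons]
          rw [crd_add]
          refine R.add_mem ?_ ih
          rw [smul_smul, TensorProduct.smul_tmul', smul_eq_mul, mul_one, crd_tmul]
          exact R.smul_mem _ (hc a)
      exact h1 _
    exact h c hc

theorem one_tmul_smul (q : ℚ) (u : F) :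
    (1 : ℚ_[p]) ⊗ₜ[ℚ] (q • u) = (q : ℚ_[p]) • ((1 : ℚ_[p]) ⊗ₜ[ℚ] u) :=
  Tt.tmul_cast_smul p q u

theorem one_tmul_mem {P : Set F} {u : F} (hu : u ∈ Submodule.span ℚ P) :
    (1 : ℚ_[p]) ⊗ₜ[ℚ] u ∈ Submodule.span ℚ_[p] {c | ∃ w ∈ P, c = (1 : ℚ_[p]) ⊗ₜ[ℚ] w} := by
  induction hu using Submodule.span_induction with
  | mem w hw => exact Submodule.subset_span ⟨w, hw, rfl⟩
  | zero =>
    rw [TensorProduct.tmul_zero]
    exact Submodule.zero_mem _
  | add u v _ _ hu hv =>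
    rw [TensorProduct.tmul_add]
    exact Submodule.add_mem _ hu hv
  | smul q u _ hu =>
    rw [one_tmul_smul]
    exact Submodule.smul_mem _ _ hu

/-- **From rational classes to `p`-adic classes.**  `𝒟`: the operators which kill `c`; `𝒮 m`: the
operators of which `c` is an eigenvector, with their rational eigenvalues. -/
theorem tate_iff (R : Submodule ℚ F) (𝒟 : Set (F →ₗ[ℚ] F)) (𝒮 : ℕ → Set ((F →ₗ[ℚ] F) × ℚ))
    (P : Set F)
    (h1 : ∀ m, ∀ u ∈ R, (∀ D ∈ 𝒟, D u = 0) → (∀ s ∈ 𝒮 m, s.1 u = s.2 • u) →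
      u ∈ Submodule.span ℚ P)
    (h2 : ∀ w ∈ P, (∀ D ∈ 𝒟, D w = 0) ∧ ∀ s ∈ 𝒮 0, s.1 w = s.2 • w)
    (c : ℚ_[p] ⊗[ℚ] F) (hc : c ∈ R.baseChange ℚ_[p]) :
    ((∀ D ∈ 𝒟, D.baseChange ℚ_[p] c = 0) ∧
      ∃ m, ∀ s ∈ 𝒮 m, s.1.baseChange ℚ_[p] c = (s.2 : ℚ_[p]) • c) ↔
    c ∈ Submodule.span ℚ_[p] {c | ∃ w ∈ P, c = (1 : ℚ_[p]) ⊗ₜ[ℚ] w} := by
  constructor
  · rintro ⟨hD, m, hS⟩
    rw [crd_sum p c]
    refine Submodule.sum_mem _ fun k _ => Submodule.smul_mem _ _ (one_tmul_mem p ?_)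
    refine h1 m _ (crd_mem p R hc k) ?_ ?_
    · intro D hD'
      rw [← crd_baseChange, hD D hD', crd_zero]
    · intro s hs
      rw [← crd_baseChange, hS s hs, crd_smul]
  · intro h
    clear hc
    suffices h' : (∀ D ∈ 𝒟, D.baseChange ℚ_[p] c = 0) ∧
        ∀ s ∈ 𝒮 0, s.1.baseChange ℚ_[p] c = (s.2 : ℚ_[p]) • c from ⟨h'.1, 0, h'.2⟩
    induction h using Submodule.span_induction with
    | mem c hc =>
      obtain ⟨w, hw, rfl⟩ := hc
      refine ⟨fun D hD => ?_, fun s hs => ?_⟩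
      · rw [LinearMap.baseChange_tmul, (h2 w hw).1 D hD, TensorProduct.tmul_zero]
      · rw [LinearMap.baseChange_tmul, (h2 w hw).2 s hs, one_tmul_smul]
    | zero => exact ⟨fun D _ => map_zero _, fun s _ => by rw [map_zero, smul_zero]⟩
    | add c d _ _ hc hd =>
      refine ⟨fun D hD => ?_, fun s hs => ?_⟩
      · rw [map_add, hc.1 D hD, hd.1 D hD, add_zero]
      · rw [map_add, hc.2 s hs, hd.2 s hs, smul_add]
    | smul l c _ hc =>
      refine ⟨fun D hD => ?_, fun s hs => ?_⟩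
      · rw [map_smul, hc.1 D hD, smul_zero]
      · rw [map_smul, hc.2 s hs, smul_comm]

end

end Pool.Agent.UNIT
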