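import Pool.Agent.Lib.TPR.Tt

/-!
# UNIT, row U5: the weights of the words of a Tate class (helper94)
-/

set_option autoImplicit false

open Complex Pool.Agent.HCM

namespace Pool.Agent.UNIT

noncomputable section

section letter

variable {ι : Type} {K : ι → Type} [∀ i, Field (K i)] {E : Type} [Field E] [NumberField E]

open Classical in
/-- The image of a reflex norm under one embedding. -/
theorem refl_letter (Φ : ∀ i, Set (K i →+* ℂ)) (j : ∀ i, K i →+* E) (τ₀ : E →+* ℂ) (x : E)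
    (z : ∀ i, K i) (hz : IsReflexNorm Φ j τ₀ x z) (i : ι) (h : E ≃ₐ[ℚ] E) :
    τ₀ (h (j i (z i))) = ∏ g : E ≃ₐ[ℚ] E,
      if τ₀.comp (((g⁻¹ * h : E ≃ₐ[ℚ] E) : E →+* E).comp (j i)) ∈ Φ i then τ₀ (g x) else 1 := by
  rw [hz i, map_prod, map_prod]
  refine Fintype.prod_equiv (Equiv.mk (fun g => h * g⁻¹) (fun g => g⁻¹ * h) ?_ ?_) _ _ ?_
  · intro g
    simp
  · intro g
    simp
  · intro g
    simp only [Equiv.coe_fn_mk]
    have h3 : (h * g⁻¹)⁻¹ * h = g := by group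
    rw [h3]
    split_ifs with hc
    · rfl
    · simp

end letter

section weights

variable {κ : Type} {K : κ → Type} [∀ k, Field (K k)] {G : κ → Type} [∀ k, Fintype (G k)]
  {T : Type} [Fintype T]

open Classical in
/-- The weight of the content `t` of a word: a letter of the block `k` and of the embedding `τ`
counts `m k` times the number of `γ` with `τ ∈ Φ k γ`. -/
def wtE (Φ : ∀ k, G k → Set (K k →+* ℂ)) (m : κ → ℕ) (t : T → Σ k, (K k →+* ℂ)) : ℕ :=
  ∑ a, m (t a).1 * (Finset.univ.filter fun γ : G (t a).1 => (t a).2 ∈ Φ (t a).1 γ).card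

/-- The content given by the blocks `k a` and by the Galois elements `h a`. -/
def cw {E : Type} [Field E] [NumberField E] (j : ∀ k, K k →+* E) (τ₀ : E →+* ℂ) (k : T → κ)
    (h : T → (E ≃ₐ[ℚ] E)) (a : T) : Σ k, (K k →+* ℂ) :=
  ⟨k a, τ₀.comp ((h a : E →+* E).comp (j (k a)))⟩

omit [∀ k, Fintype (G k)] [Fintype T] in
theorem exists_cw [∀ k, NumberField (K k)] {E : Type} [Field E] [NumberField E] [IsGalois ℚ E]
    (j : ∀ k, K k →+* E) (τ₀ : E →+* ℂ) (t : T → Σ k, (K k →+* ℂ)) :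
    ∃ h : T → (E ≃ₐ[ℚ] E), t = cw j τ₀ (fun a => (t a).1) h := by
  have h1 : ∀ a, ∃ g : E ≃ₐ[ℚ] E, (t a).2 = τ₀.comp ((g : E →+* E).comp (j (t a).1)) :=
    fun a => exists_aut_comp (j (t a).1) τ₀ (t a).2
  choose h hh using h1
  refine ⟨h, ?_⟩
  funext a
  unfold cw
  rw [← hh]

/-- **Row U5**: if the products of reflex norms act on a word by the norm, all the conjugates of
the word have the same weight. -/
theorem wt_eq [∀ k, NumberField (K k)] {E : Type} [Field E] [NumberField E] [IsGalois ℚ E]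
    (Φ : ∀ k, G k → Set (K k →+* ℂ)) (j : ∀ k, K k →+* E) (τ₀ : E →+* ℂ) (m : κ → ℕ) (M : ℕ)
    (k : T → κ) (h : T → (E ≃ₐ[ℚ] E)) (N : ℕ) (hN : 0 < N)
    (H : ∀ y : E, IsIntegral ℤ y → ∀ z : ∀ q : (Σ k, G k), K q.1,
      IsReflexNorm (K := fun q : (Σ k, G k) => K q.1) (fun q => Φ q.1 q.2) (fun q => j q.1) τ₀
        (1 + N * y) z →
      ∏ a, τ₀ (h a (j (k a) (∏ γ : G (k a), (z ⟨k a, γ⟩ : K (k a)) ^ m (k a)))) =
        ((Algebra.norm ℚ (1 + N * y) : ℚ) : ℂ) ^ M) (g : E ≃ₐ[ℚ] E) :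
    wtE Φ m (cw j τ₀ k fun a => g * h a) = M := by
  classical
  let e : (E ≃ₐ[ℚ] E) → ℕ := fun g' => wtE Φ m (cw j τ₀ k fun a => g'⁻¹ * h a)
  have he : e = fun _ => M := by
    apply exp_eq τ₀ N hN
    intro y hy
    obtain ⟨z, hz⟩ := exists_reflexNorm (K := fun q : (Σ k, G k) => K q.1)
      (fun q => Φ q.1 q.2) (fun q => j q.1) τ₀ (1 + N * y)
    have h1 := H y hy z hz
    rw [TPR.Tt.norm_eq τ₀, ← Finset.prod_pow] at h1
    rw [← h1]
    have h2 : ∀ a, τ₀ (h a (j (k a) (∏ γ : G (k a), (z ⟨k a, γ⟩ : K (k a)) ^ m (k a)))) =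
        ∏ g' : E ≃ₐ[ℚ] E, τ₀ (g' (1 + N * y)) ^ (m (k a) * (Finset.univ.filter fun γ : G (k a) =>
          τ₀.comp (((g'⁻¹ * h a : E ≃ₐ[ℚ] E) : E →+* E).comp (j (k a))) ∈ Φ (k a) γ).card) := by
      intro a
      have h3 : ∀ γ : G (k a), τ₀ (h a (j (k a) (z ⟨k a, γ⟩ : K (k a)))) = ∏ g' : E ≃ₐ[ℚ] E,
          if τ₀.comp (((g'⁻¹ * h a : E ≃ₐ[ℚ] E) : E →+* E).comp (j (k a))) ∈ Φ (k a) γ then
            τ₀ (g' (1 + N * y)) else 1 := fun γ =>
        refl_letter (K := fun q : (Σ k, G k) => K q.1) (fun q => Φ q.1 q.2) (fun q => j q.1) τ₀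
          (1 + N * y) z hz ⟨k a, γ⟩ (h a)
      simp only [map_prod, map_pow, h3]
      rw [Finset.prod_congr rfl fun γ _ => (Finset.prod_pow _ _ _).symm, Finset.prod_comm]
      refine Finset.prod_congr rfl fun g' _ => ?_
      rw [Finset.prod_pow, Finset.prod_ite, Finset.prod_const, Finset.prod_const_one, mul_one,
        ← pow_mul, Nat.mul_comm]
    rw [Finset.prod_congr rfl fun a _ => h2 a, Finset.prod_comm]
    refine Finset.prod_congr rfl fun g' _ => ?_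
    rw [Finset.prod_pow_eq_pow_sum]
    rfl
  have h4 := congrFun he g⁻¹
  simp only [e, inv_inv] at h4
  exact h4

end weights

end

end Pool.Agent.UNIT
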