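import Pool.Agent.Lib.UNIT.Rows
import Pool.Agent.Lib.UNIT.Wt

/-!
# UNIT, row UD: the torus and the weights of the words (helper94)
-/

set_option autoImplicit false

open Complex Pool.Agent.HCM

namespace Pool.Agent.UNIT

noncomputable section

theorem ud : UD := by
  intro κ _ K G _ _ _ Φ e E _ _ _ j τ₀ M m hM T _ u hu t ht s hs g
  classical
  have hex : ∀ a, ∃ g : E ≃ₐ[ℚ] E, (t a).2 = τ₀.comp ((g : E →+* E).comp (j (t a).1.1)) :=
    fun a => exists_aut_comp (j (t a).1.1) τ₀ (t a).2
  choose h hh using hex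
  have hsh : ∀ a, s a = (h a : E →+* E).comp (j (t a).1.1) := by
    intro a
    have h1 := (hs a).symm.trans (hh a)
    ext x
    exact τ₀.injective (DFunLike.congr_fun h1 x)
  have key := wt_eq (K := K) (G := G) (fun k γ => Φ ⟨k, γ⟩) j τ₀ e m (fun a => (t a).1.1) h M hM
    (by
      intro y hy z hz
      have h1 := congrFun (hu y hy z hz) t
      rw [Pi.smul_apply, Rat.smul_def] at h1
      rw [scl_apply] at h1
      have h2 := mul_right_cancel₀ ht h1
      rw [Rat.cast_pow] at h2
      rw [← h2]
      refine Finset.prod_congr rfl fun a _ => ?_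
      rw [hh a, Finset.prod_pow]
      rfl) g
  rw [← key]
  unfold wtE cw
  refine Finset.sum_congr rfl fun a _ => ?_
  congr 1
  rw [Set.ncard_eq_toFinset_card']
  congr 1
  ext γ
  simp only [Set.mem_toFinset, Set.mem_ofPred_eq, Finset.mem_filter, Finset.mem_univ, true_and]
  rw [hsh a]
  rfl

end

end Pool.Agent.UNIT
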