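import Pool.Agent.Lib.TPR.TTOR
import Pool.Agent.Lib.RAT.GQ
import Pool.Agent.Lib.HCM.GDiag

/-!
# UNIT, row U6: classes on which the `N`-th powers of the reflex norms act by the norm (helper25)
-/

set_option autoImplicit false

open scoped ComplexConjugate
open Complex Pool.Agent.HCM Pool.Agent.RAT

namespace Pool.Agent.UNIT.U6

noncomputable section

variable {ι : Type} {K : ι → Type} [∀ i, Field (K i)] {n : ℕ}

/-- a word on which the `N`-th powers of the reflex norms act by the `N m`-th power of the norm has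
`m` letters of type `(1,0)` -/
theorem word [∀ i, NumberField (K i)] {E : Type} [Field E] [NumberField E] [IsGalois ℚ E]
    {T : Type} [Fintype T] (Φ : ∀ i, Set (K i →+* ℂ))
    (j : ∀ i, K i →+* E) (τ₀ : E →+* ℂ) (M : ℕ) (hM : 0 < M) (N : ℕ) (hN : 0 < N) (m : ℕ)
    (t : T → Idx K)
    (h : ∀ y : E, IsIntegral ℤ y → ∀ z : ∀ i, K i, IsReflexNorm Φ j τ₀ (1 + M * y) z →
      (∏ a, (t a).2 (z (t a).1)) ^ N =
        ((Algebra.norm ℚ (1 + M * y) : ℚ) : ℂ) ^ (m * N)) :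
    {a | (t a).2 ∈ Φ (t a).1}.ncard = m := by
  classical
  have h1 := fun a => TPR.TTORx.idx_prod Φ j τ₀ (t a)
  choose e he1 he2 he3 using h1
  have h2 : (fun g => (∑ a, e a g) * N) = fun _ => m * N := by
    apply exp_eq τ₀ M hM
    intro y hy
    obtain ⟨z, hz⟩ := exists_reflexNorm Φ j τ₀ (1 + M * y)
    have h3 := h y hy z hz
    rw [Finset.prod_congr rfl fun a _ => he1 a _ z hz, Finset.prod_comm, TPR.Tt.norm_eq τ₀,
      ← Finset.prod_pow, ← Finset.prod_pow] at h3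
    rw [← h3]
    refine Finset.prod_congr rfl fun g _ => ?_
    rw [Finset.prod_pow_eq_pow_sum, pow_mul]
  have h3 := Nat.eq_of_mul_eq_mul_right hN (congrFun h2 1)
  rw [← h3, Set.ncard_eq_toFinset_card']
  rw [Set.toFinset_ofPred, Finset.card_filter]
  refine Finset.sum_congr rfl fun a _ => ?_
  split_ifs with h4
  · exact (he2 a h4).symm
  · exact (he3 a h4).symm

/-- U6, balanced -/
theorem hodge_of_pow [∀ i, NumberField (K i)] {E : Type} [Field E] [NumberField E] [IsGalois ℚ E]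
    (Φ : ∀ i, Set (K i →+* ℂ))
    (j : ∀ i, K i →+* E) (τ₀ : E →+* ℂ) (M : ℕ) (hM : 0 < M) (N : ℕ) (hN : 0 < N)
    (u : (Two n → Idx K) → ℂ)
    (hu : ∀ y : E, IsIntegral ℤ y → ∀ z : ∀ i, K i,
      IsReflexNorm Φ j τ₀ (1 + M * y) z → ∀ t, u t ≠ 0 →
        (∏ a, (t a).2 (z (t a).1)) ^ N = (((Algebra.norm ℚ (1 + M * y) : ℚ) : ℂ)) ^ (n * N)) :
    IsHodge Φ u := by
  intro t ht
  by_contra h0
  exact ht (word Φ j τ₀ M hM N hN n t fun y hy z hz => hu y hy z hz t h0)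

/-- in degree zero a rational class is a rational number -/
theorem degree_zero (u : (Two 0 → Idx K) → ℂ)
    (hu : u ∈ HQ K 0) : ∃ q : ℚ, ∀ t, u t = q := by
  unfold HQ at hu
  induction hu using Submodule.span_induction with
  | mem u hu =>
    obtain ⟨x, rfl⟩ := hu
    refine ⟨1, fun t => ?_⟩
    unfold torusClass
    rw [Matrix.det_isEmpty]
    norm_num
  | zero => exact ⟨0, fun t => by simp⟩
  | add u v _ _ hu hv =>
    obtain ⟨q, hq⟩ := hu
    obtain ⟨r, hr⟩ := hv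
    exact ⟨q + r, fun t => by simp [hq, hr]⟩
  | smul c u _ hu =>
    obtain ⟨q, hq⟩ := hu
    exact ⟨c * q, fun t => by simp [hq, Rat.smul_def]⟩

/-- U6: a rational number (`n = 0`) or a combination of ball classes -/
theorem ball_of_pow (hodge : HODGEQ) [Finite ι] [∀ i, NumberField (K i)]
    [∀ i, NumberField.IsCMField (K i)] {E : Type} [Field E] [NumberField E]
    [IsGalois ℚ E] (Φ : ∀ i, Set (K i →+* ℂ)) (hΦ : ∀ i, IsCMType (Φ i))
    (j : ∀ i, K i →+* E) (τ₀ : E →+* ℂ) (M : ℕ) (hM : 0 < M) (N : ℕ) (hN : 0 < N)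
    (u : (Two n → Idx K) → ℂ) (hQ : u ∈ HQ K n)
    (hu : ∀ y : E, IsIntegral ℤ y → ∀ z : ∀ i, K i,
      IsReflexNorm Φ j τ₀ (1 + M * y) z → ∀ t, u t ≠ 0 →
        (∏ a, (t a).2 (z (t a).1)) ^ N = (((Algebra.norm ℚ (1 + M * y) : ℚ) : ℂ)) ^ (n * N)) :
    (n = 0 ∧ ∃ q : ℚ, ∀ t, u t = q) ∨ (0 < n ∧ IsBallQ Φ u) := by
  rcases Nat.eq_zero_or_pos n with h0 | h0
  · subst h0
    exact Or.inl ⟨rfl, degree_zero u hQ⟩
  · exact Or.inr ⟨h0, hodge n ι K Φ h0 hΦ u hQ (hodge_of_pow Φ j τ₀ M hM N hN u hu)⟩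

section det

variable {E : Type} [Field E] [NumberField E]

/-- the classes `Dg` attached to a word all of whose conjugates are balanced are combinations of
ball classes -/
theorem dg_ball (hodge : HODGEQ) [Finite ι] [∀ i, NumberField (K i)]
    [∀ i, NumberField.IsCMField (K i)] [IsGalois ℚ E] (Φ : ∀ i, Set (K i →+* ℂ))
    (hΦ : ∀ i, IsCMType (Φ i)) (j : ∀ i, K i →+* E) (τ₀ : E →+* ℂ) (hn : 0 < n)
    (c : Two n → ι) (h : Two n → (E ≃ₐ[ℚ] E))
    (hb : ∀ g : E ≃ₐ[ℚ] E, {b | τ₀.comp (((g * h b : E ≃ₐ[ℚ] E) : E →+* E).comp (j (c b))) ∈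
      Φ (c b)}.ncard = n) (lam : E) :
    IsBallQ Φ (Dg j c (fun b => ((h b : E ≃ₐ[ℚ] E) : E ≃+* E)) lam) := by
  classical
  refine hodge n ι K Φ hn hΦ _ (Dg_mem j c _ lam) ?_
  intro t ht
  unfold Dg
  refine Finset.sum_eq_zero fun τ _ => ?_
  rw [cmpM_det, Finset.sum_eq_zero, mul_zero]
  intro π _
  rw [if_neg]
  intro h1
  apply ht
  obtain ⟨g, hg⟩ := exists_aut τ₀ τ
  refine Eq.trans ?_ (hb g)
  refine (Set.ncard_congr (fun b _ => π b) ?_ ?_ ?_).symm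
  · intro b hb'
    have h2 := congrFun h1 b
    have h3 : t (π b) = rs j (c b) (τ.comp (((h b : E ≃ₐ[ℚ] E) : E ≃+* E) : E →+* E)) := h2
    change (t (π b)).2 ∈ Φ (t (π b)).1
    rw [h3]
    change (τ.comp (((h b : E ≃ₐ[ℚ] E) : E ≃+* E) : E →+* E)).comp (j (c b)) ∈ Φ (c b)
    rw [hg]
    exact hb'
  · intro b b' _ _ h2
    exact π.injective h2
  · intro a ha
    refine ⟨π.symm a, ?_, π.apply_symm_apply a⟩
    have h2 := congrFun h1 (π.symm a)
    have h3 : t a = rs j (c (π.symm a))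
        (τ.comp (((h (π.symm a) : E ≃ₐ[ℚ] E) : E ≃+* E) : E →+* E)) := by
      rw [← h2]
      simp
    have h4 : (t a).2 ∈ Φ (t a).1 := ha
    rw [h3] at h4
    rw [hg] at h4
    exact h4

/-- **U6**: the determinant of the word `t₀`, if all conjugates of `t₀` are balanced, is a complex
combination of ball classes -/
theorem det_ball (hodge : HODGEQ) [Finite ι] [∀ i, NumberField (K i)]
    [∀ i, NumberField.IsCMField (K i)] [IsGalois ℚ E] (Φ : ∀ i, Set (K i →+* ℂ))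
    (hΦ : ∀ i, IsCMType (Φ i)) (j : ∀ i, K i →+* E) (τ₀ : E →+* ℂ) (hn : 0 < n)
    (t₀ : Two n → Idx K) (h : Two n → (E ≃ₐ[ℚ] E))
    (ht₀ : ∀ b, t₀ b = ⟨(t₀ b).1, τ₀.comp ((h b : E →+* E).comp (j (t₀ b).1))⟩)
    (hb : ∀ g : E ≃ₐ[ℚ] E, {b | τ₀.comp (((g * h b : E ≃ₐ[ℚ] E) : E →+* E).comp
      (j (t₀ b).1)) ∈ Φ (t₀ b).1}.ncard = n) :
    (fun t : Two n → Idx K => Matrix.det (Matrix.of fun a b => open Classical in
      if t a = t₀ b then (1 : ℂ) else 0)) ∈ Submodule.span ℂ {v | IsBallQ Φ v} := by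
  classical
  obtain ⟨d, e, e', he⟩ := exists_dual E
  have h1 : (fun t : Two n → Idx K => Matrix.det (Matrix.of fun a b => open Classical in
      if t a = t₀ b then (1 : ℂ) else 0)) = ∑ i : Fin d, τ₀ (e' i) •
        Dg j (fun b => (t₀ b).1) (fun b => ((h b : E ≃ₐ[ℚ] E) : E ≃+* E)) (e i) := by
    funext t
    rw [Finset.sum_apply]
    simp only [Pi.smul_apply, smul_eq_mul, Dg, Finset.mul_sum]
    rw [Finset.sum_comm]
    have h2 : ∀ τ : E →+* ℂ, ∑ i, τ₀ (e' i) * (τ (e i) *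
        (cmpM j (fun b => (t₀ b).1) (fun b => ((h b : E ≃ₐ[ℚ] E) : E ≃+* E)) τ t).det) =
        if τ = τ₀ then
          (cmpM j (fun b => (t₀ b).1) (fun b => ((h b : E ≃ₐ[ℚ] E) : E ≃+* E)) τ t).det else 0 := by
      intro τ
      have h3 := he τ τ₀
      have h4 : ∀ i, τ₀ (e' i) * (τ (e i) *
        (cmpM j (fun b => (t₀ b).1) (fun b => ((h b : E ≃ₐ[ℚ] E) : E ≃+* E)) τ t).det) =
        (τ (e i) * τ₀ (e' i)) *
        (cmpM j (fun b => (t₀ b).1) (fun b => ((h b : E ≃ₐ[ℚ] E) : E ≃+* E)) τ t).det := by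
        intro i
        ring
      simp only [h4]
      rw [← Finset.sum_mul, h3]
      split_ifs <;> simp
    rw [Finset.sum_congr rfl fun τ _ => h2 τ, Finset.sum_ite_eq' Finset.univ τ₀,
      if_pos (Finset.mem_univ _)]
    unfold cmpM
    congr 1
    ext a b
    simp only [Matrix.of_apply]
    have h5 : t₀ b = rs j (t₀ b).1 (τ₀.comp (((h b : E ≃ₐ[ℚ] E) : E ≃+* E) : E →+* E)) :=
      ht₀ b
    rw [← h5]
  rw [h1]
  refine Submodule.sum_mem _ fun i _ => Submodule.smul_mem _ _ (Submodule.subset_span ?_)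
  exact dg_ball hodge Φ hΦ j τ₀ hn _ h hb (e i)

end det

end

end Pool.Agent.UNIT.U6
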