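import Pool.Agent.Lib.UNIT.Rows
import Pool.Agent.Lib.UNIT.Gam

/-!
# UNIT, row UF: balanced products of determinants (helper25)
-/

set_option autoImplicit false
set_option linter.unusedSectionVars false

open Complex Pool.Agent.HCM Pool.Agent.RAT

namespace Pool.Agent.UNIT

noncomputable section

namespace UFx

/-- the determinant of a block diagonal matrix -/
theorem det_sigma {J : Type} [Fintype J] [DecidableEq J] [LinearOrder J] {β : J → Type}
    [∀ j, Fintype (β j)] [∀ j, DecidableEq (β j)] [DecidableEq (Σ j, β j)]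
    (M : Matrix (Σ j, β j) (Σ j, β j) ℂ)
    (hM : ∀ i i', i.1 ≠ i'.1 → M i i' = 0) :
    M.det = ∏ j, Matrix.det (Matrix.of fun g g' : β j => M ⟨j, g⟩ ⟨j, g'⟩) := by
  have h1 : M.BlockTriangular (Sigma.fst : (Σ j, β j) → J) := by
    intro i i' h
    exact hM i i' (ne_of_gt h)
  rw [Matrix.BlockTriangular.det_fintype h1]
  refine Finset.prod_congr rfl fun k _ => ?_
  rw [← Matrix.det_reindex_self (Equiv.sigmaSubtype k)]
  congr 1

section

variable {κ : Type} {K G : κ → Type} [∀ k, Field (K k)] [∀ k, Fintype (G k)]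

open Classical in
theorem dc_eq (k : κ) (τ : K k →+* ℂ) (w : G k → LU K G) :
    dc k τ w = Matrix.det (Matrix.of fun g g' : G k =>
      if w g = ⟨⟨k, g'⟩, τ⟩ then (1 : ℂ) else 0) := by
  rw [← Matrix.det_transpose, Matrix.det_apply']
  unfold dc
  refine Finset.sum_congr rfl fun π _ => ?_
  congr 1
  simp only [Matrix.transpose_apply, Matrix.of_apply]
  rw [Finset.prod_ite_zero]
  simp only [Finset.mem_univ, true_implies, Finset.prod_const_one, funext_iff]

variable [∀ k, NumberField (K k)] {r c : ℕ} (blk : Fin r → κ) (f : Two c ≃ Σ j, G (blk j))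

/-- the words with one embedding for each determinant -/
def wd (τ : ∀ j, K (blk j) →+* ℂ) (s : ∀ i : Σ j, G (blk j), G (blk i.1))
    (i : Σ j, G (blk j)) : LU K G := ⟨⟨blk i.1, s i⟩, τ i.1⟩

theorem wd_inj [∀ k, Nonempty (G k)] {τ τ' : ∀ j, K (blk j) →+* ℂ}
    {s s' : ∀ i : Σ j, G (blk j), G (blk i.1)} (h : wd blk τ s = wd blk τ' s') :
    τ = τ' ∧ s = s' := by
  have h1 : ∀ i : Σ j, G (blk j), s i = s' i ∧ τ i.1 = τ' i.1 := by
    intro i
    have h2 := congrFun h i
    unfold wd at h2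
    rw [Sigma.mk.injEq] at h2
    obtain ⟨h3, h4⟩ := h2
    rw [Sigma.mk.injEq] at h3
    exact ⟨eq_of_heq h3.2, eq_of_heq h4⟩
  refine ⟨?_, funext fun i => (h1 i).1⟩
  funext j
  obtain ⟨g⟩ := (inferInstance : Nonempty (G (blk j)))
  exact (h1 ⟨j, g⟩).2

theorem detT_wd [∀ k, Nonempty (G k)] (v : (Two c → LC K G blk) → ℂ)
    (τ : ∀ j, K (blk j) →+* ℂ) (s : ∀ i : Σ j, G (blk j), G (blk i.1)) :
    detT blk f v (wd blk τ s) = v fun a => ⟨⟨(f a).1, s (f a)⟩, τ (f a).1⟩ := by
  classical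
  unfold detT
  rw [Finset.sum_eq_single τ, Finset.sum_eq_single s]
  · exact if_pos rfl
  · intro s' _ hs'
    rw [if_neg]
    intro h
    exact hs' ((wd_inj blk (τ := τ) (τ' := τ) (s := s) (s' := s') h).2).symm
  · intro h
    exact absurd (Finset.mem_univ _) h
  · intro τ' _ hτ'
    refine Finset.sum_eq_zero fun s' _ => ?_
    rw [if_neg]
    intro h
    exact hτ' ((wd_inj blk (τ := τ) (τ' := τ') (s := s) (s' := s') h).1).symm
  · intro h
    exact absurd (Finset.mem_univ _) h

theorem detT_not (v : (Two c → LC K G blk) → ℂ) (t : (Σ j, G (blk j)) → LU K G)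
    (h : ∀ τ s, t ≠ wd blk τ s) : detT blk f v t = 0 := by
  classical
  unfold detT
  refine Finset.sum_eq_zero fun τ _ => Finset.sum_eq_zero fun s _ => ?_
  rw [if_neg]
  exact h τ s

open Classical in
/-- the determinant of a word of the CM abelian variety -/
def v0 (τ : ∀ j, K (blk j) →+* ℂ) (t : Two c → LC K G blk) : ℂ :=
  Matrix.det (Matrix.of fun a b =>
    if t a = (⟨f b, τ (f b).1⟩ : LC K G blk) then (1 : ℂ) else 0)

theorem detT_v0 [∀ k, Nonempty (G k)] (τ : ∀ j, K (blk j) →+* ℂ)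
    (t : (Σ j, G (blk j)) → LU K G) :
    detT blk f (v0 blk f τ) t = ∏ j, dc (blk j) (τ j) fun g => t ⟨j, g⟩ := by
  classical
  by_cases ht : ∃ τ' s, t = wd blk τ' s
  · obtain ⟨τ', s, rfl⟩ := ht
    rw [detT_wd]
    unfold v0
    have h1 : (Matrix.of fun a b => if ((⟨⟨(f a).1, s (f a)⟩, τ' (f a).1⟩ : LC K G blk)) =
        (⟨f b, τ (f b).1⟩ : LC K G blk) then (1 : ℂ) else 0) =
        Matrix.reindex f.symm f.symm (Matrix.of fun i i' : Σ j, G (blk j) =>
          if ((⟨⟨i.1, s i⟩, τ' i.1⟩ : LC K G blk)) =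
        (⟨i', τ i'.1⟩ : LC K G blk) then (1 : ℂ) else 0) := by
      ext a b
      simp
    rw [h1, Matrix.det_reindex_self, det_sigma]
    · refine Finset.prod_congr rfl fun j _ => ?_
      rw [dc_eq]
      congr 1
      ext g g'
      simp only [Matrix.of_apply]
      have h2 : ((⟨⟨j, s ⟨j, g⟩⟩, τ' j⟩ : LC K G blk) = (⟨⟨j, g'⟩, τ j⟩ : LC K G blk)) ↔
          (wd blk τ' s ⟨j, g⟩ = ⟨⟨blk j, g'⟩, τ j⟩) := by
        unfold wd
        constructor
        · intro h
          rw [Sigma.mk.injEq] at h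
          obtain ⟨h3, h4⟩ := h
          rw [Sigma.mk.injEq] at h3
          have h5 := eq_of_heq h3.2
          have h6 := eq_of_heq h4
          rw [h5, h6]
        · intro h
          rw [Sigma.mk.injEq] at h
          obtain ⟨h3, h4⟩ := h
          rw [Sigma.mk.injEq] at h3
          have h5 := eq_of_heq h3.2
          have h6 := eq_of_heq h4
          rw [h5, h6]
      by_cases h3 : (⟨⟨j, s ⟨j, g⟩⟩, τ' j⟩ : LC K G blk) = (⟨⟨j, g'⟩, τ j⟩ : LC K G blk)
      · rw [if_pos h3, if_pos (h2.1 h3)]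
      · rw [if_neg h3, if_neg fun h4 => h3 (h2.2 h4)]
    · intro i i' hi
      rw [Matrix.of_apply, if_neg]
      intro h
      apply hi
      exact congrArg (fun q : LC K G blk => q.1.1) h
  · rw [detT_not blk f _ t fun τ' s h => ht ⟨τ', s, h⟩]
    symm
    by_contra h
    have h1 := Finset.prod_ne_zero_iff.1 h
    have h2 : ∀ j, ∃ π : Equiv.Perm (G (blk j)),
        (fun g => t ⟨j, g⟩) = fun g => (⟨⟨blk j, π g⟩, τ j⟩ : LU K G) := by
      intro j
      have h3 := h1 j (Finset.mem_univ j)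
      unfold dc at h3
      obtain ⟨π, _, hπ⟩ := Finset.exists_ne_zero_of_sum_ne_zero h3
      refine ⟨π, ?_⟩
      by_contra h4
      rw [if_neg h4, mul_zero] at hπ
      exact hπ rfl
    choose π hπ using h2
    apply ht
    refine ⟨τ, fun i => π i.1 i.2, ?_⟩
    funext ⟨j, g⟩
    exact congrFun (hπ j) g

theorem detT_add (v v' : (Two c → LC K G blk) → ℂ) :
    detT blk f (v + v') = detT blk f v + detT blk f v' := by
  classical
  funext t
  unfold detT
  rw [Pi.add_apply]
  simp only [← Finset.sum_add_distrib]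
  refine Finset.sum_congr rfl fun τ _ => Finset.sum_congr rfl fun s _ => ?_
  split_ifs <;> simp

theorem detT_smul (a : ℂ) (v : (Two c → LC K G blk) → ℂ) :
    detT blk f (a • v) = a • detT blk f v := by
  classical
  funext t
  unfold detT
  rw [Pi.smul_apply]
  simp only [smul_eq_mul, Finset.mul_sum]
  refine Finset.sum_congr rfl fun τ _ => Finset.sum_congr rfl fun s _ => ?_
  split_ifs <;> simp

theorem detT_zero : detT blk f (0 : (Two c → LC K G blk) → ℂ) = 0 := by
  classical
  funext t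
  unfold detT
  simp

end

end UFx

open UFx in
/-- UF with the hypotheses on the blocks of the determinants only -/
theorem uf_core (hodge : HODGEQ) {κ : Type} [Fintype κ] {K G : κ → Type} [∀ k, Field (K k)]
    [∀ k, NumberField (K k)] [∀ k, Fintype (G k)] [∀ k, Nonempty (G k)]
    (Φ : ∀ i : Σ k, G k, Set (K i.1 →+* ℂ)) {E : Type} [Field E] [NumberField E] [IsGalois ℚ E]
    (j : ∀ k, K k →+* E) (τ₀ : E →+* ℂ) {r c : ℕ} (blk : Fin r → κ)
    (f : Two c ≃ Σ j, G (blk j)) (τ : ∀ j, K (blk j) →+* ℂ)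
    (hcm : ∀ i, NumberField.IsCMField (K (blk i)))
    (hΦ : ∀ (i : Fin r) (g : G (blk i)), IsCMType (Φ ⟨blk i, g⟩)) (hB : BalD Φ τ₀ c blk τ) :
    (fun t : (Σ j, G (blk j)) → LU K G => ∏ j, dc (blk j) (τ j) fun g => t ⟨j, g⟩) ∈
      Submodule.span ℂ {w | ∃ v : (Two c → LC K G blk) → ℂ, VOk Φ blk v ∧ w = detT blk f v} := by
  classical
  have h0 : (fun t : (Σ j, G (blk j)) → LU K G => ∏ j, dc (blk j) (τ j) fun g => t ⟨j, g⟩) =
      detT blk f (v0 blk f τ) := funext fun t => (detT_v0 blk f τ t).symm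
  rw [h0]
  rcases Nat.eq_zero_or_pos c with hc | hc
  · refine Submodule.subset_span ⟨v0 blk f τ, Or.inl ⟨hc, 1, fun t => ?_⟩, rfl⟩
    subst hc
    unfold v0
    rw [Matrix.det_isEmpty]
    norm_num
  · choose H hH using fun i : Fin r => exists_aut_comp (j (blk i)) τ₀ (τ i)
    have h1 : v0 blk f τ ∈ Submodule.span ℂ {v : (Two c → LC K G blk) → ℂ |
        IsBallQ (fun i : Σ j, G (blk j) => Φ ⟨blk i.1, i.2⟩) v} := by
      have : ∀ i : Σ j, G (blk j), NumberField.IsCMField (K (blk i.1)) := fun i => hcm i.1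
      have h10 := U6.det_ball hodge (fun i : Σ j, G (blk j) => Φ ⟨blk i.1, i.2⟩)
        (fun i => hΦ _ _) (fun i => j (blk i.1)) τ₀ hc (fun b => ⟨f b, τ (f b).1⟩)
        (fun b => H (f b).1) ?_ ?_
      · unfold v0
        convert h10
      · intro b
        change (⟨f b, τ (f b).1⟩ : LC K G blk) = ⟨f b, _⟩
        rw [← hH]
      · intro g
        have h2 := hB (fun i => (H i : E →+* E).comp (j (blk i))) hH g
        refine Eq.trans ?_ h2
        have h3 : {b | τ₀.comp (((g * H (f b).1 : E ≃ₐ[ℚ] E) : E →+* E).comp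
            (j (blk (f b).1))) ∈ Φ ⟨blk (f b).1, (f b).2⟩}.ncard = ∑ b : Two c,
            if τ₀.comp (((g * H (f b).1 : E ≃ₐ[ℚ] E) : E →+* E).comp
            (j (blk (f b).1))) ∈ Φ ⟨blk (f b).1, (f b).2⟩ then 1 else 0 := by
          rw [Set.ncard_eq_toFinset_card', Finset.sum_boole, Nat.cast_id]
          congr 1
          ext a
          simp
        refine Eq.trans h3 ?_
        rw [Equiv.sum_comp f (fun i : Σ j, G (blk j) => if τ₀.comp (((g * H i.1 :
          E ≃ₐ[ℚ] E) : E →+* E).comp (j (blk i.1))) ∈ Φ ⟨blk i.1, i.2⟩ then 1 else 0),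
          Fintype.sum_sigma]
        refine Finset.sum_congr rfl fun i _ => ?_
        rw [Set.ncard_eq_toFinset_card', Finset.sum_boole, Nat.cast_id]
        congr 1
        ext a
        simp only [Finset.mem_filter, Finset.mem_univ, true_and, Set.mem_toFinset,
          Set.mem_ofPred_eq]
        rfl
    have h2 : ∀ v ∈ Submodule.span ℂ {v : (Two c → LC K G blk) → ℂ |
        IsBallQ (fun i : Σ j, G (blk j) => Φ ⟨blk i.1, i.2⟩) v},
        detT blk f v ∈ Submodule.span ℂ {w | ∃ v : (Two c → LC K G blk) → ℂ,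
          VOk Φ blk v ∧ w = detT blk f v} := by
      intro v hv
      induction hv using Submodule.span_induction with
      | mem v hv => exact Submodule.subset_span ⟨v, Or.inr ⟨hc, hv⟩, rfl⟩
      | zero =>
        rw [detT_zero]
        exact Submodule.zero_mem _
      | add u v _ _ hu hv =>
        rw [detT_add]
        exact Submodule.add_mem _ hu hv
      | smul a v _ hv =>
        rw [detT_smul]
        exact Submodule.smul_mem _ _ hv
    exact h2 _ h1

theorem uf_of (hodge : HODGEQ) : UF := by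
  intro κ _ K G _ _ _ _ _ Φ hΦ E _ _ _ j τ₀ r c blk f τ hB
  exact uf_core hodge Φ j τ₀ blk f τ (fun i => inferInstance) (fun i g => hΦ _) hB

end

end Pool.Agent.UNIT
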