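import Pool.Agent.Lib.UNIT.Rows
import Pool.Agent.Lib.HCM.GDual

/-!
# UNIT, row UG: the pairings are combinations of rational ones (helper5)
-/

set_option autoImplicit false

open scoped TensorProduct ComplexConjugate
open Complex Pool.Agent.HCM Pool.Agent.RAT

namespace Pool.Agent.UNIT

noncomputable section

theorem uG : UG := by
  classical
  intro κ _ _ K G _ _ _ _ h k τ
  obtain ⟨d, e, e', he⟩ := exists_dual (K k)
  have key : (pc h k τ : LU K G → LU K G → ℂ) =
      ∑ i, τ (e i) • pair h (Pi.single k (e' i)) := by
    funext y y'
    obtain ⟨⟨k', g⟩, σ⟩ := y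
    simp only [Finset.sum_apply, Pi.smul_apply, smul_eq_mul]
    unfold pc pair
    by_cases hk : k' = k
    · subst hk
      have h1 : ∀ i, ((Pi.single k' (e' i) : ∀ k, K k) k') = e' i := fun i => Pi.single_eq_same _ _
      simp only [h1]
      by_cases hy : y' = ⟨⟨k', g⟩, cj σ⟩
      · simp only [if_pos hy]
        have h2 : ∑ i, τ (e i) * σ (e' i / h k' g) = (if τ = σ then 1 else 0) * (σ (h k' g))⁻¹ := by
          rw [← he τ σ, Finset.sum_mul]
          refine Finset.sum_congr rfl fun i _ => ?_
          rw [map_div₀, div_eq_mul_inv, mul_assoc]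
        rw [h2]
        by_cases hτ : τ = σ
        · subst hτ
          rw [if_pos rfl, one_mul, Finset.sum_eq_single g]
          · rw [if_pos ⟨rfl, hy⟩]
          · intro b _ hb
            rw [if_neg]
            rintro ⟨h3, -⟩
            refine hb ?_
            have h4 := congrArg Sigma.fst h3
            exact (eq_of_heq (Sigma.mk.inj h4).2).symm
          · intro h3
            exact absurd (Finset.mem_univ _) h3
        · rw [if_neg hτ, zero_mul]
          refine Finset.sum_eq_zero fun b _ => ?_
          rw [if_neg]
          rintro ⟨h3, -⟩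
          have h4 := congrArg Sigma.fst h3
          have h5 : g = b := eq_of_heq (Sigma.mk.inj h4).2
          subst h5
          exact hτ (eq_of_heq (Sigma.mk.inj h3).2).symm
      · simp only [if_neg hy, mul_zero, Finset.sum_const_zero]
        refine Finset.sum_eq_zero fun b _ => ?_
        rw [if_neg]
        rintro ⟨h3, h6⟩
        have h4 := congrArg Sigma.fst h3
        have h5 : g = b := eq_of_heq (Sigma.mk.inj h4).2
        subst h5
        have h7 : σ = τ := eq_of_heq (Sigma.mk.inj h3).2
        subst h7
        exact hy h6
    · have h1 : ∀ i, ((Pi.single k (e' i) : ∀ k, K k) k') = 0 := fun i => Pi.single_eq_of_ne hk _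
      simp only [h1, zero_div, map_zero, ite_self, mul_zero, Finset.sum_const_zero]
      refine Finset.sum_eq_zero fun b _ => ?_
      rw [if_neg]
      rintro ⟨h3, -⟩
      have h4 := congrArg Sigma.fst h3
      exact hk (Sigma.mk.inj h4).1
  rw [key]
  exact Submodule.sum_mem _ fun i _ => Submodule.smul_mem _ _ (Submodule.subset_span ⟨_, rfl⟩)

end

end Pool.Agent.UNIT
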