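import Pool.Agent.Lib.UNIT.Rows

/-!
# UNIT, row UH: balanced products of pairings and determinants are combinations of the products in
`IsProdU` (helper77)
-/

set_option autoImplicit false

open scoped TensorProduct ComplexConjugate
open Complex Pool.Agent.HCM Pool.Agent.RAT

namespace Pool.Agent.UNIT

noncomputable section

theorem expand_mem {d : ℕ} {A V : Type} [AddCommGroup A] [Module ℂ A] [AddCommGroup V] [Module ℂ V]
    (S : Set A) (R : Submodule ℂ V) (F : MultilinearMap ℂ (fun _ : Fin d => A) V)
    (hS : ∀ s : Fin d → A, (∀ i, s i ∈ S) → F s ∈ R) (w : Fin d → A)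
    (hw : ∀ i, w i ∈ Submodule.span ℂ S) : F w ∈ R := by
  have key : ∀ (B : Finset (Fin d)) (w : Fin d → A), (∀ i ∈ B, w i ∈ Submodule.span ℂ S) →
      (∀ i, i ∉ B → w i ∈ S) → F w ∈ R := by
    intro B
    induction B using Finset.induction_on with
    | empty =>
      intro w _ h2
      exact hS w fun i => h2 i (Finset.notMem_empty _)
    | insert a B ha ih =>
      intro w h1 h2
      have h3 : ∀ x ∈ Submodule.span ℂ S, F (Function.update w a x) ∈ R := by
        intro x hx
        induction hx using Submodule.span_induction with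
        | mem x hx =>
          apply ih
          · intro i hi
            have hia : i ≠ a := by rintro rfl; exact ha hi
            rw [Function.update_of_ne hia]
            exact h1 i (Finset.mem_insert_of_mem hi)
          · intro i hi
            by_cases hia : i = a
            · subst hia
              rw [Function.update_self]
              exact hx
            · rw [Function.update_of_ne hia]
              apply h2
              rw [Finset.mem_insert]
              rintro (h | h)
              · exact hia h
              · exact hi h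
        | zero =>
          rw [MultilinearMap.map_update_zero]
          exact R.zero_mem
        | add x y _ _ hx hy =>
          rw [MultilinearMap.map_update_add]
          exact R.add_mem hx hy
        | smul z x _ hx =>
          rw [MultilinearMap.map_update_smul]
          exact R.smul_mem _ hx
      have h4 := h3 (w a) (h1 a (Finset.mem_insert_self _ _))
      rwa [Function.update_eq_self] at h4
  exact key Finset.univ w (fun i _ => hw i) (fun i hi => absurd (Finset.mem_univ _) hi)

theorem uH (hF : UF) (hG : UG) : UH := by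
  intro κ _ K G _ _ _ _ _ Φ hΦ h E _ _ _ j τ₀ n d r c pk pτ blk τ e hdc hB
  classical
  have hcard : Fintype.card (Two c) = Fintype.card (Σ j, G (blk j)) := by
    have h1 := Fintype.card_congr e
    rw [Fintype.card_sum, Fintype.card_prod, Fintype.card_fin, Fintype.card_fin,
      Fintype.card_fin] at h1
    have h2 : Fintype.card (Two c) = c + c := by
      simp [Two]
    omega
  let f : Two c ≃ Σ j, G (blk j) := Fintype.equivOfCardEq hcard
  have hD := hF κ K G Φ hΦ E j τ₀ r c blk f τ hB
  -- the evaluation of the `i`-th pairing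
  let P : ∀ _ : Fin d, (LU K G → LU K G → ℂ) →ₗ[ℂ] ((Fin (2 * n) → LU K G) → ℂ) := fun i =>
    { toFun := fun w t => w (t (e (Sum.inl (i, 0)))) (t (e (Sum.inl (i, 1))))
      map_add' := fun _ _ => rfl
      map_smul' := fun _ _ => rfl }
  let Q : (((Σ j, G (blk j)) → LU K G) → ℂ) →ₗ[ℂ] ((Fin (2 * n) → LU K G) → ℂ) :=
    LinearMap.funLeft ℂ ℂ fun t i => t (e (Sum.inr i))
  let D : ((Σ j, G (blk j)) → LU K G) → ℂ := fun t => ∏ j, dc (blk j) (τ j) fun g => t ⟨j, g⟩
  let F : MultilinearMap ℂ (fun _ : Fin d => LU K G → LU K G → ℂ) ((Fin (2 * n) → LU K G) → ℂ) :=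
    (LinearMap.mulRight ℂ (Q D)).compMultilinearMap
      ((MultilinearMap.mkPiAlgebra ℂ (Fin d) ((Fin (2 * n) → LU K G) → ℂ)).compLinearMap P)
  have hFa : ∀ w t, F w t =
      (∏ i, w i (t (e (Sum.inl (i, 0)))) (t (e (Sum.inl (i, 1))))) *
        D fun i => t (e (Sum.inr i)) := by
    intro w t
    change ((∏ i, P i (w i)) * Q D) t = _
    rw [Pi.mul_apply, Finset.prod_apply]
    rfl
  have hbt : bt h pk pτ blk τ e = F fun i => pc h (pk i) (pτ i) := by
    funext t
    rw [hFa]
    rfl
  rw [hbt]
  apply expand_mem (Set.range fun l : ∀ k, K k => pair h l)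
  · intro s hs
    choose l hl using hs
    have h1 : s = fun i => pair h (l i) := funext fun i => (hl i).symm
    -- the linear map `D ↦ F s`
    let W : (((Σ j, G (blk j)) → LU K G) → ℂ) →ₗ[ℂ] ((Fin (2 * n) → LU K G) → ℂ) :=
      LinearMap.mulLeft ℂ (∏ i, P i (s i)) ∘ₗ Q
    have h2 : F s = W D := rfl
    rw [h2]
    have h3 : W D ∈ Submodule.map W
        (Submodule.span ℂ {w | ∃ v : (Two c → LC K G blk) → ℂ, VOk Φ blk v ∧ w = detT blk f v}) :=
      Submodule.mem_map_of_mem hD
    rw [Submodule.map_span] at h3
    refine Submodule.span_mono ?_ h3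
    rintro w ⟨_, ⟨v, hv, rfl⟩, rfl⟩
    refine ⟨d, r, c, blk, f, e, l, v, hv, fun t => ?_⟩
    change ((∏ i, P i (s i)) * Q (detT blk f v)) t = _
    rw [Pi.mul_apply, Finset.prod_apply, h1]
    rfl
  · intro i
    exact hG κ K G h (pk i) (pτ i)

end

end Pool.Agent.UNIT
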