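import Pool.Agent.Lib.UNIT.Rows
import Pool.Agent.Lib.HCM.GDual

/-!
# UNIT, row UJ: the products are rational (helper39)
-/

set_option autoImplicit false

open scoped TensorProduct ComplexConjugate
open Complex Pool.Agent.HCM Pool.Agent.RAT

namespace Pool.Agent.UNIT

noncomputable section

namespace UJx

section closure

variable {κ : Type} {K G : κ → Type} [∀ k, Field (K k)]

theorem tens_mem {T : Type} [Fintype T] (x : T → ∀ i : Σ k, G k, K i.1) :
    (tens x : (T → LU K G) → ℂ) ∈ TQ K G T := Submodule.subset_span ⟨x, rfl⟩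

theorem reindex {T T' : Type} [Fintype T] [Fintype T'] (e : T' ≃ T) {u : (T' → LU K G) → ℂ}
    (hu : u ∈ TQ K G T') : (fun t : T → LU K G => u fun a => t (e a)) ∈ TQ K G T := by
  unfold TQ at hu
  induction hu using Submodule.span_induction with
  | mem u hu =>
    obtain ⟨x, rfl⟩ := hu
    have h1 : (fun t : T → LU K G => tens x fun a => t (e a)) = tens fun b => x (e.symm b) := by
      funext t
      unfold tens
      rw [← Equiv.prod_comp e]
      refine Finset.prod_congr rfl fun a _ => ?_
      simp only [Equiv.symm_apply_apply]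
    rw [h1]
    exact tens_mem _
  | zero => exact Submodule.zero_mem _
  | add u v _ _ hu hv => exact Submodule.add_mem _ hu hv
  | smul q u _ hu => exact Submodule.smul_mem _ q hu

theorem mul_mem {T T' : Type} [Fintype T] [Fintype T'] {u : (T → LU K G) → ℂ}
    {v : (T' → LU K G) → ℂ} (hu : u ∈ TQ K G T) (hv : v ∈ TQ K G T') :
    (fun t : T ⊕ T' → LU K G => (u fun a => t (Sum.inl a)) * v fun a => t (Sum.inr a)) ∈
      TQ K G (T ⊕ T') := by
  unfold TQ at hu
  induction hu using Submodule.span_induction with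
  | mem u hu =>
    obtain ⟨x, rfl⟩ := hu
    unfold TQ at hv
    induction hv using Submodule.span_induction with
    | mem v hv =>
      obtain ⟨y, rfl⟩ := hv
      have h1 : (fun t : T ⊕ T' → LU K G => (tens x fun a => t (Sum.inl a)) *
          tens y fun a => t (Sum.inr a)) = tens (Sum.elim x y) := by
        funext t
        unfold tens
        rw [Fintype.prod_sum_type]
        rfl
      rw [h1]
      exact tens_mem _
    | zero =>
      have h1 : (fun t : T ⊕ T' → LU K G => (tens x fun a => t (Sum.inl a)) *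
          (0 : (T' → LU K G) → ℂ) fun a => t (Sum.inr a)) = 0 := by
        funext t
        simp
      rw [h1]
      exact Submodule.zero_mem _
    | add v w _ _ hv hw =>
      have h1 : (fun t : T ⊕ T' → LU K G => (tens x fun a => t (Sum.inl a)) *
          (v + w) fun a => t (Sum.inr a)) =
          (fun t : T ⊕ T' → LU K G => (tens x fun a => t (Sum.inl a)) *
            v fun a => t (Sum.inr a)) +
          fun t : T ⊕ T' → LU K G => (tens x fun a => t (Sum.inl a)) *
            w fun a => t (Sum.inr a) := by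
        funext t
        simp only [Pi.add_apply, mul_add]
      rw [h1]
      exact Submodule.add_mem _ hv hw
    | smul q v _ hv =>
      have h1 : (fun t : T ⊕ T' → LU K G => (tens x fun a => t (Sum.inl a)) *
          (q • v) fun a => t (Sum.inr a)) =
          q • fun t : T ⊕ T' → LU K G => (tens x fun a => t (Sum.inl a)) *
            v fun a => t (Sum.inr a) := by
        funext t
        simp only [Pi.smul_apply, mul_smul_comm]
      rw [h1]
      exact Submodule.smul_mem _ _ hv
  | zero =>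
    have h1 : (fun t : T ⊕ T' → LU K G => ((0 : (T → LU K G) → ℂ) fun a => t (Sum.inl a)) *
        v fun a => t (Sum.inr a)) = 0 := by
      funext t
      simp
    rw [h1]
    exact Submodule.zero_mem _
  | add u w _ _ hu hw =>
    have h1 : (fun t : T ⊕ T' → LU K G => ((u + w) fun a => t (Sum.inl a)) *
        v fun a => t (Sum.inr a)) =
        (fun t : T ⊕ T' → LU K G => (u fun a => t (Sum.inl a)) * v fun a => t (Sum.inr a)) +
        fun t : T ⊕ T' → LU K G => (w fun a => t (Sum.inl a)) * v fun a => t (Sum.inr a) := by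
      funext t
      simp only [Pi.add_apply, add_mul]
    rw [h1]
    exact Submodule.add_mem _ hu hw
  | smul q u _ hu =>
    have h1 : (fun t : T ⊕ T' → LU K G => ((q • u) fun a => t (Sum.inl a)) *
        v fun a => t (Sum.inr a)) =
        q • fun t : T ⊕ T' → LU K G => (u fun a => t (Sum.inl a)) *
          v fun a => t (Sum.inr a) := by
      funext t
      simp only [Pi.smul_apply, smul_mul_assoc]
    rw [h1]
    exact Submodule.smul_mem _ _ hu

theorem prod_mem {I : Type} [Fintype I] [DecidableEq I] (P : I → Type) [∀ i, Fintype (P i)]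
    (u : ∀ i, (P i → LU K G) → ℂ) (hu : ∀ i, u i ∈ TQ K G (P i)) :
    (fun t : (Σ i, P i) → LU K G => ∏ i, u i fun a => t ⟨i, a⟩) ∈ TQ K G (Σ i, P i) := by
  choose m c g hg using fun i => Submodule.mem_span_set'.1 (hu i)
  choose x hx using fun i (j : Fin (m i)) => (g i j).2
  have h1 : (fun t : (Σ i, P i) → LU K G => ∏ i, u i fun a => t ⟨i, a⟩) =
      ∑ φ : ∀ i, Fin (m i), (∏ i, c i (φ i)) • tens fun a : Σ i, P i => x a.1 (φ a.1) a.2 := by
    funext t
    have h2 : ∀ i, (u i fun a => t ⟨i, a⟩) =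
        ∑ j, (c i j : ℂ) * ∏ a, (t ⟨i, a⟩).2 (x i j a (t ⟨i, a⟩).1) := by
      intro i
      rw [← hg i, Finset.sum_apply]
      refine Finset.sum_congr rfl fun j _ => ?_
      rw [Pi.smul_apply, Rat.smul_def, ← hx i j]
      rfl
    simp only [h2]
    have h3 := Finset.prod_univ_sum (fun i : I => (Finset.univ : Finset (Fin (m i))))
      (fun i j => (c i j : ℂ) * ∏ a, (t ⟨i, a⟩).2 (x i j a (t ⟨i, a⟩).1))
    rw [Fintype.piFinset_univ] at h3
    rw [h3, Finset.sum_apply]
    refine Finset.sum_congr rfl fun φ _ => ?_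
    rw [Pi.smul_apply, Rat.smul_def, Finset.prod_mul_distrib]
    unfold tens
    rw [Fintype.prod_sigma]
    push_cast
    rfl
  rw [h1]
  exact Submodule.sum_mem _ fun φ _ => Submodule.smul_mem _ _ (tens_mem _)

end closure

section pieces

variable {κ : Type} {K G : κ → Type} [∀ k, Field (K k)]

open Classical in
theorem single_letter (i : Σ k, G k) (y : K i.1) (τ : K i.1 →+* ℂ) :
    τ ((Pi.single i y : ∀ i : Σ k, G k, K i.1) i) = τ y := by
  rw [Pi.single_eq_same]

theorem letter_eq {y : LU K G} {i : Σ k, G k} (h : y.1 = i) : ∃ τ : K i.1 →+* ℂ, y = ⟨i, τ⟩ := by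
  subst h
  exact ⟨y.2, rfl⟩

variable [∀ k, NumberField (K k)]

open Classical in
/-- words with one embedding -/
theorem block_mem {P : Type} [Fintype P] [DecidableEq P] (g₀ : P) (k : κ) (s : P → G k) (Y : K k) :
    (fun w : P → LU K G => ∑ τ : K k →+* ℂ, if w = fun g => ⟨⟨k, s g⟩, τ⟩ then τ Y else 0) ∈
      TQ K G P := by
  obtain ⟨d, e, e', he⟩ := exists_dual (K k)
  have h1 : (fun w : P → LU K G => ∑ τ : K k →+* ℂ,
      if w = fun g => ⟨⟨k, s g⟩, τ⟩ then τ Y else 0) =
      ∑ c : P → Fin d, tens fun g => (Pi.single (⟨k, s g⟩ : Σ k, G k)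
        (e' (c g) * if g = g₀ then Y * ∏ g', e (c g') else 1) : ∀ i : Σ k, G k, K i.1) := by
    funext w
    rw [Finset.sum_apply]
    by_cases hw : ∃ σ : P → (K k →+* ℂ), w = fun g => ⟨⟨k, s g⟩, σ g⟩
    · obtain ⟨σ, rfl⟩ := hw
      have h2 : ∀ c : P → Fin d, (tens (fun g => (Pi.single (⟨k, s g⟩ : Σ k, G k)
          (e' (c g) * if g = g₀ then Y * ∏ g', e (c g') else 1) : ∀ i : Σ k, G k, K i.1))
          fun g => (⟨⟨k, s g⟩, σ g⟩ : LU K G)) =
          σ g₀ Y * ∏ g, σ g₀ (e (c g)) * σ g (e' (c g)) := by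
        intro c
        unfold tens
        have h3 : ∀ g, ((⟨⟨k, s g⟩, σ g⟩ : LU K G)).2 ((Pi.single (⟨k, s g⟩ : Σ k, G k)
            (e' (c g) * if g = g₀ then Y * ∏ g', e (c g') else 1) : ∀ i : Σ k, G k, K i.1)
            ((⟨⟨k, s g⟩, σ g⟩ : LU K G)).1) =
            σ g (e' (c g)) * if g = g₀ then σ g₀ Y * ∏ g', σ g₀ (e (c g')) else 1 := by
          intro g
          rw [single_letter ⟨k, s g⟩ _ (σ g), map_mul]
          congr 1
          split_ifs with hg
          · rw [hg, map_mul, map_prod]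
          · rw [map_one]
        rw [Finset.prod_congr rfl fun g _ => h3 g, Finset.prod_mul_distrib,
          Finset.prod_ite_eq' Finset.univ g₀, if_pos (Finset.mem_univ _), Finset.prod_mul_distrib]
        ring
      rw [Finset.sum_congr rfl fun c _ => h2 c, ← Finset.mul_sum]
      have h4 := Finset.prod_univ_sum (fun _ : P => (Finset.univ : Finset (Fin d)))
        (fun g i => σ g₀ (e i) * σ g (e' i))
      rw [Fintype.piFinset_univ] at h4
      rw [← h4]
      simp only [he]
      rw [Finset.prod_ite_zero]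
      simp only [Finset.prod_const_one, Finset.mem_univ, true_implies]
      by_cases hσ : ∀ g, σ g₀ = σ g
      · rw [if_pos hσ, mul_one, Finset.sum_eq_single (σ g₀)]
        · rw [if_pos]
          funext g
          rw [hσ g]
        · intro τ _ hτ
          rw [if_neg]
          intro h5
          have h6 := congrFun h5 g₀
          exact hτ (eq_of_heq (Sigma.mk.inj h6).2).symm
        · intro h5
          exact absurd (Finset.mem_univ _) h5
      · rw [if_neg hσ, mul_zero]
        refine Finset.sum_eq_zero fun τ _ => ?_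
        rw [if_neg]
        intro h5
        apply hσ
        intro g
        have h6 := congrFun h5 g₀
        have h7 := congrFun h5 g
        rw [eq_of_heq (Sigma.mk.inj h6).2, eq_of_heq (Sigma.mk.inj h7).2]
    · have h2 : ∃ g, (w g).1 ≠ ⟨k, s g⟩ := by
        by_contra h3
        push Not at h3
        apply hw
        have h4 : ∀ g, ∃ τ : K k →+* ℂ, w g = ⟨⟨k, s g⟩, τ⟩ := fun g => letter_eq (h3 g)
        choose σ hσ using h4
        exact ⟨σ, funext hσ⟩
      obtain ⟨g, hg⟩ := h2
      rw [Finset.sum_eq_zero, Finset.sum_eq_zero]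
      · intro c _
        unfold tens
        refine Finset.prod_eq_zero (Finset.mem_univ g) ?_
        beta_reduce
        rw [Pi.single_eq_of_ne hg, map_zero]
      · intro τ _
        rw [if_neg]
        intro h3
        apply hg
        rw [h3]
  rw [h1]
  exact Submodule.sum_mem _ fun c _ => tens_mem _

open Classical in
theorem pair_mem [Fintype κ] [∀ k, Fintype (G k)] [∀ k, NumberField.IsCMField (K k)]
    (h : ∀ k, G k → K k) (l : ∀ k, K k) :
    (fun t : Fin 2 → LU K G => pair h l (t 0) (t 1)) ∈ TQ K G (Fin 2) := by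
  choose d e e' he using fun k => exists_dual (K k)
  have h1 : (fun t : Fin 2 → LU K G => pair h l (t 0) (t 1)) =
      ∑ y : Σ k, G k, ∑ i : Fin (d y.1), tens ![(Pi.single y
        (l y.1 / h y.1 y.2 * e y.1 i) : ∀ i : Σ k, G k, K i.1),
        Pi.single y (NumberField.IsCMField.complexConj (K y.1) (e' y.1 i))] := by
    funext t
    simp only [Finset.sum_apply]
    generalize hz : t 0 = y0
    generalize hz' : t 1 = y1
    obtain ⟨z, τ⟩ := y0
    obtain ⟨z', τ'⟩ := y1
    unfold tens pair
    simp only [Fin.prod_univ_two, Matrix.cons_val_zero, Matrix.cons_val_one]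
    rw [hz, hz']
    rw [Finset.sum_eq_single z]
    · simp only [Pi.single_eq_same, map_mul]
      by_cases hzz : z' = z
      · subst hzz
        simp only [Pi.single_eq_same, NumberField.IsCMField.complexEmbedding_complexConj]
        have h2 : ∀ i, τ (l z'.1 / h z'.1 z'.2) * τ (e z'.1 i) * conj (τ' (e' z'.1 i)) =
            τ (l z'.1 / h z'.1 z'.2) * (τ (e z'.1 i) * (cj τ') (e' z'.1 i)) := fun i => by
          rw [mul_assoc]
          rfl
        rw [Finset.sum_congr rfl fun i _ => h2 i, ← Finset.mul_sum, he]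
        have h3 : ((⟨z', τ'⟩ : LU K G) = ⟨z', cj τ⟩) ↔ τ = cj τ' := by
          constructor
          · intro h4
            have h5 := eq_of_heq (Sigma.mk.inj h4).2
            rw [h5, cj_cj]
          · intro h4
            rw [h4, cj_cj]
        by_cases h4 : τ = cj τ'
        · rw [if_pos (h3.2 h4), if_pos h4, mul_one]
        · rw [if_neg (fun h5 => h4 (h3.1 h5)), if_neg h4, mul_zero]
      · rw [if_neg]
        · symm
          refine Finset.sum_eq_zero fun i _ => ?_
          rw [Pi.single_eq_of_ne hzz, map_zero, mul_zero]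
        · intro h4
          exact hzz (Sigma.mk.inj h4).1
    · intro y _ hy
      refine Finset.sum_eq_zero fun i _ => ?_
      rw [Pi.single_eq_of_ne (Ne.symm hy), map_zero, zero_mul]
    · intro h4
      exact absurd (Finset.mem_univ _) h4
  rw [h1]
  exact Submodule.sum_mem _ fun y _ => Submodule.sum_mem _ fun i _ => tens_mem _

end pieces

section det

variable {κ : Type} {K G : κ → Type} [∀ k, Field (K k)] [∀ k, NumberField (K k)]
  [∀ k, Fintype (G k)]

open Classical in
/-- words with one embedding for each `j` -/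
theorem shape_mem [∀ k, Nonempty (G k)] {r : ℕ} (blk : Fin r → κ)
    (s : ∀ i : Σ j, G (blk j), G (blk i.1)) (Y : ∀ j, K (blk j)) :
    (fun t : (Σ j, G (blk j)) → LU K G => ∑ τ : ∀ j, K (blk j) →+* ℂ,
      if t = fun i => ⟨⟨blk i.1, s i⟩, τ i.1⟩ then ∏ j, τ j (Y j) else 0) ∈
      TQ K G (Σ j, G (blk j)) := by
  have h1 := prod_mem (K := K) (G := G) (fun j : Fin r => G (blk j))
    (fun j w => ∑ τ : K (blk j) →+* ℂ,
      if w = fun g => ⟨⟨blk j, s ⟨j, g⟩⟩, τ⟩ then τ (Y j) else 0)
    (fun j => block_mem (Classical.arbitrary (G (blk j))) (blk j) (fun g => s ⟨j, g⟩) (Y j))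
  convert h1 using 1
  funext t
  have h3 := Finset.prod_univ_sum (fun j : Fin r => (Finset.univ : Finset (K (blk j) →+* ℂ)))
    (fun j τ => if (fun a => t ⟨j, a⟩) = fun g => (⟨⟨blk j, s ⟨j, g⟩⟩, τ⟩ : LU K G) then τ (Y j)
      else 0)
  rw [Fintype.piFinset_univ] at h3
  rw [h3]
  refine Finset.sum_congr rfl fun τ _ => ?_
  rw [Finset.prod_ite_zero]
  have h4 : (∀ j ∈ (Finset.univ : Finset (Fin r)), (fun a => t ⟨j, a⟩) =
      fun g => (⟨⟨blk j, s ⟨j, g⟩⟩, τ j⟩ : LU K G)) ↔
      t = fun i => ⟨⟨blk i.1, s i⟩, τ i.1⟩ := by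
    constructor
    · intro h5
      funext i
      exact congrFun (h5 i.1 (Finset.mem_univ _)) i.2
    · intro h5 j _
      rw [h5]
  simp only [h4]

theorem detT_add {r c : ℕ} (blk : Fin r → κ) (f : Two c ≃ Σ j, G (blk j))
    (v w : (Two c → LC K G blk) → ℂ) : detT blk f (v + w) = detT blk f v + detT blk f w := by
  funext t
  unfold detT
  rw [Pi.add_apply, ← Finset.sum_add_distrib]
  refine Finset.sum_congr rfl fun τ _ => ?_
  rw [← Finset.sum_add_distrib]
  refine Finset.sum_congr rfl fun s _ => ?_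
  split_ifs
  · rfl
  · rw [add_zero]

theorem detT_smul {r c : ℕ} (blk : Fin r → κ) (f : Two c ≃ Σ j, G (blk j)) (q : ℚ)
    (v : (Two c → LC K G blk) → ℂ) : detT blk f (q • v) = q • detT blk f v := by
  funext t
  unfold detT
  rw [Pi.smul_apply, Finset.smul_sum]
  refine Finset.sum_congr rfl fun τ _ => ?_
  rw [Finset.smul_sum]
  refine Finset.sum_congr rfl fun s _ => ?_
  split_ifs
  · rfl
  · rw [smul_zero]

theorem detT_zero {r c : ℕ} (blk : Fin r → κ) (f : Two c ≃ Σ j, G (blk j)) :
    detT blk f (0 : (Two c → LC K G blk) → ℂ) = 0 := by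
  have := detT_smul (K := K) (G := G) blk f 0 0
  rwa [zero_smul, zero_smul] at this

theorem detT_torus [∀ k, Nonempty (G k)] {r c : ℕ} (blk : Fin r → κ)
    (f : Two c ≃ Σ j, G (blk j)) (x : Two c → ∀ i : Σ j, G (blk j), K (blk i.1)) :
    detT blk f (torusClass x) ∈ TQ K G (Σ j, G (blk j)) := by
  classical
  have h1 : detT blk f (torusClass x : (Two c → LC K G blk) → ℂ) =
      ∑ s : ∀ i : Σ j, G (blk j), G (blk i.1), ∑ π : Equiv.Perm (Two c),
        ((Equiv.Perm.sign π : ℤ) : ℚ) • fun t : (Σ j, G (blk j)) → LU K G =>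
          ∑ τ : ∀ j, K (blk j) →+* ℂ,
            if t = fun i => ⟨⟨blk i.1, s i⟩, τ i.1⟩ then
              ∏ j, τ j (∏ g, x ((π.trans f).symm ⟨j, g⟩) ⟨j, s ⟨j, g⟩⟩) else 0 := by
    funext t
    have h2 : ∀ (τ : ∀ j, K (blk j) →+* ℂ) (s : ∀ i : Σ j, G (blk j), G (blk i.1)),
        (torusClass x : (Two c → LC K G blk) → ℂ)
          (fun a => ⟨⟨(f a).1, s (f a)⟩, τ (f a).1⟩) =
        ∑ π : Equiv.Perm (Two c), ((Equiv.Perm.sign π : ℤ) : ℂ) *
          ∏ j, τ j (∏ g, x ((π.trans f).symm ⟨j, g⟩) ⟨j, s ⟨j, g⟩⟩) := by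
      intro τ s
      unfold torusClass
      rw [Matrix.det_apply]
      refine Finset.sum_congr rfl fun π _ => ?_
      rw [Units.smul_def, zsmul_eq_mul]
      congr 1
      have h3 : ∀ a, (Matrix.of fun a b => ((⟨⟨(f a).1, s (f a)⟩, τ (f a).1⟩ :
          LC K G blk)).2 (x b ((⟨⟨(f a).1, s (f a)⟩, τ (f a).1⟩ : LC K G blk)).1)) (π a) a =
          (fun i : Σ j, G (blk j) => τ i.1 (x ((π.trans f).symm i) ⟨i.1, s i⟩))
            ((π.trans f) a) := by
        intro a
        simp only [Matrix.of_apply, Equiv.symm_apply_apply]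
        rfl
      rw [Finset.prod_congr rfl fun a _ => h3 a]
      refine (Equiv.prod_comp (π.trans f) fun i : Σ j, G (blk j) =>
        τ i.1 (x ((π.trans f).symm i) ⟨i.1, s i⟩)).trans ?_
      rw [Fintype.prod_sigma]
      refine Finset.prod_congr rfl fun j _ => ?_
      rw [map_prod]
    unfold detT
    simp only [h2]
    rw [Finset.sum_comm, Finset.sum_apply]
    refine Finset.sum_congr rfl fun s _ => ?_
    rw [Finset.sum_apply]
    simp only [Pi.smul_apply, Rat.smul_def, Finset.mul_sum]
    rw [Finset.sum_comm]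
    refine Finset.sum_congr rfl fun τ _ => ?_
    split_ifs
    · refine Finset.sum_congr rfl fun π _ => ?_
      push_cast
      rfl
    · simp
  rw [h1]
  exact Submodule.sum_mem _ fun s _ => Submodule.sum_mem _ fun π _ =>
    Submodule.smul_mem _ _ (shape_mem blk s _)

theorem detT_mem [∀ k, Nonempty (G k)] {r c : ℕ} (blk : Fin r → κ)
    (f : Two c ≃ Σ j, G (blk j)) {v : (Two c → LC K G blk) → ℂ}
    (hv : v ∈ HQ (fun i : Σ j, G (blk j) => K (blk i.1)) c) :
    detT blk f v ∈ TQ K G (Σ j, G (blk j)) := by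
  unfold HQ at hv
  induction hv using Submodule.span_induction with
  | mem v hv =>
    obtain ⟨x, rfl⟩ := hv
    exact detT_torus blk f x
  | zero =>
    rw [detT_zero]
    exact Submodule.zero_mem _
  | add v w _ _ hv hw =>
    rw [detT_add]
    exact Submodule.add_mem _ hv hw
  | smul q v _ hv =>
    rw [detT_smul]
    exact Submodule.smul_mem _ _ hv

omit [∀ k, NumberField (K k)] in
theorem const_mem (v : (Two 0 → Idx K) → ℂ) (q : ℚ) (hv : ∀ t, v t = q) : v ∈ HQ K 0 := by
  have h1 : v = q • (torusClass (fun _ => 0) : (Two 0 → Idx K) → ℂ) := by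
    funext t
    rw [Pi.smul_apply, hv t]
    unfold torusClass
    rw [Matrix.det_isEmpty, Rat.smul_def, mul_one]
  rw [h1]
  exact Submodule.smul_mem _ _ (Submodule.subset_span ⟨_, rfl⟩)

end det

end UJx

open UJx

theorem uj : UJ := by
  intro κ _ K G _ _ _ _ _ Φ h hh n u hu
  classical
  obtain ⟨d, r, c, blk, f, e, l, v, hv, hu⟩ := hu
  have hvQ : v ∈ HQ (fun i : Σ j, G (blk j) => K (blk i.1)) c := by
    rcases hv with ⟨hc, q, hq⟩ | ⟨-, hv⟩
    · subst hc
      exact const_mem v q hq
    · have h1 : Submodule.span ℚ {w | w ∈ HQ (fun i : Σ j, G (blk j) => K (blk i.1)) c ∧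
          ∃ v ∈ BallCl (fun i : Σ j, G (blk j) => Φ ⟨blk i.1, i.2⟩), w = (-2 * I) ^ c • v} ≤
          HQ (fun i : Σ j, G (blk j) => K (blk i.1)) c :=
        Submodule.span_le.2 fun w hw => hw.1
      exact h1 hv
  have h1 := detT_mem blk f hvQ
  have h2 := prod_mem (K := K) (G := G) (fun _ : Fin d => Fin 2)
    (fun i t => pair h (l i) (t 0) (t 1)) (fun i => pair_mem h (l i))
  have h3 := reindex (Equiv.sigmaEquivProd (Fin d) (Fin 2)) h2
  have h4 := reindex e (mul_mem h3 h1)
  convert h4 using 1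
  funext t
  rw [hu t]
  rfl

end

end Pool.Agent.UNIT
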