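import Pool.Agent.Lib.RAT.LQ

/-!
# UNIT: descent from complex to rational combinations for functions of words (helper25)
-/

set_option autoImplicit false
set_option linter.unusedSectionVars false

open Complex Pool.Agent.HCM NumberField

namespace Pool.Agent.UNIT.Dsc

noncomputable section

section abstract_

variable {L T B : Type} [Fintype L] [Fintype T] [Fintype B]

/-- the transformation to rational coordinates -/
def tr (cf : B → L → ℂ) (v : (T → L) → ℂ) (s : T → B) : ℂ := by
  classical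
  exact ∑ t : T → L, (∏ a, cf (s a) (t a)) * v t

/-- the rational functions of words: combinations of the products of the functions in `Gen` -/
def RW (T : Type) [Fintype T] (Gen : Set (L → ℂ)) : Submodule ℚ ((T → L) → ℂ) :=
  Submodule.span ℚ {u | ∃ f : T → L → ℂ, (∀ a, f a ∈ Gen) ∧ u = fun t => ∏ a, f a (t a)}

open Classical in
theorem tr_inj (cf : B → L → ℂ) (P : L → B → ℂ)
    (hP : ∀ t t', ∑ s, P t s * cf s t' = if t = t' then 1 else 0)
    {v v' : (T → L) → ℂ} (h : tr cf v = tr cf v') : v = v' := by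
  have key : ∀ (v : (T → L) → ℂ) (t : T → L),
      v t = ∑ s : T → B, (∏ a, P (t a) (s a)) * tr cf v s := by
    intro v t
    have h1 : ∀ s : T → B, (∏ a, P (t a) (s a)) * tr cf v s =
        ∑ t' : T → L, (∏ a, P (t a) (s a) * cf (s a) (t' a)) * v t' := by
      intro s
      unfold tr
      rw [Finset.mul_sum]
      refine Finset.sum_congr rfl fun t' _ => ?_
      rw [Finset.prod_mul_distrib]
      ring
    simp only [h1]
    rw [Finset.sum_comm]
    have h2 : ∀ t' : T → L,
        ∑ s : T → B, (∏ a, P (t a) (s a) * cf (s a) (t' a)) * v t' =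
          (if t = t' then 1 else 0) * v t' := by
      intro t'
      rw [← Finset.sum_mul]
      congr 1
      have h3 := Finset.prod_univ_sum (fun _ : T => (Finset.univ : Finset B))
        (fun a s => P (t a) s * cf s (t' a))
      rw [Fintype.piFinset_univ] at h3
      rw [← h3]
      simp only [hP]
      rw [Finset.prod_boole]
      congr 1
      simp only [Finset.mem_univ, true_implies, funext_iff]
    simp only [h2, ite_mul, one_mul, zero_mul]
    rw [Finset.sum_ite_eq, if_pos (Finset.mem_univ _)]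
  ext t
  rw [key v t, key v' t, h]

theorem tr_add (cf : B → L → ℂ) (v v' : (T → L) → ℂ) (s : T → B) :
    tr cf (v + v') s = tr cf v s + tr cf v' s := by
  simp only [tr, Pi.add_apply, mul_add, Finset.sum_add_distrib]

theorem tr_smul (cf : B → L → ℂ) (c : ℂ) (v : (T → L) → ℂ) (s : T → B) :
    tr cf (c • v) s = c * tr cf v s := by
  simp only [tr, Pi.smul_apply, smul_eq_mul, Finset.mul_sum]
  refine Finset.sum_congr rfl fun t _ => ?_
  ring

theorem tr_sum (cf : B → L → ℂ) {κ : Type} [Fintype κ] (c : κ → ℂ) (v : κ → (T → L) → ℂ)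
    (s : T → B) : tr cf (∑ i, c i • v i) s = ∑ i, c i * tr cf (v i) s := by
  simp only [tr, Finset.sum_apply, Pi.smul_apply, smul_eq_mul, Finset.mul_sum]
  rw [Finset.sum_comm]
  refine Finset.sum_congr rfl fun i _ => Finset.sum_congr rfl fun t _ => ?_
  ring

theorem tr_rat (cf : B → L → ℂ) {Gen : Set (L → ℂ)}
    (hG : ∀ f ∈ Gen, ∀ s, ∃ q : ℚ, ∑ t, cf s t * f t = q)
    {v : (T → L) → ℂ} (hv : v ∈ RW T Gen) (s : T → B) : ∃ q : ℚ, tr cf v s = q := by
  classical
  unfold RW at hv
  induction hv using Submodule.span_induction with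
  | mem v hv =>
    obtain ⟨f, hf, rfl⟩ := hv
    choose q hq using fun a => hG (f a) (hf a) (s a)
    refine ⟨∏ a, q a, ?_⟩
    unfold tr
    push_cast
    rw [← Finset.prod_congr rfl fun a _ => hq a]
    have h3 := Finset.prod_univ_sum (fun _ : T => (Finset.univ : Finset L))
      (fun a t => cf (s a) t * f a t)
    rw [Fintype.piFinset_univ] at h3
    rw [h3]
    exact Finset.sum_congr rfl fun t _ => Finset.prod_mul_distrib.symm
  | zero => exact ⟨0, by simp [tr]⟩
  | add u v _ _ hu hv =>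
    obtain ⟨q, hq⟩ := hu
    obtain ⟨r, hr⟩ := hv
    exact ⟨q + r, by rw [tr_add, hq, hr]; push_cast; rfl⟩
  | smul c v _ hv =>
    obtain ⟨q, hq⟩ := hv
    refine ⟨c * q, ?_⟩
    have h1 : c • v = (c : ℂ) • v := by
      ext t
      simp [Rat.smul_def]
    rw [h1, tr_smul, hq]
    push_cast
    rfl

open Classical in
/-- **descent** -/
theorem descent_abs (cf : B → L → ℂ) (P : L → B → ℂ)
    (hP : ∀ t t', ∑ s, P t s * cf s t' = if t = t' then 1 else 0) {Gen : Set (L → ℂ)}
    (hG : ∀ f ∈ Gen, ∀ s, ∃ q : ℚ, ∑ t, cf s t * f t = q) {S : Set ((T → L) → ℂ)}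
    (hS : ∀ v ∈ S, v ∈ RW T Gen) {u : (T → L) → ℂ} (hu : u ∈ RW T Gen)
    (hsp : u ∈ Submodule.span ℂ S) : u ∈ Submodule.span ℚ S := by
  obtain ⟨π, hπ⟩ := (Algebra.linearMap ℚ ℂ).exists_leftInverse_of_injective
    (LinearMap.ker_eq_bot.2 (algebraMap ℚ ℂ).injective)
  have hπ1 : ∀ q : ℚ, π (q : ℂ) = q := fun q => by
    have := LinearMap.congr_fun hπ q
    simpa using this
  have hπ2 : ∀ (c : ℂ) (q : ℚ), π (c * (q : ℂ)) = π c * q := by
    intro c q
    have : c * (q : ℂ) = q • c := by rw [Rat.smul_def, mul_comm]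
    rw [this, map_smul, smul_eq_mul, mul_comm]
  obtain ⟨m, c, g, hg⟩ := Submodule.mem_span_set'.1 hsp
  have hu' : u = ∑ i, ((π (c i) : ℚ) : ℂ) • (g i : (T → L) → ℂ) := by
    apply tr_inj cf P hP
    ext s
    rw [tr_sum]
    choose q hq using fun i : Fin m => tr_rat cf hG (hS _ (g i).2) s
    obtain ⟨r, hr⟩ := tr_rat cf hG hu s
    have h1 : (r : ℂ) = ∑ i, c i * (q i : ℂ) := by
      rw [← hr, ← hg, tr_sum]
      simp only [hq]
    have h2 := congrArg π h1
    rw [hπ1, map_sum] at h2
    simp only [hπ2] at h2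
    rw [hr, h2]
    simp only [hq]
    push_cast
    rfl
  rw [hu']
  refine Submodule.sum_mem _ fun i _ => ?_
  have h1 : ((π (c i) : ℚ) : ℂ) • (g i : (T → L) → ℂ) =
      (π (c i)) • (g i : (T → L) → ℂ) := by
    ext t
    simp [Rat.smul_def]
  rw [h1]
  exact Submodule.smul_mem _ _ (Submodule.subset_span (g i).2)

end abstract_

section cm

variable {ι : Type} [Fintype ι] {K : ι → Type} [∀ i, Field (K i)] [∀ i, NumberField (K i)]
  {T : Type} [Fintype T]

/-- the period functions of the loops -/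
def Per (K : ι → Type) [∀ i, Field (K i)] : Set (Idx K → ℂ) :=
  {f | ∃ x : ∀ i, K i, f = fun q => q.2 (x q.1)}

open Classical in
theorem exists_PQ : ∃ P : Idx K → RAT.LQx.Bx K → ℂ,
    ∀ t t', ∑ s, P t s * RAT.LQx.cf s t' = if t = t' then 1 else 0 := by
  choose P hP using fun t : Idx K => RAT.LQx.exists_p t
  refine ⟨P, fun t t' => ?_⟩
  have h1 := hP t (fun x => if t' = x then 1 else 0)
  rw [show (if t = t' then (1 : ℂ) else 0) = if t' = t then 1 else 0 by simp only [eq_comm]]
  rw [h1]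
  exact Finset.sum_congr rfl fun s _ => rfl

/-- **descent for words in the letters of a product of CM tori** -/
theorem descent {S : Set ((T → Idx K) → ℂ)} (hS : ∀ v ∈ S, v ∈ RW T (Per K))
    {u : (T → Idx K) → ℂ} (hu : u ∈ RW T (Per K)) (hsp : u ∈ Submodule.span ℂ S) :
    u ∈ Submodule.span ℚ S := by
  classical
  obtain ⟨P, hP⟩ := exists_PQ (K := K)
  refine descent_abs RAT.LQx.cf P (fun t t' => by convert hP t t') ?_ hS hu hsp
  rintro f ⟨x, rfl⟩ s
  exact ⟨_, by rw [← RAT.LQx.lam_eq, RAT.LQx.lam_emb]⟩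

end cm

end

end Pool.Agent.UNIT.Dsc
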