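import Pool.Agent.Lib.UNIT.Rows
import Pool.Agent.Lib.UNIT.Dsc

/-!
# UNIT, row UK: from complex to rational combinations (helper25)
-/

set_option autoImplicit false

open Complex Pool.Agent.HCM

namespace Pool.Agent.UNIT

theorem uk : UK := by
  intro κ _ K G _ _ _ T _ S hS u hu hsp
  classical
  have h1 : TQ K G T = Dsc.RW T (Dsc.Per fun i : Σ k, G k => K i.1) := by
    unfold TQ Dsc.RW
    congr 1
    ext v
    constructor
    · rintro ⟨x, rfl⟩
      exact ⟨fun a q => q.2 (x a q.1), fun a => ⟨x a, rfl⟩, rfl⟩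
    · rintro ⟨f, hf, rfl⟩
      choose x hx using hf
      refine ⟨x, ?_⟩
      funext t
      unfold tens
      exact Finset.prod_congr rfl fun a _ => by rw [hx a]
  rw [h1] at hu hS
  exact Dsc.descent hS hu hsp

end Pool.Agent.UNIT
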