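import Pool.Agent.Lib.UNIT.Rows
import Pool.Agent.Lib.TPR.Tt

/-!
# UNIT, row UM: the torus acts on the products by the powers of the norm (helper81)
-/

set_option autoImplicit false

open scoped TensorProduct ComplexConjugate
open Complex Pool.Agent.HCM Pool.Agent.RAT

namespace Pool.Agent.UNIT

noncomputable section

namespace UMx

section refl

variable {ι : Type} {K : ι → Type} [∀ i, Field (K i)] {E : Type} [Field E] [NumberField E]
  [IsGalois ℚ E]

open Classical in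
/-- The product of a reflex norm and of its complex conjugate is the norm. -/
theorem mul_conj [∀ i, NumberField (K i)] [∀ i, NumberField.IsCMField (K i)]
    {Φ : ∀ i, Set (K i →+* ℂ)} (hΦ : ∀ i, IsCMType (Φ i)) {j : ∀ i, K i →+* E} {τ₀ : E →+* ℂ}
    {x : E} {z : ∀ i, K i} (hz : IsReflexNorm Φ j τ₀ x z) (i : ι) (τ : K i →+* ℂ) :
    τ (z i) * cj τ (z i) = ((Algebra.norm ℚ x : ℚ) : ℂ) := by
  obtain ⟨c, hc⟩ := exists_aut τ₀ (cj τ₀)
  have h1 : ∀ y : K i, c (j i y) = j i (NumberField.IsCMField.complexConj (K i) y) := by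
    intro y
    apply τ₀.injective
    have h2 : τ₀ (c (j i y)) = cj τ₀ (j i y) := by rw [hc]; rfl
    have h3 := NumberField.IsCMField.complexEmbedding_complexConj (K i) (τ₀.comp (j i)) y
    rw [h2]
    exact h3.symm
  have h2 : ∀ g : E ≃ₐ[ℚ] E,
      (τ₀.comp ((((g * c : E ≃ₐ[ℚ] E)) : E →+* E).comp (j i)) ∈ Φ i ↔
        τ₀.comp ((g : E →+* E).comp (j i)) ∉ Φ i) := by
    intro g
    rw [← hΦ i]
    have h3 : τ₀.comp ((((g * c : E ≃ₐ[ℚ] E)) : E →+* E).comp (j i)) =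
        cj (τ₀.comp ((g : E →+* E).comp (j i))) := by
      ext y
      have h4 := NumberField.IsCMField.complexEmbedding_complexConj (K i)
        (τ₀.comp ((g : E →+* E).comp (j i))) y
      change τ₀ (g (c (j i y))) = conj (τ₀ (g (j i y)))
      rw [h1 y]
      exact h4
    rw [h3]
  have h3 : j i (z i * NumberField.IsCMField.complexConj (K i) (z i)) =
      ∏ g : E ≃ₐ[ℚ] E, g.symm x := by
    rw [map_mul, ← h1, hz i, map_prod]
    have h4 : ∏ g : E ≃ₐ[ℚ] E, c (if τ₀.comp ((g : E →+* E).comp (j i)) ∈ Φ i then g.symm x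
        else 1) = ∏ g : E ≃ₐ[ℚ] E, if τ₀.comp ((g : E →+* E).comp (j i)) ∈ Φ i then 1
        else g.symm x := by
      symm
      refine Fintype.prod_equiv (Equiv.mulRight c) _ _ ?_
      intro g
      change (if τ₀.comp ((g : E →+* E).comp (j i)) ∈ Φ i then 1 else g.symm x) =
        c (if τ₀.comp ((((g * c : E ≃ₐ[ℚ] E)) : E →+* E).comp (j i)) ∈ Φ i then
          (g * c : E ≃ₐ[ℚ] E).symm x else 1)
      by_cases h5 : τ₀.comp ((g : E →+* E).comp (j i)) ∈ Φ i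
      · rw [if_pos h5, if_neg (by rw [h2 g]; exact not_not.2 h5), map_one]
      · rw [if_neg h5, if_pos ((h2 g).2 h5)]
        have h6 : (g * c : E ≃ₐ[ℚ] E).symm x = c.symm (g.symm x) := rfl
        rw [h6, AlgEquiv.apply_symm_apply]
    rw [h4, ← Finset.prod_mul_distrib]
    refine Finset.prod_congr rfl fun g _ => ?_
    split_ifs
    · rw [mul_one]
    · rw [one_mul]
  have h4 : ∏ g : E ≃ₐ[ℚ] E, g.symm x = algebraMap ℚ E (Algebra.norm ℚ x) := by
    rw [Algebra.norm_eq_prod_automorphisms ℚ x]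
    exact Fintype.prod_equiv (Equiv.inv (E ≃ₐ[ℚ] E)) _ _ fun g => rfl
  have h5 : z i * NumberField.IsCMField.complexConj (K i) (z i) =
      ((Algebra.norm ℚ x : ℚ) : K i) := by
    apply (j i).injective
    rw [h3, h4, map_ratCast, eq_ratCast]
  have h6 : cj τ (z i) = τ (NumberField.IsCMField.complexConj (K i) (z i)) :=
    (NumberField.IsCMField.complexEmbedding_complexConj (K i) τ (z i)).symm
  rw [h6, ← map_mul, h5, map_ratCast]

omit [IsGalois ℚ E] [NumberField E] in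
/-- classes in `HQ` are alternating -/
theorem inj_of_ne {c : ℕ} {v : (Two c → Idx K) → ℂ} (hv : v ∈ HQ K c) {t : Two c → Idx K}
    (ht : v t ≠ 0) : Function.Injective t := by
  intro a b hab
  by_contra h
  apply ht
  refine Submodule.span_induction (p := fun (v : (Two c → Idx K) → ℂ) _ => v t = 0) ?_ ?_ ?_ ?_ hv
  · rintro _ ⟨x, rfl⟩
    unfold torusClass
    refine Matrix.det_zero_of_row_eq h ?_
    funext d
    exact congrArg (fun y : Idx K => y.2 (x d y.1)) hab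
  · rfl
  · intro f g _ _ hf hg
    rw [Pi.add_apply, hf, hg, add_zero]
  · intro r f _ hf
    rw [Pi.smul_apply, hf, smul_zero]

theorem ball_mem {c : ℕ} {Φ : ∀ i, Set (K i →+* ℂ)} {v : (Two c → Idx K) → ℂ}
    (hv : IsBallQ Φ v) : v ∈ HQ K c ∧ IsHodge Φ v := by
  constructor
  · refine Submodule.span_induction (p := fun v _ => v ∈ HQ K c) ?_ ?_ ?_ ?_ hv
    · rintro _ ⟨h, -⟩
      exact h
    · exact Submodule.zero_mem _
    · intro f g _ _ hf hg
      exact Submodule.add_mem _ hf hg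
    · intro r f _ hf
      exact Submodule.smul_mem _ r hf
  · refine Submodule.span_induction (p := fun v _ => IsHodge Φ v) ?_ ?_ ?_ ?_ hv
    · rintro _ ⟨-, v', h, rfl⟩ t ht
      rw [Pi.smul_apply, isHodge_of_mem (Submodule.subset_span h) t ht, smul_zero]
    · intro t _
      rfl
    · intro f g _ _ hf hg t ht
      rw [Pi.add_apply, hf t ht, hg t ht, add_zero]
    · intro r f _ hf t ht
      rw [Pi.smul_apply, hf t ht, smul_zero]

/-- A combination of ball classes is an eigenvector of the reflex norms. -/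
theorem ball_val [∀ i, NumberField (K i)] {Φ : ∀ i, Set (K i →+* ℂ)} {j : ∀ i, K i →+* E}
    {τ₀ : E →+* ℂ} {c : ℕ} {v : (Two c → Idx K) → ℂ}
    (hv : (c = 0 ∧ ∃ q : ℚ, ∀ t, v t = q) ∨ (0 < c ∧ IsBallQ Φ v)) {x : E} {z : ∀ i, K i}
    (hz : IsReflexNorm Φ j τ₀ x z) {s : Two c → Idx K} (hs : v s ≠ 0) :
    ∏ a, (s a).2 (z (s a).1) = ((Algebra.norm ℚ x : ℚ) : ℂ) ^ c := by
  rcases hv with ⟨rfl, -⟩ | ⟨-, hv⟩
  · have : IsEmpty (Two 0) := inferInstanceAs (IsEmpty (Fin 0 ⊕ Fin 0))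
    simp
  · obtain ⟨h1, h2⟩ := ball_mem hv
    have h3 := congrArg (fun w : HQ K c => (w : (Two c → Idx K) → ℂ) s)
      (TPR.Tt.endo_of_hodge Φ j τ₀ ⟨v, h1⟩ h2 x z hz)
    change (∏ a, (s a).2 (z (s a).1)) * v s = ((Algebra.norm ℚ x) ^ c : ℚ) • v s at h3
    rw [Rat.smul_def, Rat.cast_pow] at h3
    exact mul_right_cancel₀ hs h3

theorem ball_inj {Φ : ∀ i, Set (K i →+* ℂ)} {c : ℕ} {v : (Two c → Idx K) → ℂ}
    (hv : (c = 0 ∧ ∃ q : ℚ, ∀ t, v t = q) ∨ (0 < c ∧ IsBallQ Φ v)) {s : Two c → Idx K}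
    (hs : v s ≠ 0) : Function.Injective s := by
  rcases hv with ⟨rfl, -⟩ | ⟨-, hv⟩
  · have : IsEmpty (Two 0) := inferInstanceAs (IsEmpty (Fin 0 ⊕ Fin 0))
    exact Function.injective_of_subsingleton s
  · exact inj_of_ne (ball_mem hv).1 hs

end refl

section det

variable {κ : Type} {K G : κ → Type} [∀ k, Field (K k)] [∀ k, NumberField (K k)]
  [∀ k, Fintype (G k)]

/-- the support of the transfer of a class -/
theorem detT_ne {r c : ℕ} {blk : Fin r → κ} {f : Two c ≃ Σ j, G (blk j)}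
    {v : (Two c → LC K G blk) → ℂ} {t : (Σ j, G (blk j)) → LU K G} (h : detT blk f v t ≠ 0) :
    ∃ (τ : ∀ j, K (blk j) →+* ℂ) (s : ∀ i : Σ j, G (blk j), G (blk i.1)),
      (t = fun i => ⟨⟨blk i.1, s i⟩, τ i.1⟩) ∧
        v (fun a => ⟨⟨(f a).1, s (f a)⟩, τ (f a).1⟩) ≠ 0 := by
  classical
  unfold detT at h
  obtain ⟨τ, -, h1⟩ := Finset.exists_ne_zero_of_sum_ne_zero h
  obtain ⟨s, -, h2⟩ := Finset.exists_ne_zero_of_sum_ne_zero h1
  refine ⟨τ, s, ?_⟩
  by_cases h3 : t = fun i => ⟨⟨blk i.1, s i⟩, τ i.1⟩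
  · rw [if_pos h3] at h2
    exact ⟨h3, h2⟩
  · rw [if_neg h3] at h2
    exact absurd rfl h2

/-- the factor of a letter -/
def fac (z : ∀ i : Σ k, G k, K i.1) (e : κ → ℕ) (y : LU K G) : ℂ :=
  y.2 ((∏ g, z ⟨y.1.1, g⟩) ^ e y.1.1)

variable {E : Type} [Field E] [NumberField E] [IsGalois ℚ E]

/-- The torus acts on the transfer of a combination of ball classes by a power of the norm. -/
theorem detT_val {Φ : ∀ i : Σ k, G k, Set (K i.1 →+* ℂ)} {j : ∀ k, K k →+* E} {τ₀ : E →+* ℂ}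
    {x : E} {z : ∀ i : Σ k, G k, K i.1} (hz : IsReflexNorm Φ (fun i => j i.1) τ₀ x z)
    {N : ℕ} {e : κ → ℕ} (hN : ∀ k, e k * Fintype.card (G k) = N) {r c : ℕ} {blk : Fin r → κ}
    {f : Two c ≃ Σ j, G (blk j)} {v : (Two c → LC K G blk) → ℂ}
    (hv : (c = 0 ∧ ∃ q : ℚ, ∀ t, v t = q) ∨
      (0 < c ∧ IsBallQ (fun i : Σ j, G (blk j) => Φ ⟨blk i.1, i.2⟩) v))
    {t : (Σ j, G (blk j)) → LU K G} (ht : detT blk f v t ≠ 0) :
    ∏ i, fac z e (t i) = ((Algebra.norm ℚ x : ℚ) : ℂ) ^ (c * N) := by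
  obtain ⟨τ, s, rfl, hvs⟩ := detT_ne ht
  let W : (Σ j, G (blk j)) → LC K G blk := fun i => ⟨⟨i.1, s i⟩, τ i.1⟩
  have hinj : Function.Injective W := by
    have h1 := ball_inj hv hvs
    have h2 : (fun a => (⟨⟨(f a).1, s (f a)⟩, τ (f a).1⟩ : LC K G blk)) = W ∘ f := rfl
    rw [h2] at h1
    exact (f.injective_comp W).1 h1
  let S : ∀ j', G (blk j') → G (blk j') := fun j' g => s ⟨j', g⟩
  have hbij : ∀ j', Function.Bijective (S j') := by
    intro j'
    refine Finite.injective_iff_bijective.1 ?_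
    intro g g' hg
    have h1 : W ⟨j', g⟩ = W ⟨j', g'⟩ := by
      change (⟨⟨j', s ⟨j', g⟩⟩, τ j'⟩ : LC K G blk) = ⟨⟨j', s ⟨j', g'⟩⟩, τ j'⟩
      have h2 : s ⟨j', g⟩ = s ⟨j', g'⟩ := hg
      exact congrArg (fun q : G (blk j') => (⟨⟨j', q⟩, τ j'⟩ : LC K G blk)) h2
    have h3 := hinj h1
    exact eq_of_heq (Sigma.mk.inj h3).2
  have hb := ball_val (K := fun i : Σ j, G (blk j) => K (blk i.1))
    (j := fun i => j (blk i.1)) (τ₀ := τ₀) hv
    (x := x) (z := fun i : Σ j, G (blk j) => z ⟨blk i.1, i.2⟩)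
    (fun i => hz ⟨blk i.1, i.2⟩) hvs
  have hb1 : ∏ i : Σ j, G (blk j), τ i.1 (z ⟨blk i.1, s i⟩) =
      ((Algebra.norm ℚ x : ℚ) : ℂ) ^ c := by
    rw [← hb]
    exact (Equiv.prod_comp f fun i : Σ j, G (blk j) => τ i.1 (z ⟨blk i.1, s i⟩)).symm
  rw [Fintype.prod_sigma] at hb1
  have hb2 : ∏ j', ∏ g : G (blk j'), τ j' (z ⟨blk j', g⟩) = ((Algebra.norm ℚ x : ℚ) : ℂ) ^ c := by
    rw [← hb1]
    refine Finset.prod_congr rfl fun j' _ => ?_
    exact ((hbij j').prod_comp fun g => τ j' (z ⟨blk j', g⟩)).symm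
  rw [Fintype.prod_sigma, pow_mul, ← hb2, ← Finset.prod_pow]
  refine Finset.prod_congr rfl fun j' _ => ?_
  have h6 : ∏ _g : G (blk j'), τ j' ((∏ g, z ⟨blk j', g⟩) ^ e (blk j')) =
      τ j' ((∏ g, z ⟨blk j', g⟩) ^ e (blk j')) ^ Fintype.card (G (blk j')) := by
    rw [Finset.prod_const, Finset.card_univ]
  refine h6.trans ?_
  rw [map_pow, map_prod, ← pow_mul, hN]

end det

section pairs

variable {κ : Type} {K G : κ → Type} [∀ k, Field (K k)] [∀ k, NumberField (K k)]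
  [∀ k, NumberField.IsCMField (K k)] [∀ k, Fintype (G k)]
  {E : Type} [Field E] [NumberField E] [IsGalois ℚ E]

/-- The torus acts on a pairing by a power of the norm. -/
theorem pair_val {Φ : ∀ i : Σ k, G k, Set (K i.1 →+* ℂ)} (hΦ : ∀ i, IsCMType (Φ i))
    {j : ∀ k, K k →+* E} {τ₀ : E →+* ℂ}
    {x : E} {z : ∀ i : Σ k, G k, K i.1} (hz : IsReflexNorm Φ (fun i => j i.1) τ₀ x z)
    {N : ℕ} {e : κ → ℕ} (hN : ∀ k, e k * Fintype.card (G k) = N) {h : ∀ k, G k → K k}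
    {l : ∀ k, K k} {y y' : LU K G} (hy : pair h l y y' ≠ 0) :
    fac z e y * fac z e y' = ((Algebra.norm ℚ x : ℚ) : ℂ) ^ N := by
  have h1 : y' = ⟨y.1, cj y.2⟩ := by
    by_contra h2
    apply hy
    unfold pair
    rw [if_neg h2]
  subst h1
  unfold fac
  dsimp only
  have h2 : ∀ g : G y.1.1, y.2 (z ⟨y.1.1, g⟩) * cj y.2 (z ⟨y.1.1, g⟩) =
      ((Algebra.norm ℚ x : ℚ) : ℂ) := fun g =>
    mul_conj (K := fun i : Σ k, G k => K i.1) hΦ hz ⟨y.1.1, g⟩ y.2
  rw [map_pow, map_pow, ← mul_pow, map_prod, map_prod, ← Finset.prod_mul_distrib,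
    Finset.prod_congr rfl fun g _ => h2 g, Finset.prod_const, Finset.card_univ, ← pow_mul,
    mul_comm, hN]

end pairs

end UMx

/-- **Row UM.** -/
theorem um : UM := by
  intro κ _ K G _ _ _ _ _ Φ hΦ h N e _ hN E _ _ _ j τ₀ n u hu x z hz
  obtain ⟨d, r, c, blk, f, e', l, v, hv, hu⟩ := hu
  funext t
  rw [Pi.smul_apply, Rat.smul_def]
  have hs : scl (fun k => (∏ g, z ⟨k, g⟩) ^ e k) u t = (∏ a, UMx.fac z e (t a)) * u t := rfl
  rw [hs]
  by_cases h0 : u t = 0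
  · rw [h0, mul_zero, mul_zero]
  congr 1
  rw [hu t] at h0
  have hp := left_ne_zero_of_mul h0
  have hd := right_ne_zero_of_mul h0
  rw [← Equiv.prod_comp e', Fintype.prod_sum_type, UMx.detT_val hz hN hv hd,
    Fintype.prod_prod_type]
  have h1 : ∀ i : Fin d, ∏ k : Fin 2, UMx.fac z e (t (e' (Sum.inl (i, k)))) =
      ((Algebra.norm ℚ x : ℚ) : ℂ) ^ N := by
    intro i
    rw [Fin.prod_univ_two]
    exact UMx.pair_val hΦ hz hN (Finset.prod_ne_zero_iff.1 hp i (Finset.mem_univ _))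
  rw [Finset.prod_congr rfl fun i _ => h1 i, Finset.prod_const, Finset.card_univ,
    Fintype.card_fin, ← pow_mul, ← pow_add, Rat.cast_pow]
  congr 1
  have h2 := Fintype.card_congr e'
  have h3 := Fintype.card_congr f
  have h4 : Fintype.card (Two c) = c + c := by
    change Fintype.card (Fin c ⊕ Fin c) = c + c
    simp
  rw [Fintype.card_sum, Fintype.card_prod, Fintype.card_fin, Fintype.card_fin, Fintype.card_fin,
    ← h3, h4] at h2
  have h5 : n = d + c := by omega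
  rw [h5]
  ring

end

end Pool.Agent.UNIT
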