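import Pool.Agent.Lib.UNIT.Basic

/-!
# UNIT: statements of the rows

Row `X` is `theorem x : X` (small first letter) in the file `Pool/Agent/Lib/UNIT/X.lean`; a row which
uses other rows takes them as hypotheses.
-/

set_option autoImplicit false

open scoped TensorProduct ComplexConjugate
open Complex Pool.Agent.HCM Pool.Agent.RAT

namespace Pool.Agent.UNIT

noncomputable section

section defs

variable {κ : Type} {K G : κ → Type} [∀ k, Field (K k)] {T : Type} [Fintype T] [DecidableEq T]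

open Classical in
/-- The root vector `E_(g,g')` of `𝔰𝔩` on the letters `(k, ., τ)`, and minus its adjoint on the
letters `(k, ., cj τ)`. -/
def root (h : ∀ k, G k → K k) (k : κ) (g g' : G k) (τ : K k →+* ℂ) (u : (T → LU K G) → ℂ)
    (t : T → LU K G) : ℂ :=
  (∑ a, if t a = ⟨⟨k, g⟩, τ⟩ then u (Function.update t a ⟨⟨k, g'⟩, τ⟩) else 0) -
    τ (h k g) / τ (h k g') *
      ∑ a, if t a = ⟨⟨k, g'⟩, cj τ⟩ then u (Function.update t a ⟨⟨k, g⟩, cj τ⟩) else 0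

/-- All root vectors kill `u`. -/
def Killed (h : ∀ k, G k → K k) (u : (T → LU K G) → ℂ) : Prop :=
  ∀ (k : κ) (g g' : G k) (τ : K k →+* ℂ), g ≠ g' → ∀ t, root h k g g' τ u t = 0

open Classical in
/-- The pairing of the letters `(k, ., τ)` and `(k, ., cj τ)`. -/
def pc [∀ k, Fintype (G k)] (h : ∀ k, G k → K k) (k : κ) (τ : K k →+* ℂ) (y y' : LU K G) : ℂ :=
  ∑ g : G k, if y = ⟨⟨k, g⟩, τ⟩ ∧ y' = ⟨⟨k, g⟩, cj τ⟩ then (τ (h k g))⁻¹ else 0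

open Classical in
/-- The determinant of the letters `(k, ., τ)`. -/
def dc [∀ k, Fintype (G k)] (k : κ) (τ : K k →+* ℂ) (w : G k → LU K G) : ℂ :=
  ∑ π : Equiv.Perm (G k), ((Equiv.Perm.sign π : ℤ) : ℂ) *
    if w = fun g => ⟨⟨k, π g⟩, τ⟩ then 1 else 0

/-- Products of pairings and determinants: places `(i, 0), (i, 1)`, `i : Fin d`, for the pairings,
`(j, g)`, `j : Fin r`, `g : G (blk j)`, for the determinants. -/
def bt [∀ k, Fintype (G k)] (h : ∀ k, G k → K k) {d r : ℕ} (pk : Fin d → κ)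
    (pτ : ∀ i, K (pk i) →+* ℂ) (blk : Fin r → κ) (τ : ∀ j, K (blk j) →+* ℂ)
    (e : (Fin d × Fin 2) ⊕ (Σ j, G (blk j)) ≃ T) (t : T → LU K G) : ℂ :=
  (∏ i, pc h (pk i) (pτ i) (t (e (Sum.inl (i, 0)))) (t (e (Sum.inl (i, 1))))) *
    ∏ j, dc (blk j) (τ j) fun g => t (e (Sum.inr ⟨j, g⟩))

/-- `u` is a product of pairings and determinants. -/
def IsBT [∀ k, Fintype (G k)] (h : ∀ k, G k → K k) (u : (T → LU K G) → ℂ) : Prop :=
  ∃ (d r : ℕ) (pk : Fin d → κ) (pτ : ∀ i, K (pk i) →+* ℂ) (blk : Fin r → κ)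
    (τ : ∀ j, K (blk j) →+* ℂ) (e : (Fin d × Fin 2) ⊕ (Σ j, G (blk j)) ≃ T),
    u = bt h pk pτ blk τ e

variable {E : Type} [Field E] [NumberField E]

/-- The weight condition for a word: for every conjugate of `t` the sum over the letters `(k, g, τ)`
of `e k` times the number of the `g'` with `τ ∈ Φ (k, g')` is `m`. -/
def Bal (Φ : ∀ i : Σ k, G k, Set (K i.1 →+* ℂ)) (e : κ → ℕ) (τ₀ : E →+* ℂ) (m : ℕ)
    (t : T → LU K G) : Prop :=
  ∀ s : ∀ a, K (t a).1.1 →+* E, (∀ a, (t a).2 = τ₀.comp (s a)) → ∀ g : E ≃ₐ[ℚ] E,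
    ∑ a, e (t a).1.1 *
      {g' : G (t a).1.1 | τ₀.comp ((g : E →+* E).comp (s a)) ∈ Φ ⟨(t a).1.1, g'⟩}.ncard = m

/-- The same for the determinants. -/
def BalD (Φ : ∀ i : Σ k, G k, Set (K i.1 →+* ℂ)) (τ₀ : E →+* ℂ) (m : ℕ) {r : ℕ}
    (blk : Fin r → κ) (τ : ∀ j, K (blk j) →+* ℂ) : Prop :=
  ∀ s : ∀ j, K (blk j) →+* E, (∀ j, τ j = τ₀.comp (s j)) → ∀ g : E ≃ₐ[ℚ] E,
    ∑ j, {g' : G (blk j) | τ₀.comp ((g : E →+* E).comp (s j)) ∈ Φ ⟨blk j, g'⟩}.ncard = m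

/-- The condition on `v` in `IsProdU`. -/
def VOk [∀ k, NumberField (K k)] (Φ : ∀ i : Σ k, G k, Set (K i.1 →+* ℂ)) {r c : ℕ}
    (blk : Fin r → κ) (v : (Two c → LC K G blk) → ℂ) : Prop :=
  (c = 0 ∧ ∃ q : ℚ, ∀ t, v t = q) ∨
    (0 < c ∧ IsBallQ (fun i : Σ j, G (blk j) => Φ ⟨blk i.1, i.2⟩) v)

end defs

/-- UB: all blocks. -/
def UB : Prop :=
  ∀ (κ : Type) [Fintype κ] (K G : κ → Type) [∀ k, Field (K k)] [∀ k, NumberField (K k)]
    [∀ k, NumberField.IsCMField (K k)] [∀ k, Fintype (G k)] [∀ k, Nonempty (G k)]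
    (h : ∀ k, G k → K k), (∀ k g, h k g ≠ 0 ∧ ∀ τ : K k →+* ℂ, (τ (h k g)).im = 0) →
    ∀ (T : Type) [Fintype T] [DecidableEq T] (u : (T → LU K G) → ℂ), Killed h u →
    u ∈ Submodule.span ℂ {w : (T → LU K G) → ℂ | IsBT h w}

/-- UC: the rational Lie algebras `𝔰𝔲` and the root vectors. -/
def UC : Prop :=
  ∀ (κ : Type) [Fintype κ] [DecidableEq κ] (K G : κ → Type) [∀ k, Field (K k)]
    [∀ k, NumberField (K k)] [∀ k, NumberField.IsCMField (K k)] [∀ k, Fintype (G k)]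
    (h : ∀ k, G k → K k), (∀ k g, h k g ≠ 0 ∧ ∀ τ : K k →+* ℂ, (τ (h k g)).im = 0) →
    ∀ (T : Type) [Fintype T] [DecidableEq T] (u : (T → LU K G) → ℂ),
    (∀ X : ∀ k, Matrix (G k) (G k) (K k), IsSU h X → der X u = 0) → Killed h u

/-- UD: the torus and the weights of the words. -/
def UD : Prop :=
  ∀ (κ : Type) [Fintype κ] (K G : κ → Type) [∀ k, Field (K k)] [∀ k, NumberField (K k)]
    [∀ k, Fintype (G k)] (Φ : ∀ i : Σ k, G k, Set (K i.1 →+* ℂ)) (e : κ → ℕ)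
    (E : Type) [Field E] [NumberField E] [IsGalois ℚ E] (j : ∀ k, K k →+* E) (τ₀ : E →+* ℂ)
    (M m : ℕ), 0 < M → ∀ (T : Type) [Fintype T] (u : (T → LU K G) → ℂ),
    (∀ y : E, IsIntegral ℤ y → ∀ z : ∀ i : Σ k, G k, K i.1,
      IsReflexNorm Φ (fun i => j i.1) τ₀ (1 + (M : E) * y) z →
      scl (fun k => (∏ g, z ⟨k, g⟩) ^ e k) u = (Algebra.norm ℚ (1 + (M : E) * y)) ^ m • u) →
    ∀ t, u t ≠ 0 → Bal Φ e τ₀ m t

/-- UF: balanced products of determinants are transfers of Hodge classes of CM abelian varieties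
(`v t = det [t a = t0 b]`, `t0 b = (f b, τ (f b).1)`, is in the `ℂ`-span of `IsBallQ`, for `c > 0`). -/
def UF : Prop :=
  ∀ (κ : Type) [Fintype κ] (K G : κ → Type) [∀ k, Field (K k)] [∀ k, NumberField (K k)]
    [∀ k, NumberField.IsCMField (K k)] [∀ k, Fintype (G k)] [∀ k, Nonempty (G k)]
    (Φ : ∀ i : Σ k, G k, Set (K i.1 →+* ℂ)), (∀ i, IsCMType (Φ i)) →
    ∀ (E : Type) [Field E] [NumberField E] [IsGalois ℚ E] (j : ∀ k, K k →+* E) (τ₀ : E →+* ℂ)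
    (r c : ℕ) (blk : Fin r → κ) (f : Two c ≃ Σ j, G (blk j)) (τ : ∀ j, K (blk j) →+* ℂ),
    BalD Φ τ₀ c blk τ →
    (fun t : (Σ j, G (blk j)) → LU K G => ∏ j, dc (blk j) (τ j) fun g => t ⟨j, g⟩) ∈
      Submodule.span ℂ {w | ∃ v : (Two c → LC K G blk) → ℂ, VOk Φ blk v ∧ w = detT blk f v}

/-- UG: the pairings are combinations of rational ones. -/
def UG : Prop :=
  ∀ (κ : Type) [Fintype κ] [DecidableEq κ] (K G : κ → Type) [∀ k, Field (K k)]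
    [∀ k, NumberField (K k)] [∀ k, NumberField.IsCMField (K k)] [∀ k, Fintype (G k)]
    (h : ∀ k, G k → K k) (k : κ) (τ : K k →+* ℂ),
    (pc h k τ : LU K G → LU K G → ℂ) ∈ Submodule.span ℂ (Set.range fun l => pair h l)

/-- UH: a balanced product of pairings and determinants is a combination of the products in
`IsProdU`; uses UF and UG. -/
def UH : Prop :=
  ∀ (κ : Type) [Fintype κ] (K G : κ → Type) [∀ k, Field (K k)] [∀ k, NumberField (K k)]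
    [∀ k, NumberField.IsCMField (K k)] [∀ k, Fintype (G k)] [∀ k, Nonempty (G k)]
    (Φ : ∀ i : Σ k, G k, Set (K i.1 →+* ℂ)), (∀ i, IsCMType (Φ i)) →
    ∀ (h : ∀ k, G k → K k) (E : Type) [Field E] [NumberField E] [IsGalois ℚ E]
    (j : ∀ k, K k →+* E) (τ₀ : E →+* ℂ) (n d r c : ℕ) (pk : Fin d → κ)
    (pτ : ∀ i, K (pk i) →+* ℂ) (blk : Fin r → κ) (τ : ∀ j, K (blk j) →+* ℂ)
    (e : (Fin d × Fin 2) ⊕ (Σ j, G (blk j)) ≃ Fin (2 * n)), d + c = n →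
    BalD Φ τ₀ c blk τ →
    bt h pk pτ blk τ e ∈ Submodule.span ℂ {w : (Fin (2 * n) → LU K G) → ℂ | IsProdU Φ h n w}

/-- UI: weights of a product of pairings and determinants: if it does not vanish at a word `t`, then
`Bal` for `t` and `n * N` is `BalD` for `n - d`. -/
def UI : Prop :=
  ∀ (κ : Type) [Fintype κ] (K G : κ → Type) [∀ k, Field (K k)] [∀ k, NumberField (K k)]
    [∀ k, NumberField.IsCMField (K k)] [∀ k, Fintype (G k)] [∀ k, Nonempty (G k)]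
    (Φ : ∀ i : Σ k, G k, Set (K i.1 →+* ℂ)), (∀ i, IsCMType (Φ i)) →
    ∀ (h : ∀ k, G k → K k) (N : ℕ) (e : κ → ℕ), 0 < N → (∀ k, e k * Fintype.card (G k) = N) →
    ∀ (E : Type) [Field E] [NumberField E] [IsGalois ℚ E] (j : ∀ k, K k →+* E) (τ₀ : E →+* ℂ)
    (n d r : ℕ) (pk : Fin d → κ) (pτ : ∀ i, K (pk i) →+* ℂ) (blk : Fin r → κ)
    (τ : ∀ j, K (blk j) →+* ℂ) (f : (Fin d × Fin 2) ⊕ (Σ j, G (blk j)) ≃ Fin (2 * n))
    (t : Fin (2 * n) → LU K G), bt h pk pτ blk τ f t ≠ 0 →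
    (Bal Φ e τ₀ (n * N) t ↔ BalD Φ τ₀ (n - d) blk τ)

/-- UJ: products are rational. -/
def UJ : Prop :=
  ∀ (κ : Type) [Fintype κ] (K G : κ → Type) [∀ k, Field (K k)] [∀ k, NumberField (K k)]
    [∀ k, NumberField.IsCMField (K k)] [∀ k, Fintype (G k)] [∀ k, Nonempty (G k)]
    (Φ : ∀ i : Σ k, G k, Set (K i.1 →+* ℂ)) (h : ∀ k, G k → K k),
    (∀ k g, h k g ≠ 0 ∧ ∀ τ : K k →+* ℂ, (τ (h k g)).im = 0) →
    ∀ (n : ℕ) (u : (Fin (2 * n) → LU K G) → ℂ), IsProdU Φ h n u → u ∈ TQ K G (Fin (2 * n))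

/-- UK: from complex to rational combinations. -/
def UK : Prop :=
  ∀ (κ : Type) [Fintype κ] (K G : κ → Type) [∀ k, Field (K k)] [∀ k, NumberField (K k)]
    [∀ k, Fintype (G k)] (T : Type) [Fintype T] (S : Set ((T → LU K G) → ℂ)),
    (∀ w ∈ S, w ∈ TQ K G T) → ∀ u ∈ TQ K G T, u ∈ Submodule.span ℂ S → u ∈ Submodule.span ℚ S

/-- UL: the roots `𝔰𝔲` kill the products. -/
def UL : Prop :=
  ∀ (κ : Type) [Fintype κ] (K G : κ → Type) [∀ k, Field (K k)] [∀ k, NumberField (K k)]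
    [∀ k, NumberField.IsCMField (K k)] [∀ k, Fintype (G k)] [∀ k, Nonempty (G k)]
    (Φ : ∀ i : Σ k, G k, Set (K i.1 →+* ℂ)) (h : ∀ k, G k → K k),
    (∀ k g, h k g ≠ 0 ∧ ∀ τ : K k →+* ℂ, (τ (h k g)).im = 0) →
    ∀ (n : ℕ) (u : (Fin (2 * n) → LU K G) → ℂ), IsProdU Φ h n u →
    ∀ X : ∀ k, Matrix (G k) (G k) (K k), IsSU h X → der X u = 0

/-- UM: the torus acts on the products by the power of the norm. -/
def UM : Prop :=
  ∀ (κ : Type) [Fintype κ] (K G : κ → Type) [∀ k, Field (K k)] [∀ k, NumberField (K k)]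
    [∀ k, NumberField.IsCMField (K k)] [∀ k, Fintype (G k)] [∀ k, Nonempty (G k)]
    (Φ : ∀ i : Σ k, G k, Set (K i.1 →+* ℂ)), (∀ i, IsCMType (Φ i)) →
    ∀ (h : ∀ k, G k → K k) (N : ℕ) (e : κ → ℕ), 0 < N → (∀ k, e k * Fintype.card (G k) = N) →
    ∀ (E : Type) [Field E] [NumberField E] [IsGalois ℚ E] (j : ∀ k, K k →+* E) (τ₀ : E →+* ℂ)
    (n : ℕ) (u : (Fin (2 * n) → LU K G) → ℂ), IsProdU Φ h n u →
    ∀ (x : E) (z : ∀ i : Σ k, G k, K i.1), IsReflexNorm Φ (fun i => j i.1) τ₀ x z →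
      scl (fun k => (∏ g, z ⟨k, g⟩) ^ e k) u = (Algebra.norm ℚ x) ^ (n * N) • u

/-- The rational form of the theorem, without `ℚ_p`. -/
def UN : Prop :=
  ∀ (n : ℕ) (κ : Type) [Fintype κ] (K G : κ → Type) [∀ k, Field (K k)]
    [∀ k, NumberField (K k)] [∀ k, NumberField.IsCMField (K k)] [∀ k, Fintype (G k)]
    [∀ k, Nonempty (G k)] (Φ : ∀ i : Σ k, G k, Set (K i.1 →+* ℂ)), (∀ i, IsCMType (Φ i)) →
    ∀ h : ∀ k, G k → K k, (∀ k g, h k g ≠ 0 ∧ ∀ τ : K k →+* ℂ, (τ (h k g)).im = 0) →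
    ∀ (N : ℕ) (e : κ → ℕ), 0 < N → (∀ k, e k * Fintype.card (G k) = N) →
    ∀ (E : Type) [Field E] [NumberField E] [IsGalois ℚ E] (j : ∀ k, K k →+* E) (τ₀ : E →+* ℂ)
      (M : ℕ), 0 < M → ∀ u ∈ TQ K G (Fin (2 * n)),
      (∀ X : ∀ k, Matrix (G k) (G k) (K k), IsSU h X → der X u = 0) →
      (∀ y : E, IsIntegral ℤ y → ∀ z : ∀ i : Σ k, G k, K i.1,
        IsReflexNorm Φ (fun i => j i.1) τ₀ (1 + (M : E) * y) z →
        scl (fun k => (∏ g, z ⟨k, g⟩) ^ e k) u =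
          (Algebra.norm ℚ (1 + (M : E) * y)) ^ (n * N) • u) →
      u ∈ Submodule.span ℚ {w : (Fin (2 * n) → LU K G) → ℂ | IsProdU Φ h n w}

/-- UO: assembly of the rational form. -/
def UO : Prop := UB → UC → UD → UH → UI → UJ → UK → UN

/-- UP: from the rational form to `ℚ_p`. -/
def UP : Prop := UN → UL → UM → TateU

end

end Pool.Agent.UNIT
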