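import Pool.Agent.Lib.UNIT.FftE

/-!
# The first fundamental theorem for `𝔰𝔩(V)` with values in a module
-/

set_option autoImplicit false
set_option linter.unusedSectionVars false

open Equiv Function

namespace Pool.Agent.SLF

section

variable {k : Type*} [Field k] {A B I : Type*} [Fintype A] [DecidableEq A] [Fintype B]
  [DecidableEq B] [Fintype I] [DecidableEq I] {W : Type*} [AddCommGroup W] [Module k W]

/-- A function with values in `W` all whose coordinates are combinations of the `P π` is a
combination of the `P π` with coefficients in `W`. -/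
theorem exists_vec {X Y : Type*} [Fintype X] [Fintype Y] (P : Y → X → k) (T : X → W)
    (h : ∀ φ : W →ₗ[k] k, ∃ c : Y → k, ∀ x, φ (T x) = ∑ π, c π * P π x) :
    ∃ w : Y → W, (∀ π, w π ∈ Submodule.span k (Set.range T)) ∧
      ∀ x, T x = ∑ π, P π x • w π := by
  classical
  let L : (Y → k) →ₗ[k] (X → k) :=
    { toFun := fun c x => ∑ π, c π * P π x
      map_add' := fun c d => by
        funext x
        rw [Pi.add_apply, ← Finset.sum_add_distrib]
        exact Finset.sum_congr rfl fun π _ => by rw [Pi.add_apply, add_mul]
      map_smul' := fun a c => by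
        funext x
        rw [Pi.smul_apply, smul_eq_mul, Finset.mul_sum]
        exact Finset.sum_congr rfl fun π _ => by
          rw [Pi.smul_apply, smul_eq_mul, RingHom.id_apply, mul_assoc] }
  obtain ⟨h1, hh1⟩ := L.rangeRestrict.exists_rightInverse_of_surjective L.range_rangeRestrict
  obtain ⟨g, hg⟩ := LinearMap.exists_extend h1
  have hLg : ∀ c, L (g (L c)) = L c := by
    intro c
    have h2 : g (L c) = h1 (L.rangeRestrict c) := by
      rw [← hg]
      rfl
    rw [h2]
    have h3 := congrArg (fun f => ((f (L.rangeRestrict c) : LinearMap.range L) : X → k)) hh1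
    exact h3
  refine ⟨fun π => ∑ y, g (Pi.single y 1) π • T y, fun π => ?_, fun x => ?_⟩
  · exact Submodule.sum_mem _ fun y _ => Submodule.smul_mem _ _ (Submodule.subset_span ⟨y, rfl⟩)
  · rw [← sub_eq_zero, ← Module.forall_dual_apply_eq_zero_iff k]
    intro φ
    rw [map_sub, sub_eq_zero]
    obtain ⟨c, hc⟩ := h φ
    have h2 : (fun y => φ (T y)) = L c := funext hc
    have h3 : ∀ π, φ (∑ y, g (Pi.single y 1) π • T y) = g (fun y => φ (T y)) π := by
      intro π
      rw [map_sum]
      have h5 : (fun y => φ (T y)) = ∑ y, φ (T y) • (Pi.single y 1 : X → k) := by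
        funext z
        rw [Finset.sum_apply]
        simp [Pi.single_apply]
      have h4 : g (fun y => φ (T y)) = ∑ y, φ (T y) • g (Pi.single y 1) := by
        conv_lhs => rw [h5, map_sum]
        exact Finset.sum_congr rfl fun y _ => map_smul _ _ _
      rw [h4, Finset.sum_apply]
      refine Finset.sum_congr rfl fun y _ => ?_
      rw [map_smul, Pi.smul_apply, smul_eq_mul, smul_eq_mul, mul_comm]
    rw [map_sum]
    simp only [map_smul, h3, smul_eq_mul]
    rw [h2]
    have h5 := congrFun (hLg c) x
    change ∑ π, g (L c) π * P π x = ∑ π, c π * P π x at h5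
    rw [hc, ← h5]
    exact Finset.sum_congr rfl fun π _ => mul_comm _ _

theorem act_single_apply (p q : I) (T : Matrix (A → I) (B → I) k) (i : A → I) (j : B → I) :
    act (Matrix.single p q (1 : k)) T i j =
      (∑ a, if i a = p then T (update i a q) j else 0) -
        ∑ b, if j b = q then T i (update j b p) else 0 := by
  rw [act_apply]
  congr 1
  · refine Finset.sum_congr rfl fun a _ => ?_
    rw [Finset.sum_eq_single q]
    · rw [Matrix.single_apply]
      by_cases h : i a = p
      · rw [if_pos ⟨h.symm, rfl⟩, if_pos h, one_mul]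
      · rw [if_neg (fun h' => h h'.1.symm), if_neg h, zero_mul]
    · intro q' _ hq
      rw [Matrix.single_apply, if_neg (fun h' => hq h'.2.symm), zero_mul]
    · intro h'
      exact absurd (Finset.mem_univ _) h'
  · refine Finset.sum_congr rfl fun b _ => ?_
    rw [Finset.sum_eq_single p]
    · rw [Matrix.single_apply]
      by_cases h : j b = q
      · rw [if_pos ⟨rfl, h.symm⟩, if_pos h, one_mul]
      · rw [if_neg (fun h' => h h'.2.symm), if_neg h, zero_mul]
    · intro p' _ hp
      rw [Matrix.single_apply, if_neg (fun h' => hp h'.1.symm), zero_mul]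
    · intro h'
      exact absurd (Finset.mem_univ _) h'

/-- `T` is killed by the elementary matrices `E_pq`, `p ≠ q`: words `i` in `V`, words `j` in the
dual. -/
def Killed (T : (A → I) → (B → I) → W) : Prop :=
  ∀ p q, p ≠ q → ∀ i j, (∑ a, if i a = p then T (update i a q) j else 0) =
    ∑ b, if j b = q then T i (update j b p) else 0

theorem Killed.act_eq_zero {T : (A → I) → (B → I) → k} (hT : Killed T) (p q : I) (hpq : p ≠ q) :
    act (Matrix.single p q (1 : k)) (Matrix.of T) = 0 := by
  ext i j
  rw [act_single_apply, Matrix.zero_apply, sub_eq_zero]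
  exact hT p q hpq i j

theorem Killed.comp {T : (A → I) → (B → I) → W} (hT : Killed T) (φ : W →ₗ[k] k) :
    Killed fun i j => φ (T i j) := by
  intro p q hpq i j
  have h := congrArg φ (hT p q hpq i j)
  rw [map_sum, map_sum] at h
  simp only [apply_ite φ, map_zero] at h
  exact h

variable (k) in
/-- The product of the pairings of `j b` with `i (π b)` and of `m` determinants in `V`. -/
def monV {m : ℕ} (π : B ⊕ (Fin m × I) ≃ A) (i : A → I) (j : B → I) : k :=
  if (fun b => i (π (Sum.inl b))) = j then epsm k fun c => i (π (Sum.inr c)) else 0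

/-- **The first fundamental theorem for `𝔰𝔩(V)`**: mixed tensors with values in `W`. -/
theorem fft [CharZero k] [Nonempty I] {T : (A → I) → (B → I) → W} (hT : Killed T) :
    (∀ i j, T i j = 0) ∨
    (∃ m : ℕ, Fintype.card A = Fintype.card B + m * Fintype.card I ∧
      ∃ w : (B ⊕ (Fin m × I) ≃ A) → W,
        (∀ π, w π ∈ Submodule.span k (Set.range fun x : (A → I) × (B → I) => T x.1 x.2)) ∧
        ∀ i j, T i j = ∑ π, monV k π i j • w π) ∨
    ∃ m : ℕ, Fintype.card B = Fintype.card A + m * Fintype.card I ∧
      ∃ w : (A ⊕ (Fin m × I) ≃ B) → W,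
        (∀ π, w π ∈ Submodule.span k (Set.range fun x : (A → I) × (B → I) => T x.1 x.2)) ∧
        ∀ i j, T i j = ∑ π, monV k π j i • w π := by
  by_cases h0 : (Fintype.card I : ℤ) ∣ (Fintype.card A : ℤ) - Fintype.card B
  · obtain ⟨d, hd⟩ := h0
    rcases le_total 0 d with h | h
    · obtain ⟨m, rfl⟩ := Int.eq_ofNat_of_zero_le h
      have hm : Fintype.card A = Fintype.card B + m * Fintype.card I := by
        zify
        linarith
      right
      left
      refine ⟨m, hm, ?_⟩
      obtain ⟨w, hw, hw'⟩ := exists_vec (k := k)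
        (fun (π : B ⊕ (Fin m × I) ≃ A) (x : (A → I) × (B → I)) => monV k π x.1 x.2)
        (fun x => T x.1 x.2) (fun φ => by
          obtain ⟨r, hr⟩ := fft_pos (T := Matrix.of fun i j => φ (T i j))
            (fun p q hpq => (hT.comp φ).act_eq_zero p q hpq) m hm
          refine ⟨r, fun x => (hr x.1 x.2).trans (Finset.sum_congr rfl fun π _ => ?_)⟩
          unfold monV
          split_ifs <;> simp)
      exact ⟨w, hw, fun i j => hw' (i, j)⟩
    · obtain ⟨m, hm'⟩ := Int.eq_ofNat_of_zero_le (neg_nonneg.mpr h)
      have hm : Fintype.card B = Fintype.card A + m * Fintype.card I := by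
        have h2 : d = -(m : ℤ) := by rw [← hm', neg_neg]
        rw [h2] at hd
        zify
        linarith
      right
      right
      refine ⟨m, hm, ?_⟩
      obtain ⟨w, hw, hw'⟩ := exists_vec (k := k)
        (fun (π : A ⊕ (Fin m × I) ≃ B) (x : (A → I) × (B → I)) => monV k π x.2 x.1)
        (fun x => T x.1 x.2) (fun φ => by
          obtain ⟨r, hr⟩ := fft_neg (T := Matrix.of fun i j => φ (T i j))
            (fun p q hpq => (hT.comp φ).act_eq_zero p q hpq) m hm
          refine ⟨r, fun x => (hr x.1 x.2).trans (Finset.sum_congr rfl fun π _ => ?_)⟩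
          unfold monV
          split_ifs <;> simp)
      exact ⟨w, hw, fun i j => hw' (i, j)⟩
  · left
    intro i j
    rw [← Module.forall_dual_apply_eq_zero_iff k]
    intro φ
    by_contra hne
    refine h0 (dvd_of_ne_zero (T := Matrix.of fun i j => φ (T i j))
      (fun p q hpq => (hT.comp φ).act_eq_zero p q hpq) fun h => hne ?_)
    exact congrFun (congrFun h i) j

end

end Pool.Agent.SLF
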