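import Mathlib

/-!
# Tensor invariants of `𝔤𝔩(V)`

Operators on `V^{⊗ A}`, `V = k^I`, as matrices with rows and columns indexed by the words `A → I`.
An operator which commutes with the derivations given by all endomorphisms of `V` is a combination
of the permutations of the factors.
-/

set_option autoImplicit false
set_option linter.unusedSectionVars false

open Equiv Function

namespace Pool.Agent.SLF

section

variable {k : Type*} [Field k] {A I : Type*} [Fintype A] [DecidableEq A] [Fintype I]
  [DecidableEq I]

/-- The tensor product of the endomorphisms `X a`. -/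
def tens (X : A → Matrix I I k) : Matrix (A → I) (A → I) k :=
  Matrix.of fun i j => ∏ a, X a (i a) (j a)

theorem tens_apply (X : A → Matrix I I k) (i j : A → I) : tens X i j = ∏ a, X a (i a) (j a) := rfl

theorem tens_mul (X Y : A → Matrix I I k) : tens X * tens Y = tens fun a => X a * Y a := by
  ext i l
  simp only [Matrix.mul_apply, tens_apply]
  rw [Finset.prod_univ_sum]
  simp only [Fintype.piFinset_univ, Finset.prod_mul_distrib]

theorem tens_one : tens (fun _ : A => (1 : Matrix I I k)) = 1 := by
  ext i j
  rw [tens_apply, Matrix.one_apply]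
  split_ifs with h
  · subst h
    simp
  · obtain ⟨a, ha⟩ := Function.ne_iff.mp h
    exact Finset.prod_eq_zero (Finset.mem_univ a) (Matrix.one_apply_ne ha)

/-- The derivation given by `Y`. -/
def der (A : Type*) [Fintype A] [DecidableEq A] {I : Type*} [Fintype I] [DecidableEq I]
    {k : Type*} [Field k] (Y : Matrix I I k) : Matrix (A → I) (A → I) k :=
  ∑ a : A, tens (update (fun _ => 1) a Y)

theorem der_mul_tens (Y : Matrix I I k) (X : A → Matrix I I k) :
    der A Y * tens X = ∑ a, tens (update X a (Y * X a)) := by
  unfold der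
  rw [Finset.sum_mul]
  refine Finset.sum_congr rfl fun a _ => ?_
  rw [tens_mul]
  congr 1
  funext c
  by_cases h : c = a
  · subst h
    simp
  · simp [h]

theorem tens_mul_der (Y : Matrix I I k) (X : A → Matrix I I k) :
    tens X * der A Y = ∑ a, tens (update X a (X a * Y)) := by
  unfold der
  rw [Finset.mul_sum]
  refine Finset.sum_congr rfl fun a _ => ?_
  rw [tens_mul]
  congr 1
  funext c
  by_cases h : c = a
  · subst h
    simp
  · simp [h]

/-- The symmetrised tensor product of the endomorphisms `X a`. -/
def symt (X : A → Matrix I I k) : Matrix (A → I) (A → I) k := ∑ σ : Perm A, tens (X ∘ σ)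

theorem symt_comp (X : A → Matrix I I k) (τ : Perm A) : symt (X ∘ τ) = symt X := by
  exact Equiv.sum_comp (Equiv.mulLeft τ) fun σ : Perm A => tens (X ∘ σ)

theorem der_mul_symt (Y : Matrix I I k) (X : A → Matrix I I k) :
    der A Y * symt X = ∑ a, symt (update X a (Y * X a)) := by
  unfold symt
  rw [Finset.mul_sum, Finset.sum_comm]
  refine Finset.sum_congr rfl fun σ _ => ?_
  rw [der_mul_tens, ← Equiv.sum_comp σ.symm]
  refine Finset.sum_congr rfl fun a _ => ?_
  congr 1
  rw [Function.update_comp_equiv]
  simp

theorem commute_symt [CharZero k] {T : Matrix (A → I) (A → I) k}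
    (hT : ∀ Y : Matrix I I k, Commute T (der A Y)) (R : Finset A) :
    ∀ X : A → Matrix I I k, (∀ a, a ∉ R → X a = 1) → Commute T (symt X) := by
  induction R using Finset.induction_on with
  | empty =>
    intro X hX
    have h : X = fun _ => 1 := funext fun a => hX a (Finset.notMem_empty a)
    subst h
    have h1 : symt (fun _ : A => (1 : Matrix I I k)) = (Fintype.card (Perm A) : k) • 1 := by
      unfold symt
      have h2 : ∀ σ : Perm A, tens ((fun _ : A => (1 : Matrix I I k)) ∘ σ) = 1 := fun _ => tens_one
      rw [Finset.sum_congr rfl fun σ _ => h2 σ, Finset.sum_const, Finset.card_univ,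
        ← Nat.cast_smul_eq_nsmul k]
    rw [h1]
    exact (Commute.one_right T).smul_right _
  | insert a₀ R ha₀ ih =>
    intro X hX
    set Y := X a₀ with hY
    set X₀ := update X a₀ 1 with hX₀
    have h0 : ∀ a, a ∉ R → X₀ a = 1 := by
      intro a ha
      by_cases h : a = a₀
      · subst h
        simp [hX₀]
      · rw [hX₀, update_of_ne h]
        exact hX a (by simp [h, ha])
    have h1 : der A Y * symt X₀ = (∑ a ∈ R, symt (update X₀ a (Y * X₀ a))) +
        ((Finset.univ \ R).card : k) • symt X := by
      rw [der_mul_symt, ← Finset.sum_sdiff (Finset.subset_univ R), add_comm]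
      congr 1
      rw [Finset.sum_congr rfl (g := fun _ => symt X), Finset.sum_const, ← Nat.cast_smul_eq_nsmul k]
      intro a ha
      have ha' : a ∉ R := (Finset.mem_sdiff.mp ha).2
      rw [h0 a ha', mul_one, ← symt_comp _ (Equiv.swap a a₀)]
      congr 1
      have h2 : X₀ ∘ (Equiv.swap a a₀) = X₀ := by
        funext c
        by_cases hca : c = a
        · subst hca
          rw [comp_apply, Equiv.swap_apply_left, h0 c ha', h0 a₀ ha₀]
        · by_cases hc : c = a₀
          · subst hc
            rw [comp_apply, Equiv.swap_apply_right, h0 a ha', h0 c ha₀]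
          · rw [comp_apply, Equiv.swap_apply_of_ne_of_ne hca hc]
      rw [Function.update_comp_equiv, h2]
      have h3 : (Equiv.swap a a₀).symm a = a₀ := by simp
      rw [h3, hX₀, Function.update_idem, hY, Function.update_eq_self]
    have h2 : Commute T (((Finset.univ \ R).card : k) • symt X) := by
      have h3 : ((Finset.univ \ R).card : k) • symt X =
          der A Y * symt X₀ - ∑ a ∈ R, symt (update X₀ a (Y * X₀ a)) := by
        rw [h1, add_sub_cancel_left]
      rw [h3]
      refine ((hT Y).mul_right (ih X₀ h0)).sub_right (Commute.sum_right _ _ _ fun a ha => ?_)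
      refine ih _ fun c hc => ?_
      rw [update_of_ne (by rintro rfl; exact hc ha), h0 c hc]
    have hne : ((Finset.univ \ R).card : k) ≠ 0 := by
      rw [Nat.cast_ne_zero, Finset.card_ne_zero]
      exact ⟨a₀, by simp [ha₀]⟩
    have h4 : symt X = ((Finset.univ \ R).card : k)⁻¹ • (((Finset.univ \ R).card : k) • symt X) := by
      rw [smul_smul, inv_mul_cancel₀ hne, one_smul]
    rw [h4]
    exact h2.smul_right _

/-- The operators which commute with the permutations commute with `T`. -/
theorem commute_of_perm [CharZero k] {T : Matrix (A → I) (A → I) k}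
    (hT : ∀ Y : Matrix I I k, Commute T (der A Y)) {e : Matrix (A → I) (A → I) k}
    (he : ∀ (σ : Perm A) i j, e (i ∘ σ) (j ∘ σ) = e i j) : Commute T e := by
  have h1 : (Fintype.card (Perm A) : k) • e =
      ∑ u, ∑ v, e u v • symt fun a => Matrix.single (u a) (v a) (1 : k) := by
    ext i j
    simp only [Matrix.sum_apply, Matrix.smul_apply, smul_eq_mul, symt, tens_apply, comp_apply,
      Finset.mul_sum]
    have h2 : ∀ (σ : Perm A) (u v : A → I), ∏ a, Matrix.single (u (σ a)) (v (σ a)) (1 : k) (i a) (j a)
        = if u = i ∘ σ.symm ∧ v = j ∘ σ.symm then 1 else 0 := by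
      intro σ u v
      simp only [Matrix.single_apply]
      rw [Finset.prod_ite_zero]
      simp only [Finset.mem_univ, true_imp_iff, Finset.prod_const_one]
      refine if_congr ?_ rfl rfl
      constructor
      · intro h
        constructor <;> funext a
        · rw [comp_apply, ← (h (σ.symm a)).1, Equiv.apply_symm_apply]
        · rw [comp_apply, ← (h (σ.symm a)).2, Equiv.apply_symm_apply]
      · rintro ⟨rfl, rfl⟩ a
        simp
    simp only [h2]
    have h3 : ∀ u v, (∑ σ : Perm A, e u v * if u = i ∘ σ.symm ∧ v = j ∘ σ.symm then (1 : k) else 0) =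
        ∑ σ : Perm A, if u = i ∘ σ.symm ∧ v = j ∘ σ.symm then e u v else 0 := by
      intro u v
      refine Finset.sum_congr rfl fun σ _ => ?_
      split_ifs <;> simp
    simp only [h3]
    have h4 : ∀ u, (∑ v, ∑ σ : Perm A, if u = i ∘ σ.symm ∧ v = j ∘ σ.symm then e u v else 0) =
        ∑ σ : Perm A, if u = i ∘ σ.symm then e u (j ∘ σ.symm) else 0 := by
      intro u
      rw [Finset.sum_comm]
      refine Finset.sum_congr rfl fun σ _ => ?_
      by_cases hu : u = i ∘ σ.symm
      · simp [hu]
      · simp [hu]
    simp only [h4]
    rw [Finset.sum_comm]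
    simp only [Finset.sum_ite_eq', Finset.mem_univ, if_true]
    rw [Finset.sum_congr rfl fun σ _ => he σ.symm i j]
    simp
  have hne : (Fintype.card (Perm A) : k) ≠ 0 := by
    rw [Nat.cast_ne_zero]
    exact Fintype.card_ne_zero
  have h5 : e = (Fintype.card (Perm A) : k)⁻¹ • ((Fintype.card (Perm A) : k) • e) := by
    rw [smul_smul, inv_mul_cancel₀ hne, one_smul]
  rw [h5, h1]
  refine Commute.smul_right (Commute.sum_right _ _ _ fun u _ => Commute.sum_right _ _ _ fun v _ =>
    Commute.smul_right (commute_symt hT Finset.univ _ fun a ha => absurd (Finset.mem_univ a) ha) _) _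

end

end Pool.Agent.SLF
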