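import Pool.Agent.Lib.UNIT.FftA

set_option autoImplicit false
set_option linter.unusedSectionVars false

open Equiv Function

namespace Pool.Agent.SLF

section

variable {k : Type*} [Field k] {A I : Type*} [Fintype A] [DecidableEq A] [Fintype I]
  [DecidableEq I]

/-- The permutations of the factors. -/
def permRep (k A I : Type*) [Field k] : Representation k (Perm A) ((A → I) → k) where
  toFun σ :=
    { toFun := fun v i => v (i ∘ σ)
      map_add' := fun _ _ => rfl
      map_smul' := fun _ _ => rfl }
  map_one' := by
    ext v i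
    rfl
  map_mul' σ τ := by
    ext v i
    rfl

theorem permRep_apply (σ : Perm A) (v : (A → I) → k) (i : A → I) :
    permRep k A I σ v i = v (i ∘ σ) := rfl

theorem exists_coeff (r : MonoidAlgebra k (Perm A)) : ∃ c : Perm A → k, ∀ (v : (A → I) → k) i,
    (permRep k A I).asAlgebraHom r v i = ∑ σ : Perm A, c σ * v (i ∘ σ) := by
  classical
  refine MonoidAlgebra.induction_on (motive := fun r => ∃ c : Perm A → k,
    ∀ (v : (A → I) → k) i, (permRep k A I).asAlgebraHom r v i = ∑ σ : Perm A, c σ * v (i ∘ σ))
    r ?_ ?_ ?_
  · intro g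
    refine ⟨fun σ => if σ = g then 1 else 0, fun v i => ?_⟩
    rw [Representation.asAlgebraHom_of, permRep_apply]
    simp
  · rintro f g ⟨c, hc⟩ ⟨d, hd⟩
    refine ⟨fun σ => c σ + d σ, fun v i => ?_⟩
    rw [map_add, LinearMap.add_apply, Pi.add_apply, hc, hd, ← Finset.sum_add_distrib]
    exact Finset.sum_congr rfl fun σ _ => by ring
  · rintro a f ⟨c, hc⟩
    refine ⟨fun σ => a * c σ, fun v i => ?_⟩
    rw [map_smul, LinearMap.smul_apply, Pi.smul_apply, hc, smul_eq_mul, Finset.mul_sum]
    exact Finset.sum_congr rfl fun σ _ => by ring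

/-- **The first fundamental theorem for `𝔤𝔩(V)`**, operator form. -/
theorem exists_perm [CharZero k] {T : Matrix (A → I) (A → I) k}
    (hT : ∀ Y : Matrix I I k, Commute T (der A Y)) :
    ∃ r : Perm A → k, ∀ i j, T i j = ∑ σ : Perm A, if i ∘ (σ : A → A) = j then r σ else 0 := by
  classical
  let ρ := permRep k A I
  have hG : NeZero (Nat.card (Perm A) : k) := ⟨by
    rw [Nat.cast_ne_zero]
    exact Nat.card_pos.ne'⟩
  have he : ∀ e : Module.End (MonoidAlgebra k (Perm A)) ρ.asModule, ∀ v : (A → I) → k,
      T.mulVec (ρ.asModuleEquiv (e (ρ.asModuleEquiv.symm v))) =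
        ρ.asModuleEquiv (e (ρ.asModuleEquiv.symm (T.mulVec v))) := by
    intro e v
    let l : ((A → I) → k) →ₗ[k] ((A → I) → k) :=
      { toFun := fun v => ρ.asModuleEquiv (e (ρ.asModuleEquiv.symm v))
        map_add' := fun v w => by simp only [map_add]
        map_smul' := fun c v => by
          rw [Representation.asModuleEquiv_symm_map_smul, map_smul,
            Representation.asModuleEquiv_map_smul, AlgHom.commutes, RingHom.id_apply]
          rfl }
    have hl : ∀ (σ : Perm A) v, l (ρ σ v) = ρ σ (l v) := by
      intro σ v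
      change ρ.asModuleEquiv (e (ρ.asModuleEquiv.symm (ρ σ v))) =
        ρ σ (ρ.asModuleEquiv (e (ρ.asModuleEquiv.symm v)))
      rw [Representation.asModuleEquiv_symm_map_rho, map_smul,
        Representation.asModuleEquiv_map_smul, Representation.asAlgebraHom_of]
    have h1 : Commute T (LinearMap.toMatrix' l) := by
      refine commute_of_perm hT fun σ i j => ?_
      rw [LinearMap.toMatrix'_apply, LinearMap.toMatrix'_apply]
      have h2 : (fun j' => if j' = j ∘ σ then (1 : k) else 0) =
          Pi.single (j ∘ σ) 1 := by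
        funext c
        simp [Pi.single_apply]
      have h3 : ρ σ (Pi.single (j ∘ σ) 1) = Pi.single j 1 := by
        funext c
        change (Pi.single (j ∘ σ) 1 : (A → I) → k) (c ∘ σ) = _
        simp only [Pi.single_apply]
        exact if_congr (σ.surjective.injective_comp_right.eq_iff) rfl rfl
      have h4 := congrFun (hl σ (Pi.single (j ∘ σ) 1)) i
      rw [h3] at h4
      exact h4.symm
    have h2 := congrArg (fun M => M.mulVec v) h1.eq
    simp only [← Matrix.mulVec_mulVec, LinearMap.toMatrix'_mulVec] at h2
    exact h2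
  let f : Module.End (Module.End (MonoidAlgebra k (Perm A)) ρ.asModule) ρ.asModule :=
    { toFun := fun v => ρ.asModuleEquiv.symm (T.mulVec (ρ.asModuleEquiv v))
      map_add' := fun v w => by
        simp only [map_add, Matrix.mulVec_add]
      map_smul' := fun e v => by
        rw [RingHom.id_apply, Module.End.smul_def, Module.End.smul_def]
        apply ρ.asModuleEquiv.injective
        have h := he e (ρ.asModuleEquiv v)
        rw [LinearEquiv.symm_apply_apply] at h
        rw [LinearEquiv.apply_symm_apply]
        exact h }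
  obtain ⟨r, hr⟩ := jacobson_density f
    ((Finset.univ : Finset (A → I)).image fun j => ρ.asModuleEquiv.symm (Pi.single j 1))
  obtain ⟨c, hc⟩ := exists_coeff (I := I) r
  refine ⟨c, fun i j => ?_⟩
  have h1 := hr (ρ.asModuleEquiv.symm (Pi.single j 1)) (Finset.mem_image_of_mem _ (Finset.mem_univ j))
  have h2 := congrArg (fun v => ρ.asModuleEquiv v i) h1
  change T.mulVec (Pi.single j 1) i = ρ.asAlgebraHom r (Pi.single j 1) i at h2
  rw [hc, Matrix.mulVec_single_one] at h2
  change T i j = _ at h2
  rw [h2]
  refine Finset.sum_congr rfl fun σ _ => ?_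
  rw [Pi.single_apply]
  split_ifs <;> simp

end

end Pool.Agent.SLF
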