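import Pool.Agent.Lib.UNIT.FftB

/-!
# Tensor invariants of `𝔰𝔩(V)`

Mixed tensors: functions `T i j` of words `i : A → I` and `j : B → I`, the first transformed by
`V = k^I`, the second by the dual.
-/

set_option autoImplicit false
set_option linter.unusedSectionVars false

open Equiv Function

namespace Pool.Agent.SLF

section

variable {k : Type*} [Field k] {A B I : Type*} [Fintype A] [DecidableEq A] [Fintype B]
  [DecidableEq B] [Fintype I] [DecidableEq I]

theorem tens_update_one (a : A) (Y : Matrix I I k) (i j : A → I) :
    tens (update (fun _ => 1) a Y) i j = if update i a (j a) = j then Y (i a) (j a) else 0 := by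
  rw [tens_apply]
  split_ifs with h
  · rw [Finset.prod_eq_single a]
    · simp
    · intro c _ hc
      have h1 := congrFun h c
      rw [update_of_ne hc] at h1
      rw [update_of_ne hc, h1, Matrix.one_apply_eq]
    · intro h'
      exact absurd (Finset.mem_univ a) h'
  · obtain ⟨c, hc⟩ := Function.ne_iff.mp h
    have hca : c ≠ a := by
      rintro rfl
      exact hc (by simp)
    rw [update_of_ne hca] at hc
    refine Finset.prod_eq_zero (Finset.mem_univ c) ?_
    rw [update_of_ne hca, Matrix.one_apply_ne hc]

theorem der_add (X Y : Matrix I I k) : der A (X + Y) = der A X + der A Y := by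
  unfold der
  rw [← Finset.sum_add_distrib]
  refine Finset.sum_congr rfl fun a _ => ?_
  ext i j
  rw [Matrix.add_apply, tens_update_one, tens_update_one, tens_update_one]
  split_ifs <;> simp

theorem der_smul (c : k) (X : Matrix I I k) : der A (c • X) = c • der A X := by
  unfold der
  rw [Finset.smul_sum]
  refine Finset.sum_congr rfl fun a _ => ?_
  ext i j
  rw [Matrix.smul_apply, tens_update_one, tens_update_one]
  split_ifs <;> simp

theorem der_one : der A (1 : Matrix I I k) = (Fintype.card A : k) • 1 := by
  unfold der
  have h : ∀ a : A, tens (update (fun _ => (1 : Matrix I I k)) a 1) = 1 := by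
    intro a
    rw [Function.update_eq_self a (fun _ => (1 : Matrix I I k)), tens_one]
  rw [Finset.sum_congr rfl fun a _ => h a, Finset.sum_const, Finset.card_univ,
    ← Nat.cast_smul_eq_nsmul k]

theorem der_transpose (X : Matrix I I k) : (der A X).transpose = der A X.transpose := by
  unfold der
  rw [Matrix.transpose_sum]
  refine Finset.sum_congr rfl fun a _ => ?_
  ext i j
  rw [Matrix.transpose_apply, tens_apply, tens_apply]
  refine Finset.prod_congr rfl fun c _ => ?_
  by_cases h : c = a
  · subst h
    simp
  · simp [h, Matrix.one_apply, eq_comm]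

/-- `der` on the left, by entries. -/
theorem der_mul_apply {J : Type*} (X : Matrix I I k) (T : Matrix (A → I) J k) (i : A → I) (j : J) :
    (der A X * T) i j = ∑ a, ∑ q, X (i a) q * T (update i a q) j := by
  unfold der
  rw [Matrix.sum_mul, Matrix.sum_apply]
  refine Finset.sum_congr rfl fun a _ => ?_
  rw [Matrix.mul_apply]
  have h1 : ∀ i', tens (update (fun _ => 1) a X) i i' * T i' j =
      ∑ q, if update i a q = i' then X (i a) q * T i' j else 0 := by
    intro i'
    rw [tens_update_one]
    by_cases h : update i a (i' a) = i'
    · rw [if_pos h, Finset.sum_eq_single (i' a)]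
      · rw [if_pos h]
      · intro q _ hq
        refine if_neg fun h' => hq ?_
        have := congrFun h' a
        simpa using this
      · intro h'
        exact absurd (Finset.mem_univ _) h'
    · rw [if_neg h, zero_mul, Finset.sum_eq_zero]
      intro q _
      refine if_neg fun h' => h ?_
      have h2 := congrFun h' a
      rw [update_self] at h2
      rw [← h2]
      exact h'
  simp only [h1]
  rw [Finset.sum_comm]
  refine Finset.sum_congr rfl fun q _ => ?_
  rw [Finset.sum_ite_eq]
  simp

/-- `der` on the right, by entries. -/
theorem mul_der_apply {J : Type*} (X : Matrix I I k) (T : Matrix J (B → I) k) (i : J) (j : B → I) :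
    (T * der B X) i j = ∑ b, ∑ p, X p (j b) * T i (update j b p) := by
  have h := congrFun (congrFun (Matrix.transpose_mul T (der B X)) j) i
  rw [Matrix.transpose_apply, der_transpose, der_mul_apply] at h
  rw [h]
  rfl

theorem der_comm (X Y : Matrix I I k) :
    der A X * der A Y - der A Y * der A X = der A (X * Y) - der A (Y * X) := by
  have h : ∀ X Y : Matrix I I k, der A X * der A Y = ∑ a, ∑ b,
      tens (update (update (fun _ => 1) a Y) b (X * (update (fun _ => 1) a Y : A → _) b)) := by
    intro X Y
    conv_lhs => rw [show der A Y = ∑ a : A, tens (update (fun _ => 1) a Y) from rfl]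
    rw [Finset.mul_sum]
    exact Finset.sum_congr rfl fun a _ => der_mul_tens _ _
  rw [h X Y, h Y X, Finset.sum_comm (γ := A) (f := fun a b => tens (update (update (fun _ => 1) a X) b
    (Y * (update (fun _ => 1) a X : A → _) b))), ← Finset.sum_sub_distrib]
  have h1 : ∀ a : A, (∑ b, tens (update (update (fun _ => 1) a Y) b
      (X * (update (fun _ => 1) a Y : A → _) b))) - (∑ b, tens (update (update (fun _ => 1) b X) a
        (Y * (update (fun _ => 1) b X : A → _) a))) =
      tens (update (fun _ => 1) a (X * Y)) - tens (update (fun _ => 1) a (Y * X)) := by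
    intro a
    rw [← Finset.sum_sub_distrib, Finset.sum_eq_single a]
    · simp
    · intro b _ hb
      rw [update_of_ne hb, update_of_ne hb.symm, mul_one, mul_one, update_comm hb, sub_self]
    · intro h'
      exact absurd (Finset.mem_univ a) h'
  rw [Finset.sum_congr rfl fun a _ => h1 a, Finset.sum_sub_distrib]
  rfl

/-- The action of `X` on the mixed tensor `T`. -/
def act (X : Matrix I I k) (T : Matrix (A → I) (B → I) k) : Matrix (A → I) (B → I) k :=
  der A X * T - T * der B X

theorem act_apply (X : Matrix I I k) (T : Matrix (A → I) (B → I) k) (i : A → I) (j : B → I) :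
    act X T i j = (∑ a, ∑ q, X (i a) q * T (update i a q) j) -
      ∑ b, ∑ p, X p (j b) * T i (update j b p) := by
  unfold act
  rw [Matrix.sub_apply, der_mul_apply, mul_der_apply]

theorem act_add (X Y : Matrix I I k) (T : Matrix (A → I) (B → I) k) :
    act (X + Y) T = act X T + act Y T := by
  unfold act
  rw [der_add, der_add, Matrix.add_mul, Matrix.mul_add]
  abel

theorem act_smul (c : k) (X : Matrix I I k) (T : Matrix (A → I) (B → I) k) :
    act (c • X) T = c • act X T := by
  unfold act
  rw [der_smul, der_smul, Matrix.smul_mul, Matrix.mul_smul, smul_sub]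

/-- The action is linear in the matrix. -/
def actL (T : Matrix (A → I) (B → I) k) : Matrix I I k →ₗ[k] Matrix (A → I) (B → I) k where
  toFun X := act X T
  map_add' X Y := act_add X Y T
  map_smul' c X := act_smul c X T

theorem act_one (T : Matrix (A → I) (B → I) k) :
    act 1 T = ((Fintype.card A : k) - Fintype.card B) • T := by
  unfold act
  rw [der_one, der_one, Matrix.smul_mul, Matrix.mul_smul, Matrix.one_mul, Matrix.mul_one, sub_smul]

theorem act_comm (X Y : Matrix I I k) (T : Matrix (A → I) (B → I) k) :
    act (X * Y) T - act (Y * X) T = act X (act Y T) - act Y (act X T) := by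
  have h1 := congrArg (fun M => M * T) (der_comm (A := A) X Y)
  have h2 := congrArg (fun M => T * M) (der_comm (A := B) X Y)
  simp only [Matrix.sub_mul, Matrix.mul_sub] at h1 h2
  have h3 : act (X * Y) T - act (Y * X) T = (der A (X * Y) * T - der A (Y * X) * T) -
      (T * der B (X * Y) - T * der B (Y * X)) := by
    unfold act
    abel
  rw [h3, ← h1, ← h2]
  unfold act
  simp only [Matrix.sub_mul, Matrix.mul_sub, Matrix.mul_assoc]
  abel

end

end Pool.Agent.SLF
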