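import Pool.Agent.Lib.UNIT.FftC

set_option autoImplicit false
set_option linter.unusedSectionVars false

open Equiv Function

namespace Pool.Agent.SLF

section

variable {k : Type*} [Field k] {A B I : Type*} [Fintype A] [DecidableEq A] [Fintype B]
  [DecidableEq B] [Fintype I] [DecidableEq I]

/-- The traceless matrices kill `T`. -/
theorem act_traceless {T : Matrix (A → I) (B → I) k}
    (hT : ∀ p q, p ≠ q → act (Matrix.single p q (1 : k)) T = 0) (X : Matrix I I k)
    (hX : X.trace = 0) : act X T = 0 := by
  have hd : ∀ p q, act (Matrix.single p p (1 : k) - Matrix.single q q 1) T = 0 := by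
    intro p q
    by_cases h : p = q
    · subst h
      rw [sub_self]
      exact (actL T).map_zero
    · have h1 := act_comm (Matrix.single p q (1 : k)) (Matrix.single q p 1) T
      rw [hT p q h, hT q p (Ne.symm h)] at h1
      have h2 : ∀ Y : Matrix I I k, act Y (0 : Matrix (A → I) (B → I) k) = 0 := by
        intro Y
        unfold act
        rw [Matrix.mul_zero, Matrix.zero_mul, sub_zero]
      rw [h2, h2, sub_zero] at h1
      have h3 := (actL T).map_sub (Matrix.single p p (1 : k)) (Matrix.single q q 1)
      change act _ T = act _ T - act _ T at h3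
      rw [h3]
      simpa using h1
  by_cases hI : IsEmpty I
  · have : X = 0 := by
      ext p
      exact (hI.false p).elim
    rw [this]
    exact (actL T).map_zero
  · rw [not_isEmpty_iff] at hI
    obtain ⟨p₀⟩ := hI
    have h1 : X = (∑ p, ∑ q, if p = q then 0 else X p q • Matrix.single p q (1 : k)) +
        ∑ p, X p p • (Matrix.single p p (1 : k) - Matrix.single p₀ p₀ 1) := by
      have h2 : ∑ p, X p p • (Matrix.single p p (1 : k) - Matrix.single p₀ p₀ 1) =
          ∑ p, X p p • Matrix.single p p (1 : k) := by
        simp only [smul_sub, Finset.sum_sub_distrib]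
        rw [← Finset.sum_smul]
        have : ∑ p, X p p = 0 := hX
        rw [this, zero_smul, sub_zero]
      rw [h2, ← Finset.sum_add_distrib]
      have h3 : ∀ p, ((∑ q, if p = q then 0 else X p q • Matrix.single p q (1 : k)) +
          X p p • Matrix.single p p 1) = ∑ q, X p q • Matrix.single p q (1 : k) := by
        intro p
        rw [← Finset.sum_erase_add _ _ (Finset.mem_univ p), if_pos rfl, add_zero,
          ← Finset.sum_erase_add (s := Finset.univ) (f := fun q => X p q • Matrix.single p q (1 : k))
            (h := Finset.mem_univ p)]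
        congr 1
        refine Finset.sum_congr rfl fun q hq => ?_
        rw [if_neg (Finset.ne_of_mem_erase hq).symm]
      rw [Finset.sum_congr rfl fun p _ => h3 p]
      conv_lhs => rw [Matrix.matrix_eq_sum_single X]
      refine Finset.sum_congr rfl fun p _ => Finset.sum_congr rfl fun q _ => ?_
      rw [Matrix.smul_single, smul_eq_mul, mul_one]
    have h4 : actL T X = 0 := by
      rw [h1, map_add, map_sum, map_sum]
      rw [Finset.sum_eq_zero, Finset.sum_eq_zero, add_zero]
      · intro p _
        rw [map_smul]
        change _ • act _ T = 0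
        rw [hd, smul_zero]
      · intro p _
        rw [map_sum]
        refine Finset.sum_eq_zero fun q _ => ?_
        split_ifs with h
        · exact map_zero _
        · rw [map_smul]
          change _ • act _ T = 0
          rw [hT p q h, smul_zero]
    exact h4

/-- The action of an arbitrary matrix on an `𝔰𝔩`-invariant. -/
theorem act_eq [CharZero k] [Nonempty I] {T : Matrix (A → I) (B → I) k}
    (hT : ∀ p q, p ≠ q → act (Matrix.single p q (1 : k)) T = 0) (X : Matrix I I k) :
    act X T = (X.trace * ((Fintype.card A : k) - Fintype.card B) / Fintype.card I) • T := by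
  have hn : (Fintype.card I : k) ≠ 0 := by
    rw [Nat.cast_ne_zero]
    exact Fintype.card_ne_zero
  have h1 := act_traceless hT (X - (X.trace / Fintype.card I) • 1) (by
    rw [Matrix.trace_sub, Matrix.trace_smul, Matrix.trace_one, smul_eq_mul, div_mul_cancel₀ _ hn,
      sub_self])
  have h2 := (actL T).map_sub X ((X.trace / Fintype.card I) • 1)
  rw [map_smul] at h2
  change act _ T = act X T - _ • act 1 T at h2
  rw [h1, act_one, smul_smul] at h2
  rw [← sub_eq_zero, h2.trans rfl]
  congr 2
  ring

/-- `𝔰𝔩`-invariants only exist if `n` divides `|A| - |B|`. -/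
theorem dvd_of_ne_zero [CharZero k] [Nonempty I] {T : Matrix (A → I) (B → I) k}
    (hT : ∀ p q, p ≠ q → act (Matrix.single p q (1 : k)) T = 0) (h0 : T ≠ 0) :
    (Fintype.card I : ℤ) ∣ (Fintype.card A : ℤ) - Fintype.card B := by
  have hn : (Fintype.card I : k) ≠ 0 := by
    rw [Nat.cast_ne_zero]
    exact Fintype.card_ne_zero
  obtain ⟨i, j, hij⟩ : ∃ i j, T i j ≠ 0 := by
    by_contra h
    push Not at h
    exact h0 (by ext i j; exact h i j)
  obtain ⟨p⟩ := ‹Nonempty I›
  have h1 := congrFun (congrFun (act_eq hT (Matrix.single p p 1)) i) j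
  rw [act_apply, Matrix.trace_single_eq_same, Matrix.smul_apply, one_mul, smul_eq_mul] at h1
  have h2 : ∀ a, (∑ q, Matrix.single p p (1 : k) (i a) q * T (update i a q) j) =
      if i a = p then T i j else 0 := by
    intro a
    split_ifs with h
    · rw [Finset.sum_eq_single p]
      · rw [h, Matrix.single_apply_same, one_mul, ← h, Function.update_eq_self]
      · intro q _ hq
        rw [Matrix.single_apply, if_neg (fun h' => hq h'.2.symm), zero_mul]
      · intro h'
        exact absurd (Finset.mem_univ _) h'
    · refine Finset.sum_eq_zero fun q _ => ?_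
      rw [Matrix.single_apply, if_neg (fun h' => h h'.1.symm), zero_mul]
  have h3 : ∀ b, (∑ q, Matrix.single p p (1 : k) q (j b) * T i (update j b q)) =
      if j b = p then T i j else 0 := by
    intro b
    split_ifs with h
    · rw [Finset.sum_eq_single p]
      · rw [h, Matrix.single_apply_same, one_mul, ← h, Function.update_eq_self]
      · intro q _ hq
        rw [Matrix.single_apply, if_neg (fun h' => hq h'.1.symm), zero_mul]
      · intro h'
        exact absurd (Finset.mem_univ _) h'
    · refine Finset.sum_eq_zero fun q _ => ?_
      rw [Matrix.single_apply, if_neg (fun h' => h h'.2.symm), zero_mul]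
  simp only [h2, h3] at h1
  rw [← Finset.sum_filter, ← Finset.sum_filter, Finset.sum_const, Finset.sum_const,
    nsmul_eq_mul, nsmul_eq_mul, ← sub_mul] at h1
  have h4 := mul_right_cancel₀ hij h1
  rw [eq_div_iff hn] at h4
  refine ⟨((Finset.univ.filter fun a => i a = p).card : ℤ) -
    (Finset.univ.filter fun b => j b = p).card, ?_⟩
  have h5 : (((Fintype.card A : ℤ) - Fintype.card B : ℤ) : k) =
      (((Fintype.card I : ℤ) * (((Finset.univ.filter fun a => i a = p).card : ℤ) -
        (Finset.univ.filter fun b => j b = p).card) : ℤ) : k) := by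
    push_cast
    rw [← h4]
    ring
  exact_mod_cast h5

/-! ### The determinant -/

variable (k) in
/-- The determinant, as a function of words of length `n`. -/
def eps (f : I → I) : k := ((1 : Matrix I I k).submatrix f id).det

theorem det_der' (M N : Matrix I I k) : ∑ a, (M.updateRow a (N a)).det =
    ∑ c, (M.updateCol c fun a => N a c).det := by
  simp only [Matrix.det_apply]
  rw [Finset.sum_comm, Finset.sum_comm (s := Finset.univ (α := I))]
  refine Finset.sum_congr rfl fun σ _ => ?_
  rw [← Equiv.sum_comp σ]
  refine Finset.sum_congr rfl fun c _ => ?_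
  congr 1
  refine Finset.prod_congr rfl fun i _ => ?_
  by_cases h : i = c
  · subst h
    rw [Matrix.updateRow_self, Matrix.updateCol_self]
  · rw [Matrix.updateRow_ne (fun h' => h (σ.injective h')), Matrix.updateCol_ne h]

theorem sum_det_updateRow (M Y : Matrix I I k) :
    ∑ a, (M.updateRow a ((M * Y) a)).det = Y.trace * M.det := by
  rw [det_der' M (M * Y)]
  have h : ∀ c, (M.updateCol c fun a => (M * Y) a c).det = Y c c * M.det := by
    intro c
    have h1 : (fun a => (M * Y) a c) = M.mulVec fun s => Y s c := by
      funext a
      rw [Matrix.mul_apply]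
      rfl
    rw [h1, ← Matrix.cramer_apply, Matrix.cramer_eq_adjugate_mulVec, Matrix.mulVec_mulVec,
      Matrix.adjugate_mul, Matrix.smul_mulVec, Matrix.one_mulVec, Pi.smul_apply, smul_eq_mul,
      mul_comm]
  rw [Finset.sum_congr rfl fun c _ => h c, ← Finset.sum_mul]
  rfl

theorem eps_der (X : Matrix I I k) (f : I → I) :
    ∑ r, ∑ p, X p (f r) * eps k (update f r p) = X.trace * eps k f := by
  have h1 := sum_det_updateRow ((1 : Matrix I I k).submatrix f id) X.transpose
  rw [Matrix.trace_transpose] at h1
  unfold eps
  rw [← h1]
  refine Finset.sum_congr rfl fun r _ => ?_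
  have h2 : (((1 : Matrix I I k).submatrix f id * X.transpose) r) =
      ∑ p, X p (f r) • (1 : Matrix I I k) p := by
    funext s
    rw [Matrix.mul_apply, Finset.sum_apply]
    simp [Matrix.one_apply]
  have h3 : ∀ p, (1 : Matrix I I k).submatrix (update f r p) id =
      ((1 : Matrix I I k).submatrix f id).updateRow r ((1 : Matrix I I k) p) := by
    intro p
    ext a s
    by_cases h : a = r
    · subst h
      rw [Matrix.submatrix_apply, Matrix.updateRow_self, update_self]
      rfl
    · rw [Matrix.submatrix_apply, Matrix.updateRow_ne h, Matrix.submatrix_apply, update_of_ne h]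
  have h5 := (Matrix.detRowAlternating (R := k) (n := I)).toMultilinearMap.map_update_sum
      (Finset.univ) r (fun p => X p (f r) • (1 : Matrix I I k) p)
      ((1 : Matrix I I k).submatrix f id)
  have h6 : ∀ v : I → k, (((1 : Matrix I I k).submatrix f id).updateRow r v).det =
      (Matrix.detRowAlternating (R := k) (n := I)).toMultilinearMap
        (Function.update ((1 : Matrix I I k).submatrix f id) r v) := fun v => rfl
  rw [h2, h6, h5]
  refine Finset.sum_congr rfl fun p _ => ?_
  rw [← h6, Matrix.det_updateRow_smul, h3]

theorem eps_sq (f : I → I) : eps k f ^ 2 = if Injective f then 1 else 0 := by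
  unfold eps
  split_ifs with h
  · let σ := Equiv.ofBijective f (Finite.injective_iff_bijective.mp h)
    have h1 : (1 : Matrix I I k).submatrix f id = (1 : Matrix I I k).submatrix σ id := rfl
    rw [h1, Matrix.det_permute, Matrix.det_one, mul_one]
    rcases Int.units_eq_one_or (Equiv.Perm.sign σ) with h2 | h2 <;> rw [h2] <;> simp
  · unfold Injective at h
    push Not at h
    obtain ⟨a, b, hab, hne⟩ := h
    have h1 : ((1 : Matrix I I k).submatrix f id).det = 0 := by
      refine Matrix.det_zero_of_row_eq hne ?_
      funext s
      rw [Matrix.submatrix_apply, Matrix.submatrix_apply, hab]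
    rw [h1]
    simp

end

end Pool.Agent.SLF
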