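import Pool.Agent.Lib.UNIT.FftD

set_option autoImplicit false
set_option linter.unusedSectionVars false

open Equiv Function

namespace Pool.Agent.SLF

section

variable {k : Type*} [Field k] {A B I : Type*} [Fintype A] [DecidableEq A] [Fintype B]
  [DecidableEq B] [Fintype I] [DecidableEq I]

variable (k) in
/-- The product of `m` determinants. -/
def epsm {m : ℕ} (f : Fin m × I → I) : k := ∏ l, eps k fun r => f (l, r)

theorem epsm_der {m : ℕ} (X : Matrix I I k) (f : Fin m × I → I) :
    ∑ c, ∑ p, X p (f c) * epsm k (update f c p) = (m * X.trace) * epsm k f := by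
  rw [Fintype.sum_prod_type]
  have h : ∀ l, (∑ r, ∑ p, X p (f (l, r)) * epsm k (update f (l, r) p)) =
      X.trace * epsm k f := by
    intro l
    have h1 : ∀ r p, epsm k (update f (l, r) p) =
        eps k (update (fun r => f (l, r)) r p) *
          ∏ l' ∈ Finset.univ.erase l, eps k fun r => f (l', r) := by
      intro r p
      unfold epsm
      rw [← Finset.mul_prod_erase _ _ (Finset.mem_univ l)]
      congr 1
      · congr 1
        funext s
        by_cases hs : s = r
        · subst hs
          simp
        · rw [update_of_ne hs, update_of_ne (fun h' => hs (Prod.mk.inj h').2)]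
      · refine Finset.prod_congr rfl fun l' hl' => ?_
        congr 1
        funext s
        rw [update_of_ne (fun h' => (Finset.ne_of_mem_erase hl') (Prod.mk.inj h').1)]
    simp only [h1, ← mul_assoc, ← Finset.sum_mul]
    rw [eps_der X fun r => f (l, r), mul_assoc]
    congr 1
    unfold epsm
    rw [← Finset.mul_prod_erase _ _ (Finset.mem_univ l)]
  rw [Finset.sum_congr rfl fun l _ => h l, Finset.sum_const, Finset.card_univ, Fintype.card_fin,
    nsmul_eq_mul, mul_assoc]

theorem sum_epsm_sq [CharZero k] (m : ℕ) : ∑ f : Fin m × I → I, epsm k f ^ 2 ≠ 0 := by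
  have h : ∀ f : Fin m × I → I, epsm k f ^ 2 =
      (((if ∀ l, Injective fun r => f (l, r) then 1 else 0 : ℕ)) : k) := by
    intro f
    unfold epsm
    rw [← Finset.prod_pow]
    simp only [eps_sq]
    rw [Finset.prod_ite_zero]
    simp
  rw [Finset.sum_congr rfl fun f _ => h f, ← Nat.cast_sum, Nat.cast_ne_zero]
  have h1 : (1 : ℕ) ≤ ∑ f : Fin m × I → I, if ∀ l, Injective fun r => f (l, r) then 1 else 0 := by
    have h2 := Finset.single_le_sum (f := fun f : Fin m × I → I =>
      if ∀ l, Injective fun r => f (l, r) then 1 else 0) (fun _ _ => Nat.zero_le _)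
      (Finset.mem_univ fun c : Fin m × I => c.2)
    have h3 : ∀ l : Fin m, Injective fun r : I => ((fun c : Fin m × I => c.2) (l, r)) :=
      fun _ _ _ h => h
    simp only [if_pos h3] at h2
    exact h2
  omega

/-- **The first fundamental theorem for `𝔤𝔩(V)`**, mixed tensors. -/
theorem fft_gl [CharZero k] {T : Matrix (A → I) (B → I) k} (hT : ∀ X, act X T = 0)
    (e : B ≃ A) : ∃ r : (B ≃ A) → k, ∀ i j,
      T i j = ∑ π : B ≃ A, if i ∘ (π : B → A) = j then r π else 0 := by
  let T' : Matrix (A → I) (A → I) k := Matrix.of fun i j => T i (j ∘ e)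
  have h : ∀ Y : Matrix I I k, Commute T' (der A Y) := by
    intro Y
    have h1 : ∀ i j, (der A Y * T' - T' * der A Y) i j = act Y T i (j ∘ e) := by
      intro i j
      rw [act_apply, Matrix.sub_apply, der_mul_apply, mul_der_apply,
        ← Equiv.sum_comp e (fun b => ∑ p, Y p (j b) * T' i (update j b p))]
      have h2 : ∀ b p, T' i (update j (e b) p) = T i (update (j ∘ e) b p) := by
        intro b p
        change T i (update j (e b) p ∘ e) = _
        rw [Function.update_comp_equiv]
        simp
      simp only [h2]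
      rfl
    have h2 : der A Y * T' - T' * der A Y = 0 := by
      ext i j
      rw [h1, hT]
      rfl
    exact (sub_eq_zero.mp h2).symm
  obtain ⟨r, hr⟩ := exists_perm h
  refine ⟨fun π => r (e.symm.trans π), fun i j => ?_⟩
  have h3 : T i j = T' i (j ∘ e.symm) := by
    change T i j = T i ((j ∘ e.symm) ∘ e)
    congr 1
    funext b
    simp
  rw [h3, hr, ← Equiv.sum_comp (Equiv.equivCongr e (Equiv.refl A)) (fun σ : Perm A =>
    if i ∘ (σ : A → A) = j ∘ e.symm then r σ else 0)]
  refine Finset.sum_congr rfl fun π _ => ?_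
  refine if_congr ?_ rfl rfl
  constructor
  · intro h
    funext b
    have := congrFun h (e b)
    simpa using this
  · intro h
    funext a
    have := congrFun h (e.symm a)
    simpa using this

/-- **The first fundamental theorem for `𝔰𝔩(V)`**, mixed tensors, `|A| = |B| + m n`. -/
theorem fft_pos [CharZero k] [Nonempty I] {T : Matrix (A → I) (B → I) k}
    (hT : ∀ p q, p ≠ q → act (Matrix.single p q (1 : k)) T = 0) (m : ℕ)
    (hm : Fintype.card A = Fintype.card B + m * Fintype.card I) :
    ∃ r : (B ⊕ (Fin m × I) ≃ A) → k, ∀ i j, T i j = ∑ π : B ⊕ (Fin m × I) ≃ A,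
      if (fun b => i (π (Sum.inl b))) = j then r π * epsm k fun c => i (π (Sum.inr c)) else 0 := by
  have hn : (Fintype.card I : k) ≠ 0 := by
    rw [Nat.cast_ne_zero]
    exact Fintype.card_ne_zero
  let T' : Matrix (A → I) (B ⊕ (Fin m × I) → I) k :=
    Matrix.of fun i j => T i (fun b => j (Sum.inl b)) * epsm k fun c => j (Sum.inr c)
  have h1 : ∀ X, act X T' = 0 := by
    intro X
    ext i j
    have h2 := congrFun (congrFun (act_eq hT X) i) fun b => j (Sum.inl b)
    rw [act_apply, Matrix.smul_apply, smul_eq_mul] at h2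
    have h3 := epsm_der (m := m) X fun c => j (Sum.inr c)
    rw [act_apply, Matrix.zero_apply, Fintype.sum_sum_type]
    have h4 : ∀ a q, T' (update i a q) j = T (update i a q) (fun b => j (Sum.inl b)) *
        epsm k fun c => j (Sum.inr c) := fun _ _ => rfl
    have h5 : ∀ b p, T' i (update j (Sum.inl b) p) =
        T i (update (fun b => j (Sum.inl b)) b p) * epsm k fun c => j (Sum.inr c) := by
      intro b p
      change T i _ * epsm k _ = _
      congr 2
      funext b'
      by_cases hb : b' = b
      · subst hb
        simp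
      · rw [update_of_ne hb, update_of_ne (fun h' => hb (Sum.inl_injective h'))]
    have h6 : ∀ c p, T' i (update j (Sum.inr c) p) =
        T i (fun b => j (Sum.inl b)) * epsm k (update (fun c => j (Sum.inr c)) c p) := by
      intro c p
      change T i _ * epsm k _ = _
      congr 2
      funext c'
      by_cases hc : c' = c
      · subst hc
        simp
      · rw [update_of_ne hc, update_of_ne (fun h' => hc (Sum.inr_injective h'))]
    simp only [h4, h5, h6]
    have h7 : ∑ c, ∑ p, X p (j (Sum.inr c)) * (T i (fun b => j (Sum.inl b)) *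
        epsm k (update (fun c => j (Sum.inr c)) c p)) =
        T i (fun b => j (Sum.inl b)) * ((m * X.trace) * epsm k fun c => j (Sum.inr c)) := by
      rw [← h3, Finset.mul_sum]
      refine Finset.sum_congr rfl fun c _ => ?_
      rw [Finset.mul_sum]
      exact Finset.sum_congr rfl fun p _ => by ring
    rw [h7]
    simp only [← mul_assoc, ← Finset.sum_mul] at h2 ⊢
    have h8 : (Fintype.card A : k) = Fintype.card B + m * Fintype.card I := by exact_mod_cast hm
    rw [h8, show (Fintype.card B : k) + m * Fintype.card I - Fintype.card B =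
      m * Fintype.card I by ring] at h2
    have h9 : X.trace * (m * Fintype.card I) / Fintype.card I = X.trace * m := by
      field_simp
    rw [h9] at h2
    linear_combination (epsm k fun c => j (Sum.inr c)) * h2
  have hcard : Fintype.card (B ⊕ (Fin m × I)) = Fintype.card A := by
    rw [Fintype.card_sum, Fintype.card_prod, Fintype.card_fin, hm]
  obtain ⟨r, hr⟩ := fft_gl h1 (Fintype.equivOfCardEq hcard)
  set s : k := ∑ f : Fin m × I → I, epsm k f ^ 2 with hs
  have hs0 : s ≠ 0 := sum_epsm_sq m
  refine ⟨fun π => s⁻¹ * r π, fun i j => ?_⟩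
  have h2 : s * T i j = ∑ y : Fin m × I → I, epsm k y * T' i (Sum.elim j y) := by
    rw [hs, Finset.sum_mul]
    refine Finset.sum_congr rfl fun y _ => ?_
    change _ = epsm k y * (T i j * epsm k y)
    ring
  have h3 : ∀ y : Fin m × I → I, epsm k y * T' i (Sum.elim j y) =
      ∑ π : B ⊕ (Fin m × I) ≃ A, if (fun c => i (π (Sum.inr c))) = y then
        (if (fun b => i (π (Sum.inl b))) = j then epsm k y * r π else 0) else 0 := by
    intro y
    rw [hr, Finset.mul_sum]
    refine Finset.sum_congr rfl fun π _ => ?_
    have h4 : i ∘ (π : B ⊕ (Fin m × I) → A) = Sum.elim j y ↔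
        (fun c => i (π (Sum.inr c))) = y ∧ (fun b => i (π (Sum.inl b))) = j := by
      constructor
      · intro h
        exact ⟨funext fun c => congrFun h (Sum.inr c), funext fun b => congrFun h (Sum.inl b)⟩
      · rintro ⟨h, h'⟩
        funext x
        rcases x with b | c
        · exact congrFun h' b
        · exact congrFun h c
    by_cases h5 : (fun c => i (π (Sum.inr c))) = y
    · by_cases h6 : (fun b => i (π (Sum.inl b))) = j
      · rw [if_pos (h4.mpr ⟨h5, h6⟩), if_pos h5, if_pos h6]
      · rw [if_neg (fun h => h6 (h4.mp h).2), if_pos h5, if_neg h6, mul_zero]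
    · rw [if_neg (fun h => h5 (h4.mp h).1), if_neg h5, mul_zero]
  rw [Finset.sum_congr rfl fun y _ => h3 y, Finset.sum_comm] at h2
  simp only [Finset.sum_ite_eq, Finset.mem_univ, if_true] at h2
  have h4 : T i j = s⁻¹ * (s * T i j) := by
    rw [← mul_assoc, inv_mul_cancel₀ hs0, one_mul]
  rw [h4, h2, Finset.mul_sum]
  refine Finset.sum_congr rfl fun π _ => ?_
  split_ifs
  · ring
  · rw [mul_zero]

/-- **The first fundamental theorem for `𝔰𝔩(V)`**, mixed tensors, `|B| = |A| + m n`. -/
theorem fft_neg [CharZero k] [Nonempty I] {T : Matrix (A → I) (B → I) k}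
    (hT : ∀ p q, p ≠ q → act (Matrix.single p q (1 : k)) T = 0) (m : ℕ)
    (hm : Fintype.card B = Fintype.card A + m * Fintype.card I) :
    ∃ r : (A ⊕ (Fin m × I) ≃ B) → k, ∀ i j, T i j = ∑ π : A ⊕ (Fin m × I) ≃ B,
      if (fun a => j (π (Sum.inl a))) = i then r π * epsm k fun c => j (π (Sum.inr c)) else 0 := by
  have h : ∀ p q, p ≠ q → act (Matrix.single p q (1 : k)) T.transpose = 0 := by
    intro p q hpq
    have h1 := congrArg Matrix.transpose (hT q p hpq.symm)
    unfold act at h1 ⊢
    rw [Matrix.transpose_sub, Matrix.transpose_mul, Matrix.transpose_mul, der_transpose,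
      der_transpose, Matrix.transpose_single, Matrix.transpose_zero, ← neg_eq_zero, neg_sub] at h1
    exact h1
  exact (fft_pos h m hm).imp fun r hr i j => hr j i

end

end Pool.Agent.SLF
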