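import Pool.Agent.Lib.UNIT.Rows

/-!
# UNIT, row UL: the Lie algebras `𝔰𝔲` kill the products (helper28)
-/

set_option autoImplicit false

open scoped TensorProduct ComplexConjugate
open Complex Pool.Agent.HCM Pool.Agent.RAT

namespace Pool.Agent.UNIT

noncomputable section

namespace ULx

/-- The classes in `HQ` are antisymmetric. -/
theorem ant_HQ {ι : Type} {K : ι → Type} [∀ i, Field (K i)] {n : ℕ} {v : (Two n → Idx K) → ℂ}
    (hv : v ∈ HQ K n) (a a' : Two n) (haa : a ≠ a') (t : Two n → Idx K) :
    v (t ∘ Equiv.swap a a') = -v t := by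
  unfold HQ at hv
  induction hv using Submodule.span_induction with
  | mem x hx =>
    obtain ⟨y, rfl⟩ := hx
    unfold torusClass
    have h1 : (Matrix.of fun i b => ((t ∘ Equiv.swap a a') i).2
        (y b ((t ∘ Equiv.swap a a') i).1)) =
        (Matrix.of fun i b => (t i).2 (y b (t i).1)).submatrix (Equiv.swap a a') id := rfl
    rw [h1, Matrix.det_permute, Equiv.Perm.sign_swap haa]
    simp
  | zero => simp
  | add x y _ _ hx hy =>
    simp only [Pi.add_apply, hx, hy]
    ring
  | smul q x _ hx => simp only [Pi.smul_apply, hx, smul_neg]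

theorem ant_VOk {κ : Type} {K G : κ → Type} [∀ k, Field (K k)] [∀ k, NumberField (K k)]
    {Φ : ∀ i : Σ k, G k, Set (K i.1 →+* ℂ)} {r c : ℕ} {blk : Fin r → κ}
    {v : (Two c → LC K G blk) → ℂ}
    (hv : (c = 0 ∧ ∃ q : ℚ, ∀ t, v t = q) ∨
      (0 < c ∧ IsBallQ (fun i : Σ j, G (blk j) => Φ ⟨blk i.1, i.2⟩) v))
    (a a' : Two c) (haa : a ≠ a') (t : Two c → LC K G blk) : v (t ∘ Equiv.swap a a') = -v t := by
  rcases hv with ⟨rfl, _⟩ | ⟨_, hv⟩
  · rcases a with a | a <;> exact a.elim0
  · refine ant_HQ ?_ a a' haa t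
    unfold IsBallQ at hv
    exact Submodule.span_le.mpr (fun w hw => hw.1) hv

/-- The trace. -/
theorem tr_zero {G : Type} [Fintype G] [DecidableEq G] (w : (G → G) → ℂ)
    (hw : ∀ a a', a ≠ a' → ∀ s, w (s ∘ Equiv.swap a a') = -w s) (M : Matrix G G ℂ)
    (hM : M.trace = 0) (s : G → G) :
    ∑ g, ∑ g', M (s g) g' * w (Function.update s g g') = 0 := by
  have hz : ∀ s : G → G, ∀ a a', a ≠ a' → s a = s a' → w s = 0 := by
    intro s a a' haa h
    have h1 := hw a a' haa s
    have h2 : s ∘ Equiv.swap a a' = s := by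
      funext b
      simp only [Function.comp_apply, Equiv.swap_apply_def]
      split_ifs with h3 h4
      · rw [h3, h]
      · rw [h4, h]
      · rfl
    rw [h2] at h1
    linear_combination (1 / 2) * h1
  by_cases hs : Function.Injective s
  · have hb : Function.Bijective s := Finite.injective_iff_bijective.mp hs
    have h1 : ∀ g, ∑ g', M (s g) g' * w (Function.update s g g') = M (s g) (s g) * w s := by
      intro g
      rw [Finset.sum_eq_single (s g)]
      · rw [Function.update_eq_self]
      · intro g' _ hg'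
        obtain ⟨b, rfl⟩ := hb.2 g'
        have hbg : b ≠ g := fun h => hg' (by rw [h])
        rw [hz _ b g hbg, mul_zero]
        rw [Function.update_of_ne hbg, Function.update_self]
      · intro h
        exact absurd (Finset.mem_univ _) h
    simp only [h1]
    rw [← Finset.sum_mul]
    have h2 : ∑ g, M (s g) (s g) = M.trace :=
      (Equiv.ofBijective s hb).sum_comp (fun g => M g g)
    rw [h2, hM, zero_mul]
  · unfold Function.Injective at hs
    push Not at hs
    obtain ⟨g1, g2, h12, hne⟩ := hs
    rw [Finset.sum_eq_add g1 g2 hne]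
    · rw [← Finset.sum_add_distrib]
      refine Finset.sum_eq_zero fun g' _ => ?_
      have h3 : Function.update s g2 g' = Function.update s g1 g' ∘ Equiv.swap g1 g2 := by
        funext b
        simp only [Function.comp_apply, Equiv.swap_apply_def]
        split_ifs with h3 h4
        · rw [h3, Function.update_of_ne hne, Function.update_of_ne hne.symm, h12]
        · rw [h4, Function.update_self, Function.update_self]
        · rw [Function.update_of_ne h4, Function.update_of_ne h3]
      rw [h3, hw g1 g2 hne, h12]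
      ring
    · intro g _ hg
      refine Finset.sum_eq_zero fun g' _ => ?_
      rw [hz _ g1 g2 hne, mul_zero]
      rw [Function.update_of_ne hg.1.symm, Function.update_of_ne hg.2.symm, h12]
    · intro h
      exact absurd (Finset.mem_univ _) h
    · intro h
      exact absurd (Finset.mem_univ _) h

theorem form_of {κ : Type} {K G : κ → Type} [∀ k, Field (K k)] {y : LU K G} {g' : G y.1.1}
    {k : κ} {x : G k} {τ : K k →+* ℂ} (h : (⟨⟨y.1.1, g'⟩, y.2⟩ : LU K G) = ⟨⟨k, x⟩, τ⟩) :
    ∃ x' : G k, y = ⟨⟨k, x'⟩, τ⟩ := by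
  obtain ⟨⟨k0, g0⟩, τ0⟩ := y
  have h4 := congrArg Sigma.fst h
  have h5 : k0 = k := (Sigma.mk.inj h4).1
  subst h5
  have h6 : g' = x := eq_of_heq (Sigma.mk.inj h4).2
  subst h6
  have h7 : τ0 = τ := eq_of_heq (Sigma.mk.inj h).2
  subst h7
  exact ⟨g0, rfl⟩

section det

variable {κ : Type} {K G : κ → Type} [∀ k, Field (K k)] [∀ k, NumberField (K k)]
  [∀ k, Fintype (G k)] {r c : ℕ} (blk : Fin r → κ) (f : Two c ≃ Σ j, G (blk j))
  (v : (Two c → LC K G blk) → ℂ)

theorem detT_form [∀ k, Nonempty (G k)] (τ : ∀ j, K (blk j) →+* ℂ)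
    (s : ∀ i : Σ j, G (blk j), G (blk i.1)) :
    detT blk f v (fun i => ⟨⟨blk i.1, s i⟩, τ i.1⟩) =
      v fun a => ⟨⟨(f a).1, s (f a)⟩, τ (f a).1⟩ := by
  classical
  unfold detT
  rw [Finset.sum_eq_single τ]
  · rw [Finset.sum_eq_single s]
    · rw [if_pos rfl]
    · intro s' _ hs'
      rw [if_neg]
      intro h
      refine hs' (funext fun i => ?_)
      have h1 := congrFun h i
      have h2 := congrArg Sigma.fst h1
      exact (eq_of_heq (Sigma.mk.inj h2).2).symm
    · intro h
      exact absurd (Finset.mem_univ _) h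
  · intro τ' _ hτ'
    refine Finset.sum_eq_zero fun s' _ => ?_
    rw [if_neg]
    intro h
    refine hτ' (funext fun j => ?_)
    obtain ⟨g⟩ : Nonempty (G (blk j)) := inferInstance
    have h1 := congrFun h ⟨j, g⟩
    have h2 := congrArg Sigma.fst h1
    have h3 : s ⟨j, g⟩ = s' ⟨j, g⟩ := eq_of_heq (Sigma.mk.inj h2).2
    simp only at h1
    exact (eq_of_heq (Sigma.mk.inj h1).2).symm
  · intro h
    exact absurd (Finset.mem_univ _) h

theorem detT_not {t : (Σ j, G (blk j)) → LU K G}
    (h : ¬∃ (τ : ∀ j, K (blk j) →+* ℂ) (s : ∀ i : Σ j, G (blk j), G (blk i.1)),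
      t = fun i => ⟨⟨blk i.1, s i⟩, τ i.1⟩) : detT blk f v t = 0 := by
  unfold detT
  refine Finset.sum_eq_zero fun τ _ => Finset.sum_eq_zero fun s _ => ?_
  rw [if_neg]
  exact fun h1 => h ⟨τ, s, h1⟩

theorem detT_der [∀ k, Nonempty (G k)] [DecidableEq (Σ j, G (blk j))]
    (hv : ∀ a a' : Two c, a ≠ a' → ∀ t, v (t ∘ Equiv.swap a a') = -v t)
    (X : ∀ k, Matrix (G k) (G k) (K k)) (hX : ∀ k, (X k).trace = 0)
    (t : (Σ j, G (blk j)) → LU K G) :
    ∑ b, ∑ g' : G (t b).1.1, (t b).2 (X (t b).1.1 (t b).1.2 g') *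
      detT blk f v (Function.update t b ⟨⟨(t b).1.1, g'⟩, (t b).2⟩) = 0 := by
  classical
  by_cases ht : ∃ (τ : ∀ j, K (blk j) →+* ℂ) (s : ∀ i : Σ j, G (blk j), G (blk i.1)),
      t = fun i => ⟨⟨blk i.1, s i⟩, τ i.1⟩
  · obtain ⟨τ, s, rfl⟩ := ht
    have h1 : ∀ (b : Σ j, G (blk j)) (g' : G (blk b.1)),
        detT blk f v (Function.update (fun i : Σ j, G (blk j) =>
          (⟨⟨blk i.1, s i⟩, τ i.1⟩ : LU K G)) b ⟨⟨blk b.1, g'⟩, τ b.1⟩) =
        v fun a => ⟨⟨(f a).1, Function.update s b g' (f a)⟩, τ (f a).1⟩ := by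
      intro b g'
      rw [← detT_form blk f v τ (Function.update s b g')]
      congr 1
      funext i
      by_cases hi : i = b
      · subst hi
        rw [Function.update_self, Function.update_self]
      · rw [Function.update_of_ne hi, Function.update_of_ne hi]
    have h2 : ∑ b : Σ j, G (blk j), ∑ g' : G (blk b.1), τ b.1 (X (blk b.1) (s b) g') *
        v (fun a => ⟨⟨(f a).1, Function.update s b g' (f a)⟩, τ (f a).1⟩) = 0 := by
      rw [Fintype.sum_sigma]
      refine Finset.sum_eq_zero fun j _ => ?_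
      set σ : ∀ j, G (blk j) → G (blk j) := fun j g => s ⟨j, g⟩ with hσ
      set F : (G (blk j) → G (blk j)) → (Σ j, G (blk j)) → LC K G blk := fun s' i =>
        ⟨⟨i.1, Function.update σ j s' i.1 i.2⟩, τ i.1⟩ with hF
      have hFj : ∀ (s' : G (blk j) → G (blk j)) (x : G (blk j)),
          F s' ⟨j, x⟩ = ⟨⟨j, s' x⟩, τ j⟩ := by
        intro s' x
        show (⟨⟨j, Function.update σ j s' j x⟩, τ j⟩ : LC K G blk) = _
        rw [Function.update_self]
      have hFn : ∀ (s' : G (blk j) → G (blk j)) (j' : Fin r) (x : G (blk j')), j' ≠ j →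
          F s' ⟨j', x⟩ = ⟨⟨j', s ⟨j', x⟩⟩, τ j'⟩ := by
        intro s' j' x hj
        show (⟨⟨j', Function.update σ j s' j' x⟩, τ j'⟩ : LC K G blk) = _
        rw [Function.update_of_ne hj]
      have h3 : ∀ (g g' : G (blk j)),
          (fun a => (⟨⟨(f a).1, Function.update s ⟨j, g⟩ g' (f a)⟩, τ (f a).1⟩ : LC K G blk)) =
            fun a => F (Function.update (σ j) g g') (f a) := by
        intro g g'
        funext a
        generalize f a = i
        obtain ⟨j', x⟩ := i
        by_cases hj : j' = j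
        · subst hj
          rw [hFj]
          by_cases hx : x = g
          · subst hx
            rw [Function.update_self, Function.update_self]
          · rw [Function.update_of_ne hx, Function.update_of_ne]
            intro h
            exact hx (eq_of_heq (Sigma.mk.inj h).2)
        · rw [hFn _ _ _ hj, Function.update_of_ne]
          intro h
          exact hj (Sigma.mk.inj h).1
      have h4 := tr_zero (fun s' => v (fun a => F s' (f a))) (fun g1 g2 h12 s' => ?_)
        ((X (blk j)).map (τ j)) ?_ (σ j)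
      · refine Eq.trans ?_ h4
        refine Finset.sum_congr rfl fun g _ => Finset.sum_congr rfl fun g' _ => ?_
        simp only [h3]
        rfl
      · have h5 : (fun a => F (s' ∘ Equiv.swap g1 g2) (f a)) = (fun a => F s' (f a)) ∘
            Equiv.swap (f.symm ⟨j, g1⟩) (f.symm ⟨j, g2⟩) := by
          funext a
          simp only [Function.comp_apply]
          rw [← f.injective.swap_apply, f.apply_symm_apply, f.apply_symm_apply]
          generalize f a = i
          obtain ⟨j', x⟩ := i
          by_cases hj : j' = j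
          · subst hj
            have h6 : Equiv.swap (⟨j', g1⟩ : Σ j, G (blk j)) ⟨j', g2⟩ ⟨j', x⟩ =
                ⟨j', Equiv.swap g1 g2 x⟩ :=
              (sigma_mk_injective (β := fun j => G (blk j)) (i := j')).swap_apply g1 g2 x
            rw [h6, hFj, hFj]
            rfl
          · rw [Equiv.swap_apply_of_ne_of_ne, hFn _ _ _ hj, hFn _ _ _ hj]
            · intro h
              exact hj (Sigma.mk.inj h).1
            · intro h
              exact hj (Sigma.mk.inj h).1
        rw [h5]
        refine hv _ _ ?_ _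
        intro h
        have h6 := f.symm.injective h
        exact h12 (eq_of_heq (Sigma.mk.inj h6).2)
      · have h5 : ((X (blk j)).map (τ j)).trace = τ j ((X (blk j)).trace) := by
          unfold Matrix.trace
          rw [map_sum]
          rfl
        rw [h5, hX, map_zero]
    refine Eq.trans ?_ h2
    refine Finset.sum_congr rfl fun b _ => Finset.sum_congr rfl fun g' _ => ?_
    exact congrArg _ (h1 b g')
  · refine Finset.sum_eq_zero fun b _ => Finset.sum_eq_zero fun g' _ => ?_
    rw [detT_not, mul_zero]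
    rintro ⟨τ, s, h⟩
    refine ht ⟨τ, ?_⟩
    have h1 := congrFun h b
    rw [Function.update_self] at h1
    obtain ⟨x', hx'⟩ := form_of h1
    refine ⟨Function.update s b x', ?_⟩
    funext i
    by_cases hi : i = b
    · subst hi
      rw [Function.update_self]
      exact hx'
    · rw [Function.update_of_ne hi]
      have h2 := congrFun h i
      rw [Function.update_of_ne hi] at h2
      exact h2

end det

/-- The pairings. -/
theorem pair_der {κ : Type} {K G : κ → Type} [∀ k, Field (K k)] [∀ k, Fintype (G k)]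
    {h : ∀ k, G k → K k} (hh : ∀ k g, h k g ≠ 0) (l : ∀ k, K k)
    {X : ∀ k, Matrix (G k) (G k) (K k)} (hX : IsSU h X) (y0 y1 : LU K G) :
    (∑ g' : G y0.1.1, y0.2 (X y0.1.1 y0.1.2 g') * pair h l ⟨⟨y0.1.1, g'⟩, y0.2⟩ y1) +
      ∑ g' : G y1.1.1, y1.2 (X y1.1.1 y1.1.2 g') * pair h l y0 ⟨⟨y1.1.1, g'⟩, y1.2⟩ = 0 := by
  classical
  obtain ⟨⟨k, g⟩, τ⟩ := y0
  by_cases hy : ∃ g1 : G k, y1 = ⟨⟨k, g1⟩, cj τ⟩
  · obtain ⟨g1, rfl⟩ := hy
    have e1 : ∑ g' : G k, τ (X k g g') *
        pair h l ⟨⟨k, g'⟩, τ⟩ ⟨⟨k, g1⟩, cj τ⟩ = τ (X k g g1) * τ (l k / h k g1) := by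
      rw [Finset.sum_eq_single g1]
      · unfold pair
        rw [if_pos rfl]
      · intro g' _ hg'
        unfold pair
        rw [if_neg, mul_zero]
        intro h1
        have h2 := congrArg Sigma.fst h1
        exact hg' (eq_of_heq (Sigma.mk.inj h2).2).symm
      · intro h1
        exact absurd (Finset.mem_univ _) h1
    have e2 : ∑ g' : G k, cj τ (X k g1 g') *
        pair h l ⟨⟨k, g⟩, τ⟩ ⟨⟨k, g'⟩, cj τ⟩ = conj (τ (X k g1 g)) * τ (l k / h k g) := by
      rw [Finset.sum_eq_single g]
      · unfold pair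
        rw [if_pos rfl]
        rfl
      · intro g' _ hg'
        unfold pair
        rw [if_neg, mul_zero]
        intro h1
        have h2 := congrArg Sigma.fst h1
        exact hg' (eq_of_heq (Sigma.mk.inj h2).2)
      · intro h1
        exact absurd (Finset.mem_univ _) h1
    refine (congrArg₂ (· + ·) e1 e2).trans ?_
    have h1 := (hX k).2 τ g g1
    have n1 : τ (h k g) ≠ 0 := (map_ne_zero τ).mpr (hh k g)
    have n2 : τ (h k g1) ≠ 0 := (map_ne_zero τ).mpr (hh k g1)
    rw [map_div₀, map_div₀]
    rw [map_mul] at h1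
    field_simp
    linear_combination τ (l k) * h1
  · push Not at hy
    have e1 : ∑ g' : G k, τ (X k g g') * pair h l ⟨⟨k, g'⟩, τ⟩ y1 = 0 := by
      refine Finset.sum_eq_zero fun g' _ => ?_
      unfold pair
      rw [if_neg, mul_zero]
      exact hy g'
    have e2 : ∑ g' : G y1.1.1, y1.2 (X y1.1.1 y1.1.2 g') *
        pair h l ⟨⟨k, g⟩, τ⟩ ⟨⟨y1.1.1, g'⟩, y1.2⟩ = 0 := by
      refine Finset.sum_eq_zero fun g' _ => ?_
      unfold pair
      rw [if_neg, mul_zero]
      intro h1
      obtain ⟨x', hx'⟩ := form_of h1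
      exact hy x' hx'
    refine (congrArg₂ (· + ·) e1 e2).trans ?_
    rw [add_zero]

end ULx

open ULx in
theorem uL : UL := by
  classical
  intro κ _ K G _ _ _ _ _ Φ h hh n u hu X hX
  obtain ⟨d, r, c, blk, f, e, l, v, hv, hu⟩ := hu
  have hv' := fun a a' haa t => ant_VOk hv a a' haa t
  funext t
  rw [der_apply, ← e.sum_comp, Fintype.sum_sum_type, Fintype.sum_prod_type]
  have hR : ∀ b : Σ j, G (blk j), ∀ y : LU K G, u (Function.update t (e (Sum.inr b)) y) =
      (∏ i, pair h (l i) (t (e (Sum.inl (i, 0)))) (t (e (Sum.inl (i, 1))))) *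
        detT blk f v (Function.update (fun i => t (e (Sum.inr i))) b y) := by
    intro b y
    rw [hu]
    congr 1
    · refine Finset.prod_congr rfl fun i _ => ?_
      rw [Function.update_of_ne, Function.update_of_ne]
      · exact fun h1 => by simpa using e.injective h1
      · exact fun h1 => by simpa using e.injective h1
    · congr 1
      funext i
      by_cases hi : i = b
      · subst hi
        rw [Function.update_self, Function.update_self]
      · rw [Function.update_of_ne hi, Function.update_of_ne]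
        exact fun h1 => hi (by simpa using e.injective h1)
  have hB : ∀ (x : Fin d × Fin 2) (y : LU K G),
      detT blk f v (fun i => Function.update t (e (Sum.inl x)) y (e (Sum.inr i))) =
        detT blk f v (fun i => t (e (Sum.inr i))) := by
    intro x y
    congr 1
    funext i
    rw [Function.update_of_ne]
    exact fun h1 => by simpa using e.injective h1
  have hE : ∀ (i : Fin d) (a : Fin 2) (y : LU K G), ∀ i' ∈ Finset.univ.erase i,
      pair h (l i') (Function.update t (e (Sum.inl (i, a))) y (e (Sum.inl (i', 0))))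
        (Function.update t (e (Sum.inl (i, a))) y (e (Sum.inl (i', 1)))) =
      pair h (l i') (t (e (Sum.inl (i', 0)))) (t (e (Sum.inl (i', 1)))) := by
    intro i a y i' hi'
    have hne : i' ≠ i := Finset.ne_of_mem_erase hi'
    rw [Function.update_of_ne, Function.update_of_ne]
    · exact fun h1 => hne (Prod.ext_iff.mp (Sum.inl_injective (e.injective h1))).1
    · exact fun h1 => hne (Prod.ext_iff.mp (Sum.inl_injective (e.injective h1))).1
  have h0 : ∀ (i : Fin d) (y : LU K G), u (Function.update t (e (Sum.inl (i, 0))) y) =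
      pair h (l i) y (t (e (Sum.inl (i, 1)))) *
        ((∏ i' ∈ Finset.univ.erase i, pair h (l i') (t (e (Sum.inl (i', 0))))
          (t (e (Sum.inl (i', 1))))) * detT blk f v (fun i => t (e (Sum.inr i)))) := by
    intro i y
    rw [hu, hB, ← mul_assoc, ← Finset.mul_prod_erase _ _ (Finset.mem_univ i)]
    congr 2
    · rw [Function.update_self, Function.update_of_ne]
      exact fun h1 => by simpa using e.injective h1
    · exact Finset.prod_congr rfl (hE i 0 y)
  have h1 : ∀ (i : Fin d) (y : LU K G), u (Function.update t (e (Sum.inl (i, 1))) y) =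
      pair h (l i) (t (e (Sum.inl (i, 0)))) y *
        ((∏ i' ∈ Finset.univ.erase i, pair h (l i') (t (e (Sum.inl (i', 0))))
          (t (e (Sum.inl (i', 1))))) * detT blk f v (fun i => t (e (Sum.inr i)))) := by
    intro i y
    rw [hu, hB, ← mul_assoc, ← Finset.mul_prod_erase _ _ (Finset.mem_univ i)]
    congr 2
    · rw [Function.update_self, Function.update_of_ne]
      exact fun h1 => by simpa using e.injective h1
    · exact Finset.prod_congr rfl (hE i 1 y)
  have hI : ∑ b : Σ j, G (blk j), ∑ g' : G (t (e (Sum.inr b))).1.1,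
      (t (e (Sum.inr b))).2 (X (t (e (Sum.inr b))).1.1 (t (e (Sum.inr b))).1.2 g') *
        u (Function.update t (e (Sum.inr b)) ⟨⟨(t (e (Sum.inr b))).1.1, g'⟩,
          (t (e (Sum.inr b))).2⟩) = 0 := by
    have h2 := detT_der blk f v hv' X (fun k => (hX k).1) (fun i => t (e (Sum.inr i)))
    rw [← mul_zero (∏ i, pair h (l i) (t (e (Sum.inl (i, 0)))) (t (e (Sum.inl (i, 1))))), ← h2,
      Finset.mul_sum]
    refine Finset.sum_congr rfl fun b _ => ?_
    rw [Finset.mul_sum]
    refine Finset.sum_congr rfl fun g' _ => ?_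
    rw [hR]
    ring
  rw [hI, add_zero]
  refine Finset.sum_eq_zero fun i _ => ?_
  rw [Fin.sum_univ_two]
  simp only [h0, h1]
  simp only [← mul_assoc]
  simp only [← Finset.sum_mul]
  rw [← add_mul, ← add_mul, pair_der (fun k g => (hh k g).1) (l i) hX, zero_mul, zero_mul]

end

end Pool.Agent.UNIT
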