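import Pool.Agent.Lib.UNIT.UB
import Pool.Agent.Lib.UNIT.UC
import Pool.Agent.Lib.UNIT.UD
import Pool.Agent.Lib.UNIT.UF
import Pool.Agent.Lib.UNIT.UG
import Pool.Agent.Lib.UNIT.UH
import Pool.Agent.Lib.UNIT.UI
import Pool.Agent.Lib.UNIT.UJ
import Pool.Agent.Lib.UNIT.UK
import Pool.Agent.Lib.UNIT.UL
import Pool.Agent.Lib.UNIT.UM
import Pool.Agent.Lib.UNIT.UO
import Pool.Agent.Lib.UNIT.UP
import Pool.Agent.Lib.RAT.Fin

/-!
# UNIT: final assembly (helper16)
-/

set_option autoImplicit false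

open Pool.Agent.HCM Pool.Agent.RAT

namespace Pool.Agent.UNIT

theorem uF : UF := uf_of hodgeQ

/-- **The Tate conjecture for powers of abelian varieties with factors of unitary and of CM type**, up
to `K`-determinants. -/
theorem tateU : TateU :=
  up (uo ub uc ud (uH uF uG) ui uj uk) uL um

end Pool.Agent.UNIT
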