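import Mathlib

/-!
# Functions on a product all of whose sections lie in given subspaces (helper16)
-/

set_option autoImplicit false

open Function

namespace Pool.Agent.UNIT

noncomputable section

/-- A subspace of functions on a finite set is the image of a projection, given by a matrix whose
columns lie in the subspace. -/
theorem exists_proj {Y : Type} [Fintype Y] (A : Submodule ℂ (Y → ℂ)) :
    ∃ q : Y → Y → ℂ, (∀ y', (fun y => q y y') ∈ A) ∧
      ∀ φ ∈ A, ∀ y, ∑ y', q y y' * φ y' = φ y := by
  classical
  obtain ⟨B, hB⟩ := Submodule.exists_isCompl A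
  let π : (Y → ℂ) →ₗ[ℂ] A := Submodule.projectionOnto A B hB
  refine ⟨fun y y' => (π (Pi.single y' 1) : Y → ℂ) y, fun y' => (π (Pi.single y' 1)).2, ?_⟩
  intro φ hφ y
  have h1 : π φ = ⟨φ, hφ⟩ := Submodule.projectionOnto_apply_left hB ⟨φ, hφ⟩
  have h2 : φ = ∑ y', φ y' • (Pi.single y' (1 : ℂ) : Y → ℂ) := by
    ext y
    simp [Finset.sum_apply, Pi.single_apply]
  have h3 : ((π φ : A) : Y → ℂ) y = ∑ y', φ y' * (π (Pi.single y' 1) : Y → ℂ) y := by
    conv_lhs => rw [h2]
    rw [map_sum]
    simp [Finset.sum_apply]
  rw [h1] at h3
  rw [show φ y = ((⟨φ, hφ⟩ : A) : Y → ℂ) y from rfl, h3]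
  exact Finset.sum_congr rfl fun y' _ => mul_comm _ _

/-- If all sections of `f` in the direction `b` lie in `A b`, for all `b`, then `f` is in the span of
the products of functions in the `A b`. -/
theorem mem_span_prod {B : Type} [Fintype B] [DecidableEq B] (X : B → Type) [∀ b, Fintype (X b)]
    (A : ∀ b, Submodule ℂ (X b → ℂ)) (f : (∀ b, X b) → ℂ)
    (h : ∀ b x, (fun y : X b => f (update x b y)) ∈ A b) :
    f ∈ Submodule.span ℂ {F | ∃ φ : ∀ b, X b → ℂ, (∀ b, φ b ∈ A b) ∧
      F = fun x => ∏ b, φ b (x b)} := by
  classical
  choose q hq1 hq2 using fun b => exists_proj (A b)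
  have key : ∀ (s : Finset B) (x : ∀ b, X b),
      ∑ x' : ∀ b, X b, (∏ b, if b ∈ s then q b (x b) (x' b) else if x b = x' b then 1 else 0) *
        f x' = f x := by
    intro s
    induction s using Finset.induction_on with
    | empty =>
      intro x
      rw [Finset.sum_eq_single x]
      · simp
      · intro x' _ hx'
        obtain ⟨b, hb⟩ := Function.ne_iff.mp hx'
        rw [Finset.prod_eq_zero (Finset.mem_univ b), zero_mul]
        simp [Ne.symm hb]
      · intro hx
        exact absurd (Finset.mem_univ x) hx
    | insert c s hc ih =>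
      intro x
      have h1 : ∀ x' : ∀ b, X b,
          (∏ b, if b ∈ insert c s then q b (x b) (x' b) else if x b = x' b then 1 else 0) =
          ∑ y, q c (x c) y * ∏ b, (if b ∈ s then q b (update x c y b) (x' b) else
            if update x c y b = x' b then 1 else 0) := by
        intro x'
        rw [Finset.sum_eq_single (x' c)]
        · rw [← Finset.mul_prod_erase _ _ (Finset.mem_univ c),
            ← Finset.mul_prod_erase Finset.univ (fun b => if b ∈ s then
              q b (update x c (x' c) b) (x' b) else if update x c (x' c) b = x' b then (1 : ℂ)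
              else 0) (Finset.mem_univ c)]
          rw [if_pos (Finset.mem_insert_self c s), if_neg hc, update_self, if_pos rfl, one_mul]
          congr 1
          refine Finset.prod_congr rfl fun b hb => ?_
          have hbc : b ≠ c := Finset.ne_of_mem_erase hb
          rw [update_of_ne hbc]
          simp [Finset.mem_insert, hbc]
        · intro y _ hy
          rw [Finset.prod_eq_zero (Finset.mem_univ c), mul_zero]
          rw [if_neg hc, update_self, if_neg hy]
        · intro hx
          exact absurd (Finset.mem_univ _) hx
      simp only [h1, Finset.sum_mul]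
      rw [Finset.sum_comm]
      have h2 : ∀ y, ∑ x' : ∀ b, X b, q c (x c) y * (∏ b, (if b ∈ s then
          q b (update x c y b) (x' b) else if update x c y b = x' b then 1 else 0)) * f x' =
          q c (x c) y * f (update x c y) := by
        intro y
        rw [← ih (update x c y), Finset.mul_sum]
        exact Finset.sum_congr rfl fun x' _ => mul_assoc _ _ _
      rw [Finset.sum_congr rfl fun y _ => h2 y, hq2 c _ (h c x) (x c), update_eq_self]
  have h0 : f = ∑ x' : ∀ b, X b, f x' • fun x : ∀ b, X b => ∏ b, q b (x b) (x' b) := by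
    ext x
    rw [← key Finset.univ x, Finset.sum_apply]
    refine Finset.sum_congr rfl fun x' _ => ?_
    simp [mul_comm]
  rw [h0]
  exact Submodule.sum_mem _ fun x' _ => Submodule.smul_mem _ _
    (Submodule.subset_span ⟨fun b y => q b y (x' b), fun b => hq1 b (x' b), rfl⟩)

end

end Pool.Agent.UNIT
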