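import Pool.Agent.Lib.UNIT.Basic

/-!
# The Tate conjecture for powers of abelian varieties with unitary factors: statement, short form

The same statement as `Pool.Agent.UNIT.TateU`, with the same operators and tensors, written with
smaller pieces: a letter `y = (k, g, τ)` has the block `bl y = k`, the place `pl y = g` and the
embedding `ev y = τ`.
-/

set_option autoImplicit false

open scoped TensorProduct ComplexConjugate
open Complex Pool.Agent.HCM Pool.Agent.RAT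

namespace Pool.Agent.UNIT

noncomputable section

section letters

variable {κ : Type} {K G : κ → Type} [∀ k, Field (K k)]

/-- The block `k` of the letter `(k, g, τ)`. -/
def bl (y : LU K G) : κ := y.1.1

/-- The place `g` of the letter `(k, g, τ)`. -/
def pl (y : LU K G) : G (bl y) := y.1.2

/-- The embedding `τ` of the letter `(k, g, τ)`. -/
def ev (y : LU K G) (x : K (bl y)) : ℂ := y.2 x

/-- The letter `(k, g, conj τ)`. -/
def cjL (y : LU K G) : LU K G := ⟨y.1, cj y.2⟩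

/-- The letter `(k, g', τ)`. -/
def mv (y : LU K G) (g' : G (bl y)) : LU K G := ⟨⟨y.1.1, g'⟩, y.2⟩

end letters

section tensors

variable {κ : Type} {K G : κ → Type} [∀ k, Field (K k)] {T : Type} [Fintype T]

/-- Multiplication by `z k` on `A k`, acting on tensors. -/
def sclU (z : ∀ k, K k) (u : (T → LU K G) → ℂ) (t : T → LU K G) : ℂ :=
  (∏ a, ev (t a) (z (bl (t a)))) * u t

theorem sclU_add (z : ∀ k, K k) (u v : (T → LU K G) → ℂ) :
    sclU z (u + v) = sclU z u + sclU z v := by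
  funext t
  simp only [sclU, Pi.add_apply, mul_add]

theorem sclU_smul (z : ∀ k, K k) (q : ℚ) (u : (T → LU K G) → ℂ) :
    sclU z (q • u) = q • sclU z u := by
  funext t
  simp only [sclU, Pi.smul_apply, mul_smul_comm]

/-- `sclU` as a linear map. -/
def sclL (z : ∀ k, K k) : ((T → LU K G) → ℂ) →ₗ[ℚ] ((T → LU K G) → ℂ) where
  toFun := sclU z
  map_add' := sclU_add z
  map_smul' := sclU_smul z

variable [∀ k, Fintype (G k)] [DecidableEq T]

/-- The endomorphism `X` of `H_1(X, ℚ)`, acting on tensors as a derivation. -/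
def derU (X : ∀ k, Matrix (G k) (G k) (K k)) (u : (T → LU K G) → ℂ) (t : T → LU K G) : ℂ :=
  ∑ a, ∑ g', ev (t a) (X _ (pl (t a)) g') * u (Function.update t a (mv (t a) g'))

theorem derU_add (X : ∀ k, Matrix (G k) (G k) (K k)) (u v : (T → LU K G) → ℂ) :
    derU X (u + v) = derU X u + derU X v := by
  funext t
  simp only [derU, Pi.add_apply, mul_add, Finset.sum_add_distrib]

theorem derU_smul (X : ∀ k, Matrix (G k) (G k) (K k)) (q : ℚ) (u : (T → LU K G) → ℂ) :
    derU X (q • u) = q • derU X u := by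
  funext t
  simp only [derU, Pi.smul_apply, mul_smul_comm, Finset.smul_sum]

/-- `derU` as a linear map. -/
def derL (X : ∀ k, Matrix (G k) (G k) (K k)) : ((T → LU K G) → ℂ) →ₗ[ℚ] ((T → LU K G) → ℂ) where
  toFun := derU X
  map_add' := derU_add X
  map_smul' := derU_smul X

end tensors

section padic

variable {κ : Type} {K G : κ → Type} [∀ k, Field (K k)] (p : ℕ) [Fact p.Prime] {T : Type}
  [Fintype T]

/-- `X` kills `c`. -/
def KillsP [∀ k, Fintype (G k)] [DecidableEq T] (X : ∀ k, Matrix (G k) (G k) (K k))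
    (c : ℚ_[p] ⊗[ℚ] ((T → LU K G) → ℂ)) : Prop := (derL X).baseChange ℚ_[p] c = 0

/-- Multiplication by `z k` on `A k` acts on `c` by `q`. -/
def ActsP (z : ∀ k, K k) (q : ℚ) (c : ℚ_[p] ⊗[ℚ] ((T → LU K G) → ℂ)) : Prop :=
  (sclL z).baseChange ℚ_[p] c = (q : ℚ_[p]) • c

/-- Tate classes in `H_1(X, ℚ_p)^{⊗ 2n}` (`N = e k * card (G k)` for all `k`): the Lie algebras
`𝔰𝔲(h k)` kill `c`, and, for some `m`, for every `x ∈ 𝓞 E` with `x ≡ 1 mod p^m` the multiplication
by the `e k`-th power of the product over `g : G k` of the reflex norms `z (k, g)` of `x` acts on `c`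
by the `nN`-th power of the norm of `x`. -/
def IsTateL [∀ k, Fintype (G k)] {n : ℕ} {E : Type} [Field E] [NumberField E]
    (Φ : ∀ i : Σ k, G k, Set (K i.1 →+* ℂ))
    (h : ∀ k, G k → K k) (N : ℕ) (e : κ → ℕ) (j : ∀ k, K k →+* E) (τ₀ : E →+* ℂ)
    (c : ℚ_[p] ⊗[ℚ] ((Fin (2 * n) → LU K G) → ℂ)) : Prop :=
  (∀ X : ∀ k, Matrix (G k) (G k) (K k), IsSU h X → KillsP p X c) ∧
  ∃ m : ℕ, ∀ y : E, IsIntegral ℤ y → ∀ z : ∀ i : Σ k, G k, K i.1,
    IsReflexNorm Φ (fun i => j i.1) τ₀ (1 + (p : E) ^ m * y) z →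
      ActsP p (fun k => (∏ g, z ⟨k, g⟩) ^ e k)
        (Algebra.norm ℚ (1 + (p : E) ^ m * y) ^ (n * N)) c

end padic

section products

variable {κ : Type} {K G : κ → Type} [∀ k, Field (K k)]

open Classical in
/-- The rational tensor of type `(1,1)` dual to the hermitian forms `h k`, twisted by `l k ∈ K k`. -/
def pairL (h : ∀ k, G k → K k) (l : ∀ k, K k) (y y' : LU K G) : ℂ :=
  if y' = cjL y then ev y (l (bl y) / h (bl y) (pl y)) else 0

/-- `u` is, up to the order of the factors, the tensor product of `d` rational tensors of type `(1,1)`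
in `H_1 ⊗ H_1` and of the transfer of a class `v` of degree `2c` on a CM abelian variety, a
combination of classes of maps from compact arithmetic quotients of the `c`-ball (a rational number
for `c = 0`). -/
def IsProdL [∀ k, Fintype (G k)] [∀ k, NumberField (K k)]
    (Φ : ∀ i : Σ k, G k, Set (K i.1 →+* ℂ)) (h : ∀ k, G k → K k) (n : ℕ)
    (u : (Fin (2 * n) → LU K G) → ℂ) : Prop :=
  ∃ (d r c : ℕ) (blk : Fin r → κ) (f : Two c ≃ Σ j, G (blk j))
    (e : (Fin d × Fin 2) ⊕ (Σ j, G (blk j)) ≃ Fin (2 * n)) (l : Fin d → ∀ k, K k)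
    (v : (Two c → LC K G blk) → ℂ),
    ((c = 0 ∧ ∃ q : ℚ, ∀ t, v t = q) ∨
      (0 < c ∧ IsBallQ (fun i : Σ j, G (blk j) => Φ ⟨blk i.1, i.2⟩) v)) ∧
    ∀ t, u t = (∏ i, pairL h (l i) (t (e (Sum.inl (i, 0)))) (t (e (Sum.inl (i, 1))))) *
      detT blk f v fun i => t (e (Sum.inr i))

/-- `c` lies in `H_1(X, ℚ_p)^{⊗ 2n}`. -/
def IsTensP (p : ℕ) [Fact p.Prime] {n : ℕ} (c : ℚ_[p] ⊗[ℚ] ((Fin (2 * n) → LU K G) → ℂ)) :
    Prop := c ∈ (TQ K G (Fin (2 * n))).baseChange ℚ_[p]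

/-- `c` is a combination, with coefficients in `ℚ_p`, of the products `IsProdL`. -/
def IsAlgP (p : ℕ) [Fact p.Prime] [∀ k, Fintype (G k)] [∀ k, NumberField (K k)]
    (Φ : ∀ i : Σ k, G k, Set (K i.1 →+* ℂ)) (h : ∀ k, G k → K k) {n : ℕ}
    (c : ℚ_[p] ⊗[ℚ] ((Fin (2 * n) → LU K G) → ℂ)) : Prop :=
  c ∈ Submodule.span ℚ_[p] {w | ∃ u, IsProdL Φ h n u ∧ w = (1 : ℚ_[p]) ⊗ₜ[ℚ] u}

end products

section compare

variable {κ : Type} {K G : κ → Type} [∀ k, Field (K k)]

theorem sclL_eq {T : Type} [Fintype T] (z : ∀ k, K k) :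
    (sclL z : ((T → LU K G) → ℂ) →ₗ[ℚ] ((T → LU K G) → ℂ)) = scl z := by
  ext u t
  rw [scl_apply]
  rfl

theorem derL_eq {T : Type} [Fintype T] [DecidableEq T] [Fintype κ] [∀ k, NumberField (K k)]
    [∀ k, Fintype (G k)] (X : ∀ k, Matrix (G k) (G k) (K k)) :
    (derL X : ((T → LU K G) → ℂ) →ₗ[ℚ] ((T → LU K G) → ℂ)) = der X := by
  ext u t
  rw [der_apply]
  rfl

theorem isTateL_iff (p : ℕ) [Fact p.Prime] [Fintype κ] [∀ k, NumberField (K k)]
    [∀ k, Fintype (G k)] {n : ℕ} {E : Type} [Field E] [NumberField E]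
    (Φ : ∀ i : Σ k, G k, Set (K i.1 →+* ℂ)) (h : ∀ k, G k → K k) (N : ℕ) (e : κ → ℕ)
    (j : ∀ k, K k →+* E) (τ₀ : E →+* ℂ) (c : ℚ_[p] ⊗[ℚ] ((Fin (2 * n) → LU K G) → ℂ)) :
    IsTateL p Φ h N e j τ₀ c ↔ IsTateU p Φ h N e j τ₀ c := by
  unfold IsTateL IsTateU KillsP ActsP
  simp only [sclL_eq, derL_eq]

theorem isProdL_iff [∀ k, Fintype (G k)] [∀ k, NumberField (K k)]
    (Φ : ∀ i : Σ k, G k, Set (K i.1 →+* ℂ)) (h : ∀ k, G k → K k) (n : ℕ)
    (u : (Fin (2 * n) → LU K G) → ℂ) : IsProdL Φ h n u ↔ IsProdU Φ h n u := Iff.rfl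

end compare

/-- **The Tate conjecture for powers of `X`**, up to `K`-determinants: the Tate classes in
`H_1(X, ℚ_p)^{⊗ 2n}` are the `ℚ_p`-linear combinations of the products of divisor classes and of
transfers of classes of maps from compact arithmetic ball quotients to CM abelian varieties. -/
theorem tateL (hT : TateU) (p : ℕ) [Fact p.Prime] (n : ℕ) (κ : Type) [Fintype κ]
    (K G : κ → Type) [∀ k, Field (K k)]
    [∀ k, NumberField (K k)] [∀ k, NumberField.IsCMField (K k)] [∀ k, Fintype (G k)]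
    [∀ k, Nonempty (G k)] (Φ : ∀ i : Σ k, G k, Set (K i.1 →+* ℂ)) (hΦ : ∀ i, IsCMType (Φ i))
    (h : ∀ k, G k → K k) (hh : ∀ k g, h k g ≠ 0 ∧ ∀ τ : K k →+* ℂ, (τ (h k g)).im = 0)
    (N : ℕ) (e : κ → ℕ) (hN : 0 < N) (he : ∀ k, e k * Fintype.card (G k) = N)
    (E : Type) [Field E] [NumberField E] [IsGalois ℚ E] (j : ∀ k, K k →+* E) (τ₀ : E →+* ℂ)
    (c : ℚ_[p] ⊗[ℚ] ((Fin (2 * n) → LU K G) → ℂ))
    (hc : IsTensP p c) : IsTateL p Φ h N e j τ₀ c ↔ IsAlgP p Φ h c :=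
  (isTateL_iff p Φ h N e j τ₀ c).trans (hT p n κ K G Φ hΦ h hh N e hN he E j τ₀ c hc)

end

end Pool.Agent.UNIT
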