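import Pool.Agent.Lib.RAT.GQ
import Pool.Agent.Lib.HCM.TateDefs

/-!
# The Tate conjecture for powers of abelian varieties with unitary factors: statement

`K k`, `k : κ`, are finitely many CM fields, `G k` finite nonempty sets.  `X = ∏ k, A k` is an abelian
variety, `A k` has multiplication by `K k` and `H_1(A k, ℚ) = (K k)^(G k)`, with the polarisation given
by the hermitian form `∑ g, h k g * x g * conj (y g)`; if `G k` has one element, `A k` is of CM type.
For an embedding `τ : K k → ℂ` the part of `H_1(A k, ℂ)` on which `K k` acts by `τ` has the basis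
`(k, g, τ)`, `g : G k`, and is of type `(1,0)^a + (0,1)^b`, `a` the number of the `g` with
`τ ∈ Φ (k, g)`.

The element `(k, g, τ)` of `Idx` (a letter) is the linear form `x ↦ τ (x (k, g))` on `H_1(X, ℂ)`, and
an element of `H_1(X, ℂ)^{⊗ m}`, that is a class in the Künneth component `⊗ H_1` of
`H_m(X^m, ℂ)`, is given by its values on the words of `m` letters.
-/

set_option autoImplicit false

open scoped TensorProduct ComplexConjugate
open Complex Pool.Agent.HCM Pool.Agent.RAT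

namespace Pool.Agent.UNIT

noncomputable section

/-- The letters `(k, g, τ)`. -/
abbrev LU {κ : Type} (K G : κ → Type) [∀ k, Field (K k)] : Type :=
  Idx fun i : Σ k, G k => K i.1

section tensors

variable {κ : Type} {K G : κ → Type} [∀ k, Field (K k)] {T : Type} [Fintype T]

/-- The tensor `⨂ a, x a` of elements `x a` of `H_1(X, ℚ) = ∏ k, (K k)^(G k)`. -/
def tens (x : T → ∀ i : Σ k, G k, K i.1) (t : T → LU K G) : ℂ := ∏ a, (t a).2 (x a (t a).1)

variable (K G T) in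
/-- `H_1(X, ℚ)^{⊗ T}`. -/
def TQ : Submodule ℚ ((T → LU K G) → ℂ) := Submodule.span ℚ (Set.range tens)

/-- Multiplication by `z k` on `A k`, acting on tensors. -/
def scl (z : ∀ k, K k) : ((T → LU K G) → ℂ) →ₗ[ℚ] ((T → LU K G) → ℂ) :=
  LinearMap.mulLeft ℚ fun t => ∏ a, (t a).2 (z (t a).1.1)

open Classical in
/-- The endomorphism `X` of `H_1(X, ℚ)`, acting on tensors as a derivation: `(X u) t` is the sum, over
the places `a` and the `g'`, of `τ (X k g g') * u (t')`, where `t a = (k, g, τ)` and `t'` is the word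
`t` with `(k, g', τ)` at the place `a`. -/
def der [Fintype κ] [∀ k, NumberField (K k)] [∀ k, Fintype (G k)] [DecidableEq T]
    (X : ∀ k, Matrix (G k) (G k) (K k)) : ((T → LU K G) → ℂ) →ₗ[ℚ] ((T → LU K G) → ℂ) :=
  ∑ a : T, ∑ y : LU K G, ∑ g' : G y.1.1,
    (LinearMap.mulLeft ℚ fun t => if t a = y then y.2 (X y.1.1 y.1.2 g') else 0) ∘ₗ
      LinearMap.funLeft ℚ ℂ fun t => Function.update t a ⟨⟨y.1.1, g'⟩, y.2⟩

/-- `X` lies in the product of the Lie algebras `𝔰𝔲` of the hermitian forms `h k`. -/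
def IsSU [∀ k, Fintype (G k)] (h : ∀ k, G k → K k) (X : ∀ k, Matrix (G k) (G k) (K k)) : Prop :=
  ∀ k, (X k).trace = 0 ∧ ∀ (τ : K k →+* ℂ) (g g' : G k),
    τ (h k g * X k g g') + conj (τ (X k g' g)) * τ (h k g') = 0

/-- Tate classes in `H_1(X, ℚ_p)^{⊗ 2n}` (`N = e k * card (G k)` for all `k`): the Lie algebras
`𝔰𝔲(h k)` kill `c`, and, for some `m`, for every `x ∈ 𝓞 E` with `x ≡ 1 mod p^m` the multiplication
by the `e k`-th power of the product over `g : G k` of the reflex norms `z (k, g)` of `x` acts on `c`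
by the `nN`-th power of the norm of `x`. -/
def IsTateU (p : ℕ) [Fact p.Prime] [Fintype κ] [∀ k, NumberField (K k)] [∀ k, Fintype (G k)]
    {n : ℕ} {E : Type} [Field E] [NumberField E] (Φ : ∀ i : Σ k, G k, Set (K i.1 →+* ℂ))
    (h : ∀ k, G k → K k) (N : ℕ) (e : κ → ℕ) (j : ∀ k, K k →+* E) (τ₀ : E →+* ℂ)
    (c : ℚ_[p] ⊗[ℚ] ((Fin (2 * n) → LU K G) → ℂ)) : Prop :=
  (∀ X : ∀ k, Matrix (G k) (G k) (K k), IsSU h X → (der X).baseChange ℚ_[p] c = 0) ∧
  ∃ m : ℕ, ∀ y : E, IsIntegral ℤ y → ∀ z : ∀ i : Σ k, G k, K i.1,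
    IsReflexNorm Φ (fun i => j i.1) τ₀ (1 + (p : E) ^ m * y) z →
      (scl fun k => (∏ g, z ⟨k, g⟩) ^ e k).baseChange ℚ_[p] c =
        ((Algebra.norm ℚ (1 + (p : E) ^ m * y) ^ (n * N) : ℚ) : ℚ_[p]) • c

end tensors

section products

variable {κ : Type} {K G : κ → Type} [∀ k, Field (K k)]

open Classical in
/-- The rational tensor of type `(1,1)` dual to the hermitian forms `h k`, twisted by `l k ∈ K k`. -/
def pair (h : ∀ k, G k → K k) (l : ∀ k, K k) (y y' : LU K G) : ℂ :=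
  if y' = ⟨y.1, cj y.2⟩ then y.2 (l y.1.1 / h y.1.1 y.1.2) else 0

/-- The letters of the CM abelian variety `∏ j : Fin r, ∏ g : G (blk j), ℂ^(Φ (blk j, g)) / 𝓞`. -/
abbrev LC {κ : Type} (K G : κ → Type) [∀ k, Field (K k)] {r : ℕ} (blk : Fin r → κ) : Type :=
  Idx fun i : Σ j, G (blk j) => K (blk i.1)

open Classical in
/-- Let the places of a word be the pairs `(j, g)`, `g : G (blk j)`.  The `K`-determinants
`Λ^{card G} H_1(∏ g, ℂ^(Φ (k, g)) / 𝓞) = Λ^{card G} H_1(A k)`, `k = blk j`, over `K k`, transfer `v`,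
a class on the CM abelian variety, to `H_1(X)`: the value of the word `t` is
`v (((j, s (j, g)), τ j))_(j, g)` if `t (j, g) = (blk j, s (j, g), τ j)` for all places `(j, g)`, with
one embedding `τ j` for each `j`, and zero if `t` is not of this form. -/
def detT [∀ k, Fintype (G k)] [∀ k, NumberField (K k)] {r c : ℕ} (blk : Fin r → κ)
    (f : Two c ≃ Σ j, G (blk j)) (v : (Two c → LC K G blk) → ℂ)
    (t : (Σ j, G (blk j)) → LU K G) : ℂ :=
  ∑ τ : ∀ j, K (blk j) →+* ℂ, ∑ s : ∀ i : Σ j, G (blk j), G (blk i.1),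
    if t = fun i => ⟨⟨blk i.1, s i⟩, τ i.1⟩ then v fun a => ⟨⟨(f a).1, s (f a)⟩, τ (f a).1⟩ else 0

/-- `u` is, up to the order of the factors, the tensor product of `d` rational tensors of type `(1,1)`
in `H_1 ⊗ H_1` and of the transfer of a class `v` of degree `2c` on a CM abelian variety, a
combination of classes of maps from compact arithmetic quotients of the `c`-ball (a rational number
for `c = 0`). -/
def IsProdU [∀ k, Fintype (G k)] [∀ k, NumberField (K k)]
    (Φ : ∀ i : Σ k, G k, Set (K i.1 →+* ℂ)) (h : ∀ k, G k → K k) (n : ℕ)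
    (u : (Fin (2 * n) → LU K G) → ℂ) : Prop :=
  ∃ (d r c : ℕ) (blk : Fin r → κ) (f : Two c ≃ Σ j, G (blk j))
    (e : (Fin d × Fin 2) ⊕ (Σ j, G (blk j)) ≃ Fin (2 * n)) (l : Fin d → ∀ k, K k)
    (v : (Two c → LC K G blk) → ℂ),
    ((c = 0 ∧ ∃ q : ℚ, ∀ t, v t = q) ∨
      (0 < c ∧ IsBallQ (fun i : Σ j, G (blk j) => Φ ⟨blk i.1, i.2⟩) v)) ∧
    ∀ t, u t = (∏ i, pair h (l i) (t (e (Sum.inl (i, 0)))) (t (e (Sum.inl (i, 1))))) *
      detT blk f v fun i => t (e (Sum.inr i))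

end products

/-- **The Tate conjecture for powers of `X`**, up to `K`-determinants: the Tate classes in
`H_1(X, ℚ_p)^{⊗ 2n}` are the `ℚ_p`-linear combinations of the products of divisor classes and of
transfers of classes of maps from compact arithmetic ball quotients to CM abelian varieties. -/
def TateU : Prop :=
  ∀ (p : ℕ) [Fact p.Prime] (n : ℕ) (κ : Type) [Fintype κ] (K G : κ → Type) [∀ k, Field (K k)]
    [∀ k, NumberField (K k)] [∀ k, NumberField.IsCMField (K k)] [∀ k, Fintype (G k)]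
    [∀ k, Nonempty (G k)] (Φ : ∀ i : Σ k, G k, Set (K i.1 →+* ℂ)), (∀ i, IsCMType (Φ i)) →
    ∀ h : ∀ k, G k → K k, (∀ k g, h k g ≠ 0 ∧ ∀ τ : K k →+* ℂ, (τ (h k g)).im = 0) →
    ∀ (N : ℕ) (e : κ → ℕ), 0 < N → (∀ k, e k * Fintype.card (G k) = N) →
    ∀ (E : Type) [Field E] [NumberField E] [IsGalois ℚ E] (j : ∀ k, K k →+* E) (τ₀ : E →+* ℂ)
      (c : ℚ_[p] ⊗[ℚ] ((Fin (2 * n) → LU K G) → ℂ)),
      c ∈ (TQ K G (Fin (2 * n))).baseChange ℚ_[p] →
      (IsTateU p Φ h N e j τ₀ c ↔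
        c ∈ Submodule.span ℚ_[p] {w | ∃ u, IsProdU Φ h n u ∧ w = (1 : ℚ_[p]) ⊗ₜ[ℚ] u})

end

end Pool.Agent.UNIT
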