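import Pool.Agent.Lib.UNIT.Basic

/-!
# UNIT: the operators `der` and `scl` on rational tensors (helper77, helper16)
-/

set_option autoImplicit false

open scoped TensorProduct ComplexConjugate
open Complex Pool.Agent.HCM Pool.Agent.RAT

namespace Pool.Agent.UNIT

noncomputable section

variable {κ : Type} {K G : κ → Type} [∀ k, Field (K k)] {T : Type} [Fintype T]

theorem scl_tens (z : ∀ k, K k) (x : T → ∀ i : Σ k, G k, K i.1) :
    scl z (tens x) = tens fun a i => z i.1 * x a i := by
  funext t
  rw [scl_apply]
  unfold tens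
  rw [← Finset.prod_mul_distrib]
  refine Finset.prod_congr rfl fun a _ => ?_
  rw [map_mul]

theorem scl_mem (z : ∀ k, K k) {u : (T → LU K G) → ℂ} (hu : u ∈ TQ K G T) :
    scl z u ∈ TQ K G T := by
  unfold TQ at hu ⊢
  induction hu using Submodule.span_induction with
  | mem u hu =>
    obtain ⟨x, rfl⟩ := hu
    rw [scl_tens]
    exact Submodule.subset_span ⟨_, rfl⟩
  | zero =>
    rw [map_zero]
    exact Submodule.zero_mem _
  | add u v _ _ hu hv =>
    rw [map_add]
    exact Submodule.add_mem _ hu hv
  | smul q u _ hu =>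
    rw [map_smul]
    exact Submodule.smul_mem _ _ hu

variable [DecidableEq T]

theorem tens_update (x : T → ∀ i : Σ k, G k, K i.1) (a : T)
    (y : ∀ i : Σ k, G k, K i.1) (t : T → LU K G) :
    tens (Function.update x a y) t =
      (t a).2 (y (t a).1) * ∏ b ∈ Finset.univ.erase a, (t b).2 (x b (t b).1) := by
  unfold tens
  rw [← Finset.mul_prod_erase _ _ (Finset.mem_univ a), Function.update_self]
  congr 1
  refine Finset.prod_congr rfl fun b hb => ?_
  rw [Function.update_of_ne (Finset.ne_of_mem_erase hb)]

variable [Fintype κ] [∀ k, NumberField (K k)] [∀ k, Fintype (G k)]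

theorem der_tens (X : ∀ k, Matrix (G k) (G k) (K k)) (x : T → ∀ i : Σ k, G k, K i.1) :
    der X (tens x) = ∑ a, tens (Function.update x a fun i =>
      ∑ g : G i.1, X i.1 i.2 g * x a ⟨i.1, g⟩) := by
  funext t
  rw [Finset.sum_apply, der_apply]
  refine Finset.sum_congr rfl fun a _ => ?_
  rw [tens_update, map_sum, Finset.sum_mul]
  refine Finset.sum_congr rfl fun g _ => ?_
  unfold tens
  rw [← Finset.mul_prod_erase _ _ (Finset.mem_univ a), Function.update_self, map_mul, mul_assoc]
  congr 2
  refine Finset.prod_congr rfl fun b hb => ?_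
  rw [Function.update_of_ne (Finset.ne_of_mem_erase hb)]

theorem der_mem (X : ∀ k, Matrix (G k) (G k) (K k)) {u : (T → LU K G) → ℂ}
    (hu : u ∈ TQ K G T) : der X u ∈ TQ K G T := by
  unfold TQ at hu ⊢
  induction hu using Submodule.span_induction with
  | mem u hu =>
    obtain ⟨x, rfl⟩ := hu
    rw [der_tens]
    exact Submodule.sum_mem _ fun a _ => Submodule.subset_span ⟨_, rfl⟩
  | zero =>
    rw [map_zero]
    exact Submodule.zero_mem _
  | add u v _ _ hu hv =>
    rw [map_add]
    exact Submodule.add_mem _ hu hv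
  | smul q u _ hu =>
    rw [map_smul]
    exact Submodule.smul_mem _ _ hu

end

end Pool.Agent.UNIT
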