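import Pool.Agent.Lib.UNIT.UBb

set_option autoImplicit false
set_option linter.unusedSectionVars false

open Function Pool.Agent.SLF

namespace Pool.Agent.UNIT.Ub

noncomputable section

variable {Bk : Type} [Fintype Bk] [DecidableEq Bk] {G : Bk → Type} [∀ b, Fintype (G b)]
  [∀ b, DecidableEq (G b)] {T : Type} [Fintype T] [DecidableEq T]

open Classical in
/-- The pairing of two letters. -/
def pr (b : Bk) (y y' : LL G) : ℂ := if ∃ g, y = ⟨b, g, true⟩ ∧ y' = ⟨b, g, false⟩ then 1 else 0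

/-- The determinant of a word of letters. -/
def dt (c : Bk × Bool) (w : G c.1 → LL G) : ℂ :=
  Matrix.det (Matrix.of fun g g' => if w g = ⟨c.1, g', c.2⟩ then (1 : ℂ) else 0)

theorem pr_eq (b : Bk) (g g' : G b) :
    pr b (⟨b, g, true⟩ : LL G) ⟨b, g', false⟩ = if g = g' then 1 else 0 := by
  unfold pr
  refine if_congr ?_ rfl rfl
  constructor
  · rintro ⟨g'', h1, h2⟩
    simp only [Sigma.mk.injEq, heq_eq_eq, Prod.mk.injEq, and_true, true_and] at h1 h2
    rw [h1, h2]
  · rintro rfl
    exact ⟨g, rfl, rfl⟩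

theorem pr_ne {b : Bk} {y y' : LL G} (h : pr b y y' ≠ 0) :
    typ y = (b, true) ∧ typ y' = (b, false) := by
  unfold pr at h
  split_ifs at h with h1
  · obtain ⟨g, rfl, rfl⟩ := h1
    exact ⟨rfl, rfl⟩
  · exact absurd rfl h

theorem dt_eq (c : Bk × Bool) (f : G c.1 → G c.1) :
    dt c (fun g => (⟨c.1, f g, c.2⟩ : LL G)) = eps ℂ f := by
  unfold dt eps
  congr 1
  ext g g'
  simp [Matrix.one_apply]

theorem dt_ne {c : Bk × Bool} {w : G c.1 → LL G} (h : dt c w ≠ 0) (g : G c.1) :
    typ (w g) = c := by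
  by_contra hne
  refine h (Matrix.det_eq_zero_of_row_eq_zero g fun g' => ?_)
  rw [Matrix.of_apply, if_neg]
  intro h'
  rw [h'] at hne
  exact hne rfl

/-- A partition of the positions into pairs and words, with blocks. -/
structure GD (G : Bk → Type) (T : Type) where
  /-- the pairs -/
  J1 : Type
  /-- the determinants -/
  J2 : Type
  f1 : Fintype J1
  f2 : Fintype J2
  /-- the blocks of the pairs -/
  c1 : J1 → Bk
  /-- the blocks of the determinants -/
  c2 : J2 → Bk × Bool
  /-- the positions -/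
  e : (J1 × Bool) ⊕ (Σ j : J2, G (c2 j).1) ≃ T

attribute [instance] GD.f1 GD.f2

/-- The product. -/
def GD.nf (D : GD G T) (t : T → LL G) : ℂ :=
  (∏ j, pr (D.c1 j) (t (D.e (Sum.inl (j, true)))) (t (D.e (Sum.inl (j, false))))) *
    ∏ j, dt (D.c2 j) fun g => t (D.e (Sum.inr ⟨j, g⟩))

theorem GD.typ_eq (D : GD G T) {t : T → LL G} (h : D.nf t ≠ 0) :
    (∀ j ε, typ (t (D.e (Sum.inl (j, ε)))) = (D.c1 j, ε)) ∧
      ∀ j g, typ (t (D.e (Sum.inr ⟨j, g⟩))) = D.c2 j := by
  have h1 := left_ne_zero_of_mul h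
  have h2 := right_ne_zero_of_mul h
  rw [Finset.prod_ne_zero_iff] at h1 h2
  refine ⟨fun j ε => ?_, fun j g => dt_ne (h2 j (Finset.mem_univ j)) g⟩
  have h3 := pr_ne (h1 j (Finset.mem_univ j))
  cases ε
  · exact h3.2
  · exact h3.1

section glue

variable {θ : T → Bk × Bool} (D : ∀ b, BD G θ b)

/-- The positions. -/
def glF : ((Σ b, (D b).J1) × Bool) ⊕ (Σ j : (Σ b, (D b).J2), G j.1) → T
  | Sum.inl (i, ε) => ((D i.1).e (Sum.inl (i.2, ε))).1
  | Sum.inr j => ((D j.1.1).e (Sum.inr (j.1.2, j.2))).1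

theorem glF_bijective : Bijective (glF D) := by
  constructor
  · rintro (⟨⟨b, i⟩, ε⟩ | ⟨⟨b, l⟩, g⟩) (⟨⟨b', i'⟩, ε'⟩ | ⟨⟨b', l'⟩, g'⟩) h
    all_goals
      have h0 := congrArg (fun a => (θ a).1) h
      simp only [glF] at h0 h
      first
        | rw [((D b).e (Sum.inl (i, ε))).2] at h0
        | rw [((D b).e (Sum.inr (l, g))).2] at h0
      first
        | rw [((D b').e (Sum.inl (i', ε'))).2] at h0
        | rw [((D b').e (Sum.inr (l', g'))).2] at h0
      subst h0
      have h1 := (D b).e.injective (Subtype.ext h)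
      simp_all
  · intro a
    rcases hz : (D (θ a).1).e.symm ⟨a, rfl⟩ with ⟨i, ε⟩ | ⟨l, g⟩
    · refine ⟨Sum.inl (⟨(θ a).1, i⟩, ε), ?_⟩
      simp only [glF]
      rw [← hz, Equiv.apply_symm_apply]
    · refine ⟨Sum.inr ⟨⟨(θ a).1, l⟩, g⟩, ?_⟩
      simp only [glF]
      rw [← hz, Equiv.apply_symm_apply]

/-- The partition of all positions. -/
def glue : GD G T where
  J1 := Σ b, (D b).J1
  J2 := Σ b, (D b).J2
  f1 := inferInstance
  f2 := inferInstance
  c1 := fun i => i.1
  c2 := fun j => (j.1, (D j.1).sg)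
  e := Equiv.ofBijective (glF D) (glF_bijective D)

theorem glue_wd (x : ∀ b, XX G θ b) : (glue D).nf (wd θ x) = ∏ b, (D b).mon (x b) := by
  have h1 : ∀ (b : Bk) (i : (D b).J1), pr b (wd θ x ((D b).e (Sum.inl (i, true))).1)
      (wd θ x ((D b).e (Sum.inl (i, false))).1) =
      if x b true ⟨_, (D b).h1 i true⟩ = x b false ⟨_, (D b).h1 i false⟩ then 1 else 0 := by
    intro b i
    rw [wd_apply x ((D b).h1 i true), wd_apply x ((D b).h1 i false), pr_eq]
  have h2 : ∀ (b : Bk) (l : (D b).J2), dt (b, (D b).sg)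
      (fun g => wd θ x ((D b).e (Sum.inr (l, g))).1) =
      eps ℂ fun g => x b (D b).sg ⟨_, (D b).h2 (l, g)⟩ := by
    intro b l
    rw [← dt_eq (b, (D b).sg) fun g => x b (D b).sg ⟨_, (D b).h2 (l, g)⟩]
    congr 1
    funext g
    exact wd_apply x ((D b).h2 (l, g))
  have h3 : (glue D).nf (wd θ x) =
      (∏ i : Σ b, (D b).J1, pr i.1 (wd θ x ((D i.1).e (Sum.inl (i.2, true))).1)
        (wd θ x ((D i.1).e (Sum.inl (i.2, false))).1)) *
      ∏ j : Σ b, (D b).J2, dt (j.1, (D j.1).sg)
        (fun g => wd θ x ((D j.1).e (Sum.inr (j.2, g))).1) := rfl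
  rw [h3, Fintype.prod_sigma, Fintype.prod_sigma, ← Finset.prod_mul_distrib]
  refine Finset.prod_congr rfl fun b _ => ?_
  unfold BD.mon
  rw [Finset.prod_congr rfl fun i _ => h1 b i, Finset.prod_congr rfl fun l _ => h2 b l]

theorem glue_ne {t : T → LL G} (h : (glue D).nf t ≠ 0) (a : T) : typ (t a) = θ a := by
  have h1 := (glue D).typ_eq h
  obtain ⟨z, rfl⟩ := (glF_bijective D).2 a
  rcases z with ⟨i, ε⟩ | ⟨j, g⟩
  · exact (h1.1 i ε).trans ((D i.1).h1 i.2 ε).symm
  · exact (h1.2 j g).trans ((D j.1).h2 (j.2, g)).symm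

end glue

/-- **All blocks**, abstract letters. -/
theorem kd_span [∀ b, Nonempty (G b)] {u : (T → LL G) → ℂ} (hu : Kd u) :
    u ∈ Submodule.span ℂ (Set.range fun D : GD G T => D.nf) := by
  classical
  let Ext : ∀ θ : T → Bk × Bool, ((∀ b, XX G θ b) → ℂ) →ₗ[ℂ] ((T → LL G) → ℂ) := fun θ =>
    { toFun := fun f t => ∑ x, if wd θ x = t then f x else 0
      map_add' := fun f f' => by
        funext t
        rw [Pi.add_apply, ← Finset.sum_add_distrib]
        refine Finset.sum_congr rfl fun x _ => ?_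
        split_ifs <;> simp
      map_smul' := fun z f => by
        funext t
        rw [Pi.smul_apply, smul_eq_mul, Finset.mul_sum]
        refine Finset.sum_congr rfl fun x _ => ?_
        split_ifs <;> simp }
  have hExt : ∀ θ f t, Ext θ f t = ∑ x, if wd θ x = t then f x else 0 := fun _ _ _ => rfl
  have h1 : u = ∑ θ, Ext θ fun x => u (wd θ x) := by
    funext t
    rw [Finset.sum_apply, Finset.sum_eq_single fun a => typ (t a)]
    · obtain ⟨x, hx⟩ := exists_wd (θ := fun a => typ (t a)) (t := t) fun _ => rfl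
      rw [hExt, Finset.sum_eq_single x]
      · rw [if_pos hx, hx]
      · intro x' _ hx'
        rw [if_neg]
        intro h'
        exact hx' (wd_injective _ (h'.trans hx.symm))
      · intro h'
        exact absurd (Finset.mem_univ _) h'
    · intro θ _ hθ
      rw [hExt]
      refine Finset.sum_eq_zero fun x _ => ?_
      rw [if_neg]
      rintro rfl
      exact hθ (funext fun a => (typ_wd θ x a).symm)
    · intro h'
      exact absurd (Finset.mem_univ _) h'
  rw [h1]
  refine Submodule.sum_mem _ fun θ _ => ?_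
  have h2 : Submodule.span ℂ {F : (∀ b, XX G θ b) → ℂ | ∃ D : ∀ b, BD G θ b,
        F = fun x => ∏ b, (D b).mon (x b)} ≤
      (Submodule.span ℂ (Set.range fun D : GD G T => D.nf)).comap (Ext θ) := by
    rw [Submodule.span_le]
    rintro F ⟨D, rfl⟩
    refine Submodule.subset_span ⟨glue D, ?_⟩
    funext t
    change (glue D).nf t = _
    rw [hExt]
    by_cases ht : ∀ a, typ (t a) = θ a
    · obtain ⟨x, rfl⟩ := exists_wd ht
      rw [glue_wd, Finset.sum_eq_single x]
      · rw [if_pos rfl]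
      · intro x' _ hx'
        rw [if_neg]
        intro h'
        exact hx' (wd_injective _ h')
      · intro h'
        exact absurd (Finset.mem_univ _) h'
    · rw [Finset.sum_eq_zero]
      · by_contra hne
        exact ht fun a => glue_ne D hne a
      · intro x _
        rw [if_neg]
        rintro rfl
        exact ht fun a => typ_wd θ x a
  exact h2 (all_blocks hu θ)

end

end Pool.Agent.UNIT.Ub
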