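import Pool.Agent.Lib.UNIT.Rows
import Pool.Agent.Lib.UNIT.UBc

/-!
# Row UB: all blocks
-/

set_option autoImplicit false
set_option linter.unusedSectionVars false

open Function Pool.Agent.HCM Pool.Agent.RAT

namespace Pool.Agent.UNIT

namespace UBx

noncomputable section

open Ub

variable {κ : Type} {K G : κ → Type} [∀ k, Field (K k)]

theorem cj_cj' {E : Type} [Field E] (τ : E →+* ℂ) : cj (cj τ) = τ := by
  ext x
  simp [cj]

theorem cj_ne {E : Type} [Field E] [NumberField E] [NumberField.IsCMField E] (τ : E →+* ℂ) :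
    cj τ ≠ τ := by
  intro h
  have h1 : NumberField.ComplexEmbedding.IsReal τ := NumberField.ComplexEmbedding.isReal_iff.mpr h
  exact NumberField.InfinitePlace.not_isReal_iff_isComplex.mpr
    (NumberField.IsTotallyComplex.isComplex (NumberField.InfinitePlace.mk τ)) ⟨τ, h1, rfl⟩

variable (K) in
/-- The pairs of a block and an embedding. -/
abbrev Em : Type := Σ k, K k →+* ℂ

/-- The conjugate. -/
def bar (q : Em K) : Em K := ⟨q.1, cj q.2⟩

theorem bar_bar (q : Em K) : bar (bar q) = q := by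
  obtain ⟨k, τ⟩ := q
  change (⟨k, cj (cj τ)⟩ : Em K) = ⟨k, τ⟩
  rw [cj_cj']

theorem exists_sgn [Fintype κ] [∀ k, NumberField (K k)] [∀ k, NumberField.IsCMField (K k)] :
    ∃ sgn : Em K → Bool, ∀ q, sgn (bar q) = !sgn q := by
  classical
  let φ := Fintype.equivFin (Em K)
  refine ⟨fun q => decide (φ q < φ (bar q)), fun q => ?_⟩
  have hne : φ q ≠ φ (bar q) := by
    intro h
    have h1 := φ.injective h
    obtain ⟨k, τ⟩ := q
    simp only [bar, Sigma.mk.injEq, heq_eq_eq, true_and] at h1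
    exact cj_ne τ h1.symm
  simp only [bar_bar]
  rcases lt_or_gt_of_ne hne with h | h
  · rw [decide_eq_true h, decide_eq_false (lt_asymm h)]
    rfl
  · rw [decide_eq_true h, decide_eq_false (lt_asymm h)]
    rfl

section

variable (sgn : Em K → Bool) (G)

/-- One element of each pair of conjugate embeddings. -/
abbrev Bk' : Type := {q : Em K // sgn q = true}

/-- The indices of a block. -/
abbrev G' (b : Bk' sgn) : Type := G b.1.1

variable {sgn} {G}

/-- The letter of an abstract letter. -/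
def dec (z : LL (G' G sgn)) : LU K G :=
  if z.2.2 = true then ⟨⟨z.1.1.1, z.2.1⟩, z.1.1.2⟩ else ⟨⟨z.1.1.1, z.2.1⟩, cj z.1.1.2⟩

theorem dec_true (b : Bk' sgn) (g : G b.1.1) :
    dec (⟨b, g, true⟩ : LL (G' G sgn)) = ⟨⟨b.1.1, g⟩, b.1.2⟩ := rfl

theorem dec_false (b : Bk' sgn) (g : G b.1.1) :
    dec (⟨b, g, false⟩ : LL (G' G sgn)) = ⟨⟨b.1.1, g⟩, cj b.1.2⟩ := rfl

variable (hs : ∀ q, sgn (bar q) = !sgn q)

include hs in
theorem dec_injective : Injective (dec : LL (G' G sgn) → LU K G) := by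
  rintro ⟨⟨⟨k, τ⟩, hb⟩, g, ε⟩ ⟨⟨⟨k', τ'⟩, hb'⟩, g', ε'⟩ h
  have h1 := hs ⟨k, τ⟩
  have h2 := hs ⟨k', τ'⟩
  rw [hb] at h1
  rw [hb'] at h2
  cases ε <;> cases ε'
  · rw [dec_false, dec_false] at h
    simp only [Sigma.mk.injEq] at h
    obtain ⟨⟨rfl, h3⟩, h4⟩ := h
    have h5 : τ = τ' := by
      rw [← cj_cj' τ, ← cj_cj' τ', eq_of_heq h4]
    subst h5
    rw [eq_of_heq h3]
  · exfalso
    rw [dec_false, dec_true] at h
    simp only [Sigma.mk.injEq] at h
    obtain ⟨⟨rfl, h3⟩, h4⟩ := h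
    have h5 := eq_of_heq h4
    change cj τ = τ' at h5
    subst h5
    have h6 : sgn ⟨k, cj τ⟩ = !true := h1
    rw [hb'] at h6
    exact absurd h6 (by simp)
  · exfalso
    rw [dec_false, dec_true] at h
    simp only [Sigma.mk.injEq] at h
    obtain ⟨⟨rfl, h3⟩, h4⟩ := h
    have h5 := eq_of_heq h4
    change τ = cj τ' at h5
    subst h5
    have h6 : sgn ⟨k, cj τ'⟩ = !true := h2
    rw [hb] at h6
    exact absurd h6 (by simp)
  · rw [dec_true, dec_true] at h
    simp only [Sigma.mk.injEq] at h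
    obtain ⟨⟨rfl, h3⟩, h4⟩ := h
    have h5 : τ = τ' := eq_of_heq h4
    subst h5
    rw [eq_of_heq h3]

include hs in
theorem dec_surjective : Surjective (dec : LL (G' G sgn) → LU K G) := by
  rintro ⟨⟨k, g⟩, τ⟩
  rcases h : sgn ⟨k, τ⟩ with _ | _
  · have h1 := hs ⟨k, τ⟩
    rw [h] at h1
    refine ⟨⟨⟨⟨k, cj τ⟩, h1⟩, g, false⟩, ?_⟩
    change (⟨⟨k, g⟩, cj (cj τ)⟩ : LU K G) = ⟨⟨k, g⟩, τ⟩
    rw [cj_cj']
  · exact ⟨⟨⟨⟨k, τ⟩, h⟩, g, true⟩, rfl⟩

/-- The equivalence of letters. -/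
def eqv : LL (G' G sgn) ≃ LU K G := Equiv.ofBijective dec ⟨dec_injective hs, dec_surjective hs⟩

theorem eqv_apply (z : LL (G' G sgn)) : eqv hs z = dec z := rfl

theorem dec_symm (y : LU K G) : dec ((eqv (G := G) hs).symm y) = y :=
  (eqv (G := G) hs).apply_symm_apply y

theorem symm_dec (z : LL (G' G sgn)) : (eqv (G := G) hs).symm (dec z) = z :=
  (eqv (G := G) hs).symm_apply_apply z

variable (h : ∀ k, G k → K k)

/-- The weight of a letter. -/
def lam (z : LL (G' G sgn)) : ℂ := if z.2.2 = true then 1 else z.1.1.2 (h z.1.1.1 z.2.1)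

theorem lam_true (b : Bk' sgn) (g : G b.1.1) : lam h (⟨b, g, true⟩ : LL (G' G sgn)) = 1 := rfl

theorem lam_false (b : Bk' sgn) (g : G b.1.1) :
    lam h (⟨b, g, false⟩ : LL (G' G sgn)) = b.1.2 (h b.1.1 g) := rfl

variable (h0 : ∀ k g, h k g ≠ 0)

include h0 in
theorem lam_ne (z : LL (G' G sgn)) : lam h z ≠ 0 := by
  obtain ⟨b, g, ε⟩ := z
  cases ε
  · rw [lam_false, map_ne_zero]
    exact h0 _ _
  · rw [lam_true]
    exact one_ne_zero

variable {T : Type} [Fintype T] [DecidableEq T]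

/-- The function of abstract words. -/
def lft (u : (T → LU K G) → ℂ) (s : T → LL (G' G sgn)) : ℂ :=
  (∏ a, lam h (s a)) * u fun a => dec (s a)

theorem lft_update (u : (T → LU K G) → ℂ) (s : T → LL (G' G sgn)) (a : T)
    (z : LL (G' G sgn)) (hz : lam h (s a) ≠ 0) : lft h u (update s a z) =
      (∏ a, lam h (s a)) * (lam h z / lam h (s a)) *
        u (update (fun a => dec (s a)) a (dec z)) := by
  unfold lft
  congr 1
  · rw [← Finset.mul_prod_erase _ _ (Finset.mem_univ a),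
      ← Finset.mul_prod_erase (f := fun a => lam h (s a)) _ (Finset.mem_univ a), update_self]
    have h1 : ∏ c ∈ Finset.univ.erase a, lam h (update s a z c) =
        ∏ c ∈ Finset.univ.erase a, lam h (s c) := by
      refine Finset.prod_congr rfl fun c hc => ?_
      rw [update_of_ne (Finset.ne_of_mem_erase hc)]
    rw [h1]
    field_simp
  · congr 1
    funext c
    by_cases hc : c = a
    · subst hc
      rw [update_self, update_self]
    · rw [update_of_ne hc, update_of_ne hc]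

open Classical in
include hs h0 in
theorem kd_lft [∀ k, Fintype (G k)] {u : (T → LU K G) → ℂ} (hu : Killed h u) :
    Kd (G := G' G sgn) (lft h u) := by
  intro b p q hpq s
  have h1 := hu b.1.1 p q b.1.2 hpq fun a => dec (s a)
  unfold root at h1
  have h2 : ∀ a, (if s a = ⟨b, p, true⟩ then lft h u (update s a ⟨b, q, true⟩) else 0) =
      (∏ a, lam h (s a)) * if dec (s a) = ⟨⟨b.1.1, p⟩, b.1.2⟩ then
        u (update (fun a => dec (s a)) a ⟨⟨b.1.1, q⟩, b.1.2⟩) else 0 := by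
    intro a
    have h3 : dec (s a) = ⟨⟨b.1.1, p⟩, b.1.2⟩ ↔ s a = ⟨b, p, true⟩ :=
      ⟨fun h' => dec_injective hs h', fun h' => by rw [h']; rfl⟩
    by_cases h4 : s a = ⟨b, p, true⟩
    · rw [if_pos h4, if_pos (h3.mpr h4), lft_update h u s a _ (lam_ne h h0 _), h4, lam_true,
        lam_true, div_one, mul_one]
      rfl
    · rw [if_neg h4, if_neg (fun h' => h4 (h3.mp h')), mul_zero]
  have h5 : ∀ a, (if s a = ⟨b, q, false⟩ then lft h u (update s a ⟨b, p, false⟩) else 0) =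
      (∏ a, lam h (s a)) * (b.1.2 (h b.1.1 p) / b.1.2 (h b.1.1 q)) *
        if dec (s a) = ⟨⟨b.1.1, q⟩, cj b.1.2⟩ then
        u (update (fun a => dec (s a)) a ⟨⟨b.1.1, p⟩, cj b.1.2⟩) else 0 := by
    intro a
    have h3 : dec (s a) = ⟨⟨b.1.1, q⟩, cj b.1.2⟩ ↔ s a = ⟨b, q, false⟩ :=
      ⟨fun h' => dec_injective hs h', fun h' => by rw [h']; rfl⟩
    by_cases h4 : s a = ⟨b, q, false⟩
    · rw [if_pos h4, if_pos (h3.mpr h4), lft_update h u s a _ (lam_ne h h0 _), h4, lam_false,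
        lam_false]
      rfl
    · rw [if_neg h4, if_neg (fun h' => h4 (h3.mp h')), mul_zero]
  rw [Finset.sum_congr rfl fun a _ => h2 a, Finset.sum_congr rfl fun a _ => h5 a,
    ← Finset.mul_sum, ← Finset.mul_sum]
  rw [sub_eq_zero] at h1
  beta_reduce at h1
  rw [h1]
  ring

open Classical in
include hs in
theorem pc_dec [∀ k, Fintype (G k)] (b : Bk' sgn) (y y' : LL (G' G sgn)) :
    pc h b.1.1 b.1.2 (dec y) (dec y') = (lam h y * lam h y')⁻¹ * pr b y y' := by
  unfold pc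
  by_cases h1 : ∃ g, y = ⟨b, g, true⟩ ∧ y' = ⟨b, g, false⟩
  · obtain ⟨g, rfl, rfl⟩ := h1
    have h3 : pr b (⟨b, g, true⟩ : LL (G' G sgn)) ⟨b, g, false⟩ = 1 := if_pos ⟨g, rfl, rfl⟩
    rw [h3, mul_one, lam_true, lam_false, one_mul, Finset.sum_eq_single g]
    · exact if_pos ⟨rfl, rfl⟩
    · intro g' _ hg'
      rw [if_neg]
      rintro ⟨h2, -⟩
      rw [dec_true] at h2
      simp only [Sigma.mk.injEq, heq_eq_eq, true_and, and_true] at h2
      exact hg' h2.symm
    · intro h2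
      exact absurd (Finset.mem_univ _) h2
  · have h3 : pr b y y' = 0 := if_neg h1
    rw [h3, mul_zero]
    refine Finset.sum_eq_zero fun g _ => ?_
    rw [if_neg]
    rintro ⟨h4, h5⟩
    exact h1 ⟨g, dec_injective hs h4, dec_injective hs h5⟩

/-- The embedding of a block and a sign. -/
def emb (c : Bk' sgn × Bool) : K c.1.1.1 →+* ℂ := if c.2 = true then c.1.1.2 else cj c.1.1.2

theorem dec_emb (c : Bk' sgn × Bool) (g : G c.1.1.1) :
    dec (⟨c.1, g, c.2⟩ : LL (G' G sgn)) = ⟨⟨c.1.1.1, g⟩, emb c⟩ := by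
  obtain ⟨b, ε⟩ := c
  cases ε <;> rfl

open Classical in
include hs in
theorem dc_dec [∀ k, Fintype (G k)] (c : Bk' sgn × Bool)
    (w : G' G sgn c.1 → LL (G' G sgn)) :
    (∏ g, lam h (w g))⁻¹ * dt c w = (∏ g : G c.1.1.1, lam h (⟨c.1, g, c.2⟩ : LL (G' G sgn)))⁻¹ *
      dc c.1.1.1 (emb c) fun g => dec (w g) := by
  have h1 : dt c w = ∑ π : Equiv.Perm (G c.1.1.1), ((Equiv.Perm.sign π : ℤ) : ℂ) *
      if w = fun g => ⟨c.1, π g, c.2⟩ then 1 else 0 := by
    unfold dt
    rw [← Matrix.det_transpose, Matrix.det_apply']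
    refine Finset.sum_congr rfl fun π _ => ?_
    congr 1
    by_cases h2 : w = fun g => ⟨c.1, π g, c.2⟩
    · rw [if_pos h2]
      refine Finset.prod_eq_one fun g _ => ?_
      rw [Matrix.transpose_apply, Matrix.of_apply, if_pos (congrFun h2 g)]
    · rw [if_neg h2]
      have h3 : ∃ g, w g ≠ ⟨c.1, π g, c.2⟩ := by
        by_contra h4
        push Not at h4
        exact h2 (funext h4)
      obtain ⟨g, hg⟩ := h3
      refine Finset.prod_eq_zero (Finset.mem_univ g) ?_
      rw [Matrix.transpose_apply, Matrix.of_apply, if_neg hg]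
  have h2 : (dc c.1.1.1 (emb c) fun g => dec (w g)) =
      ∑ π : Equiv.Perm (G c.1.1.1), ((Equiv.Perm.sign π : ℤ) : ℂ) *
      if w = fun g => ⟨c.1, π g, c.2⟩ then 1 else 0 := by
    unfold dc
    refine Finset.sum_congr rfl fun π _ => ?_
    congr 1
    refine if_congr ?_ rfl rfl
    constructor
    · intro h3
      funext g
      refine dec_injective hs ?_
      rw [dec_emb c (π g)]
      exact congrFun h3 g
    · rintro rfl
      funext g
      exact dec_emb c (π g)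
  rw [h1, h2, Finset.mul_sum, Finset.mul_sum]
  refine Finset.sum_congr rfl fun π _ => ?_
  by_cases h3 : w = fun g => ⟨c.1, π g, c.2⟩
  · subst h3
    congr 2
    exact Equiv.prod_comp π fun g => lam h (⟨c.1, g, c.2⟩ : LL (G' G sgn))
  · rw [if_neg h3, mul_zero, mul_zero, mul_zero]

/-- Two places. -/
def two : Fin 2 ≃ Bool where
  toFun i := if i = 0 then true else false
  invFun ε := if ε = true then 0 else 1
  left_inv := by decide
  right_inv := by decide

open Classical in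
include hs in
theorem nf_dec [∀ k, Fintype (G k)] (D : GD (G' G sgn) T) :
    ∃ (C : ℂ) (w : (T → LU K G) → ℂ), IsBT h w ∧ ∀ s : T → LL (G' G sgn),
      (∏ a, lam h (s a))⁻¹ * D.nf s = C * w fun a => dec (s a) := by
  obtain ⟨J1, J2, f1, f2, c1, c2, e⟩ := D
  let φ1 : Fin (Fintype.card J1) ≃ J1 := (Fintype.equivFin J1).symm
  let φ2 : Fin (Fintype.card J2) ≃ J2 := (Fintype.equivFin J2).symm
  let e' : (Fin (Fintype.card J1) × Fin 2) ⊕ (Σ j, G (c2 (φ2 j)).1.1.1) ≃ T :=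
    (Equiv.sumCongr (Equiv.prodCongr φ1 two)
      (Equiv.sigmaCongrLeft (β := fun j => G' G sgn (c2 j).1) φ2)).trans e
  refine ⟨∏ j, (∏ g : G (c2 j).1.1.1, lam h (⟨(c2 j).1, g, (c2 j).2⟩ : LL (G' G sgn)))⁻¹,
    bt h (fun i => (c1 (φ1 i)).1.1) (fun i => (c1 (φ1 i)).1.2) (fun j => (c2 (φ2 j)).1.1.1)
      (fun j => emb (c2 (φ2 j))) e', ⟨_, _, _, _, _, _, _, rfl⟩, fun s => ?_⟩
  have h1 : (∏ a, lam h (s a)) =
      (∏ j, lam h (s (e (Sum.inl (j, true)))) * lam h (s (e (Sum.inl (j, false))))) *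
        ∏ j, ∏ g, lam h (s (e (Sum.inr ⟨j, g⟩))) := by
    rw [← Equiv.prod_comp e, Fintype.prod_sum_type, Fintype.prod_prod_type, Fintype.prod_sigma]
    congr 1
    refine Finset.prod_congr rfl fun j _ => ?_
    rw [Fintype.prod_bool]
  have h2 : bt h (fun i => (c1 (φ1 i)).1.1) (fun i => (c1 (φ1 i)).1.2)
      (fun j => (c2 (φ2 j)).1.1.1) (fun j => emb (c2 (φ2 j))) e' (fun a => dec (s a)) =
      (∏ j, pc h (c1 j).1.1 (c1 j).1.2 (dec (s (e (Sum.inl (j, true)))))
        (dec (s (e (Sum.inl (j, false)))))) *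
      ∏ j, dc (c2 j).1.1.1 (emb (c2 j)) fun g => dec (s (e (Sum.inr ⟨j, g⟩))) := by
    unfold bt
    congr 1
    · exact Equiv.prod_comp φ1 fun j => pc h (c1 j).1.1 (c1 j).1.2
        (dec (s (e (Sum.inl (j, true))))) (dec (s (e (Sum.inl (j, false)))))
    · exact Equiv.prod_comp φ2 fun j => dc (c2 j).1.1.1 (emb (c2 j)) fun g =>
        dec (s (e (Sum.inr ⟨j, g⟩)))
  rw [h1, h2]
  change _ * ((∏ j, pr (c1 j) (s (e (Sum.inl (j, true)))) (s (e (Sum.inl (j, false))))) *
    ∏ j, dt (c2 j) fun g => s (e (Sum.inr ⟨j, g⟩))) = _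
  have h3 : (∏ j, pc h (c1 j).1.1 (c1 j).1.2 (dec (s (e (Sum.inl (j, true)))))
        (dec (s (e (Sum.inl (j, false)))))) =
      (∏ j, (lam h (s (e (Sum.inl (j, true)))) * lam h (s (e (Sum.inl (j, false)))))⁻¹) *
        ∏ j, pr (c1 j) (s (e (Sum.inl (j, true)))) (s (e (Sum.inl (j, false)))) := by
    rw [← Finset.prod_mul_distrib]
    exact Finset.prod_congr rfl fun j _ => pc_dec hs h _ _ _
  have h4 : (∏ j, (∏ g, lam h (s (e (Sum.inr ⟨j, g⟩))))⁻¹) *
      (∏ j, dt (c2 j) fun g => s (e (Sum.inr ⟨j, g⟩))) =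
      (∏ j, (∏ g : G (c2 j).1.1.1, lam h (⟨(c2 j).1, g, (c2 j).2⟩ : LL (G' G sgn)))⁻¹) *
      ∏ j, dc (c2 j).1.1.1 (emb (c2 j)) fun g => dec (s (e (Sum.inr ⟨j, g⟩))) := by
    rw [← Finset.prod_mul_distrib, ← Finset.prod_mul_distrib]
    exact Finset.prod_congr rfl fun j _ => dc_dec hs h (c2 j) fun g => s (e (Sum.inr ⟨j, g⟩))
  rw [h3, mul_inv, ← Finset.prod_inv_distrib, ← Finset.prod_inv_distrib]
  linear_combination ((∏ j, (lam h (s (e (Sum.inl (j, true)))) *
    lam h (s (e (Sum.inl (j, false)))))⁻¹) *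
        ∏ j, pr (c1 j) (s (e (Sum.inl (j, true)))) (s (e (Sum.inl (j, false))))) * h4

end

end

end UBx

open Classical UBx Ub in
/-- **UB**: all blocks. -/
theorem ub : UB := by
  intro κ _ K G _ _ _ _ _ h hh T _ _ u hu
  obtain ⟨sgn, hs⟩ := exists_sgn (K := K)
  have h0 : ∀ k g, h k g ≠ 0 := fun k g => (hh k g).1
  let Back : ((T → LL (G' G sgn)) → ℂ) →ₗ[ℂ] ((T → LU K G) → ℂ) :=
    { toFun := fun f t => (∏ a, lam h ((eqv (G := G) hs).symm (t a)))⁻¹ *
        f fun a => (eqv (G := G) hs).symm (t a)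
      map_add' := fun f f' => by
        funext t
        simp only [Pi.add_apply, mul_add]
      map_smul' := fun z f => by
        funext t
        simp only [Pi.smul_apply, smul_eq_mul, RingHom.id_apply]
        ring }
  have hB : ∀ f t, Back f t = (∏ a, lam h ((eqv (G := G) hs).symm (t a)))⁻¹ *
      f fun a => (eqv (G := G) hs).symm (t a) := fun _ _ => rfl
  have h1 : Back (UBx.lft h u) = u := by
    funext t
    rw [hB]
    unfold UBx.lft
    rw [← mul_assoc, inv_mul_cancel₀ (Finset.prod_ne_zero_iff.mpr fun a _ => lam_ne h h0 _),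
      one_mul]
    congr 1
    funext a
    exact dec_symm hs (t a)
  have h2 := kd_span (kd_lft hs h h0 hu)
  rw [← h1]
  have h3 : Submodule.span ℂ (Set.range fun D : GD (G' G sgn) T => D.nf) ≤
      (Submodule.span ℂ {w : (T → LU K G) → ℂ | IsBT h w}).comap Back := by
    rw [Submodule.span_le]
    rintro _ ⟨D, rfl⟩
    obtain ⟨C, w, hw, hC⟩ := nf_dec hs h D
    have h4 : Back D.nf = C • w := by
      funext t
      rw [hB, hC, Pi.smul_apply, smul_eq_mul]
      congr 2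
      funext a
      exact dec_symm hs (t a)
    have h5 : Back D.nf ∈ Submodule.span ℂ {w : (T → LU K G) → ℂ | IsBT h w} := by
      rw [h4]
      exact Submodule.smul_mem _ C (Submodule.subset_span hw)
    exact h5
  exact h3 h2

end Pool.Agent.UNIT
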