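import Pool.Agent.Lib.UNIT.Fft
import Pool.Agent.Lib.UNIT.ProdSec

/-!
# All blocks, abstract letters

Letters `(b, g, ε)`, `b : Bk` a block, `g : G b`, `ε = true` for `V b`, `ε = false` for its dual.
-/

set_option autoImplicit false
set_option linter.unusedSectionVars false

open Function Pool.Agent.SLF

namespace Pool.Agent.UNIT.Ub

noncomputable section

/-- The letters. -/
abbrev LL {Bk : Type} (G : Bk → Type) : Type := Σ b, G b × Bool

variable {Bk : Type} [Fintype Bk] [DecidableEq Bk] {G : Bk → Type} [∀ b, Fintype (G b)]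
  [∀ b, DecidableEq (G b)] {T : Type} [Fintype T] [DecidableEq T]

/-- The type of a letter. -/
def typ (y : LL G) : Bk × Bool := (y.1, y.2.2)

theorem exists_of_typ {y : LL G} {b : Bk} {ε : Bool} (h : typ y = (b, ε)) :
    ∃ g, y = ⟨b, g, ε⟩ := by
  obtain ⟨b', g, ε'⟩ := y
  obtain ⟨rfl, rfl⟩ := Prod.mk.inj h
  exact ⟨g, rfl⟩

/-- `u` is killed by the elementary matrices `E_pq`, `p ≠ q`, of all blocks. -/
def Kd (u : (T → LL G) → ℂ) : Prop :=
  ∀ (b : Bk) (p q : G b), p ≠ q → ∀ t : T → LL G,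
    (∑ a, if t a = ⟨b, p, true⟩ then u (update t a ⟨b, q, true⟩) else 0) =
      ∑ a, if t a = ⟨b, q, false⟩ then u (update t a ⟨b, p, false⟩) else 0

/-- The positions of a given type. -/
abbrev Pos (θ : T → Bk × Bool) (b : Bk) (ε : Bool) : Type := {a : T // θ a = (b, ε)}

/-- The indices at the positions of a block. -/
abbrev XX (G : Bk → Type) (θ : T → Bk × Bool) (b : Bk) : Type := (ε : Bool) → Pos θ b ε → G b

/-- The word with given types and indices. -/
def wd (θ : T → Bk × Bool) (x : ∀ b, XX G θ b) (a : T) : LL G :=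
  ⟨(θ a).1, x (θ a).1 (θ a).2 ⟨a, rfl⟩, (θ a).2⟩

theorem wd_apply {θ : T → Bk × Bool} (x : ∀ b, XX G θ b) {a : T} {b : Bk} {ε : Bool}
    (h : θ a = (b, ε)) : wd θ x a = ⟨b, x b ε ⟨a, h⟩, ε⟩ := by
  obtain ⟨h1, h2⟩ := Prod.mk.inj (h : ((θ a).1, (θ a).2) = (b, ε))
  subst h1 h2
  rfl

theorem typ_wd (θ : T → Bk × Bool) (x : ∀ b, XX G θ b) (a : T) : typ (wd θ x a) = θ a := rfl

theorem wd_injective (θ : T → Bk × Bool) : Injective (wd θ : (∀ b, XX G θ b) → T → LL G) := by
  intro x x' h
  funext b ε a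
  have h1 := congrFun h a.1
  rw [wd_apply x a.2, wd_apply x' a.2] at h1
  simpa using h1

theorem exists_wd {θ : T → Bk × Bool} {t : T → LL G} (h : ∀ a, typ (t a) = θ a) :
    ∃ x, wd θ x = t := by
  have h1 : ∀ (b : Bk) (ε : Bool) (a : Pos θ b ε), ∃ g, t a.1 = ⟨b, g, ε⟩ := fun b ε a =>
    exists_of_typ ((h a.1).trans a.2)
  choose x hx using h1
  refine ⟨x, funext fun a => ?_⟩
  rw [wd_apply x (b := (θ a).1) (ε := (θ a).2) rfl]
  exact (hx _ _ _).symm

theorem update_wd {θ : T → Bk × Bool} (x : ∀ b, XX G θ b) {a : T} {b : Bk} {ε : Bool}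
    (h : θ a = (b, ε)) (q : G b) : update (wd θ x) a ⟨b, q, ε⟩ =
      wd θ (update x b (update (x b) ε (update (x b ε) ⟨a, h⟩ q))) := by
  funext a'
  rcases hθ : θ a' with ⟨b', ε'⟩
  rw [wd_apply _ hθ]
  by_cases ha : a' = a
  · subst ha
    obtain ⟨rfl, rfl⟩ := Prod.mk.inj (hθ.symm.trans h)
    simp
  · rw [update_of_ne ha, wd_apply _ hθ]
    by_cases hb : b' = b
    · subst hb
      by_cases hε : ε' = ε
      · subst hε
        rw [update_self, update_self, update_of_ne]
        intro h'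
        exact ha (congrArg Subtype.val h')
      · rw [update_self, update_of_ne hε]
    · rw [update_of_ne hb]

/-! ### One block -/

/-- The indices of one block from those of `V` and of the dual. -/
def mk2 {θ : T → Bk × Bool} {b : Bk} (i : Pos θ b true → G b) (j : Pos θ b false → G b) :
    XX G θ b := fun ε => match ε with
  | true => i
  | false => j

/-- A partition of the positions of the block `b` into pairs and words of length `card (G b)`. -/
structure BD (G : Bk → Type) (θ : T → Bk × Bool) (b : Bk) where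
  /-- the pairs -/
  J1 : Type
  /-- the determinants -/
  J2 : Type
  f1 : Fintype J1
  f2 : Fintype J2
  /-- `true` for determinants of `V` -/
  sg : Bool
  /-- the positions -/
  e : (J1 × Bool) ⊕ (J2 × G b) ≃ {a : T // (θ a).1 = b}
  h1 : ∀ i ε, θ (e (Sum.inl (i, ε))) = (b, ε)
  h2 : ∀ c, θ (e (Sum.inr c)) = (b, sg)

attribute [instance] BD.f1 BD.f2

/-- The product of the pairings and determinants. -/
def BD.mon {θ : T → Bk × Bool} {b : Bk} (D : BD G θ b) (y : XX G θ b) : ℂ :=
  (∏ i, if y true ⟨_, D.h1 i true⟩ = y false ⟨_, D.h1 i false⟩ then 1 else 0) *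
    ∏ l, eps ℂ fun g => y D.sg ⟨_, D.h2 (l, g)⟩

/-- The positions of a block from a bijection. -/
def mkF {θ : T → Bk × Bool} {b : Bk} (σ : Bool) {m : ℕ}
    (π : Pos θ b (!σ) ⊕ (Fin m × G b) ≃ Pos θ b σ) :
    (Pos θ b (!σ) × Bool) ⊕ (Fin m × G b) → {a : T // (θ a).1 = b}
  | Sum.inl (i, ε) => if ε = σ then ⟨(π (Sum.inl i)).1, by rw [(π (Sum.inl i)).2]⟩
      else ⟨i.1, by rw [i.2]⟩
  | Sum.inr c => ⟨(π (Sum.inr c)).1, by rw [(π (Sum.inr c)).2]⟩

section

variable {θ : T → Bk × Bool} {b : Bk} (σ : Bool) {m : ℕ}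
  (π : Pos θ b (!σ) ⊕ (Fin m × G b) ≃ Pos θ b σ)

theorem mkF_inl_self (i : Pos θ b (!σ)) :
    (mkF σ π (Sum.inl (i, σ))).1 = (π (Sum.inl i)).1 := by
  simp [mkF]

theorem mkF_inl_not (i : Pos θ b (!σ)) : (mkF σ π (Sum.inl (i, !σ))).1 = i.1 := by
  cases σ <;> simp [mkF]

theorem mkF_inr (c : Fin m × G b) : (mkF σ π (Sum.inr c)).1 = (π (Sum.inr c)).1 := rfl

theorem mkF_typ (i : Pos θ b (!σ)) (ε : Bool) : θ (mkF σ π (Sum.inl (i, ε))).1 = (b, ε) := by
  rcases Bool.eq_or_eq_not ε σ with h | h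
  · rw [h, mkF_inl_self]
    exact (π (Sum.inl i)).2
  · rw [h, mkF_inl_not]
    exact i.2

theorem mkF_bijective : Bijective (mkF σ π) := by
  constructor
  · rintro (⟨i, ε⟩ | c) (⟨i', ε'⟩ | c') h
    · have h0 := congrArg (fun z => θ z.1) h
      simp only [mkF_typ] at h0
      obtain rfl := (Prod.mk.inj h0).2
      have h5 := congrArg Subtype.val h
      rcases Bool.eq_or_eq_not ε σ with h1 | h1
      · rw [h1, mkF_inl_self, mkF_inl_self] at h5
        have h3 : π (Sum.inl i) = π (Sum.inl i') := Subtype.ext h5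
        rw [Sum.inl_injective (π.injective h3)]
      · rw [h1, mkF_inl_not, mkF_inl_not] at h5
        rw [Subtype.ext h5]
    · exfalso
      have h0 := congrArg (fun z => θ z.1) h
      simp only [mkF_typ, mkF_inr] at h0
      rw [(π (Sum.inr c')).2] at h0
      obtain rfl := (Prod.mk.inj h0).2
      have h5 := congrArg Subtype.val h
      rw [mkF_inl_self, mkF_inr] at h5
      have h3 : π (Sum.inl i) = π (Sum.inr c') := Subtype.ext h5
      exact absurd (π.injective h3) (by simp)
    · exfalso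
      have h0 := congrArg (fun z => θ z.1) h
      simp only [mkF_typ, mkF_inr] at h0
      rw [(π (Sum.inr c)).2] at h0
      obtain rfl := (Prod.mk.inj h0).2
      have h5 := congrArg Subtype.val h
      rw [mkF_inl_self, mkF_inr] at h5
      have h3 : π (Sum.inr c) = π (Sum.inl i') := Subtype.ext h5
      exact absurd (π.injective h3) (by simp)
    · have h5 := congrArg Subtype.val h
      rw [mkF_inr, mkF_inr] at h5
      have h3 : π (Sum.inr c) = π (Sum.inr c') := Subtype.ext h5
      rw [Sum.inr_injective (π.injective h3)]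
  · rintro ⟨a, ha⟩
    rcases Bool.eq_or_eq_not (θ a).2 σ with h1 | h1
    · have h2 : θ a = (b, σ) := Prod.ext ha h1
      rcases hz : π.symm ⟨a, h2⟩ with i | c
      · refine ⟨Sum.inl (i, σ), Subtype.ext ?_⟩
        rw [mkF_inl_self, ← hz, Equiv.apply_symm_apply]
      · refine ⟨Sum.inr c, Subtype.ext ?_⟩
        rw [mkF_inr, ← hz, Equiv.apply_symm_apply]
    · have h2 : θ a = (b, !σ) := Prod.ext ha h1
      refine ⟨Sum.inl (⟨a, h2⟩, !σ), Subtype.ext ?_⟩
      rw [mkF_inl_not]

/-- The partition given by a bijection. -/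
def mkBD : BD G θ b where
  J1 := Pos θ b (!σ)
  J2 := Fin m
  f1 := inferInstance
  f2 := inferInstance
  sg := σ
  e := Equiv.ofBijective (mkF σ π) (mkF_bijective σ π)
  h1 := fun i ε => mkF_typ σ π i ε
  h2 := fun c => (π (Sum.inr c)).2

end

theorem mon_true {θ : T → Bk × Bool} {b : Bk} {m : ℕ}
    (π : Pos θ b false ⊕ (Fin m × G b) ≃ Pos θ b true) (y : XX G θ b) :
    (mkBD (G := G) (σ := true) π).mon y = monV ℂ π (y true) (y false) := by
  have hT : ∀ i, (⟨_, (mkBD (G := G) (σ := true) π).h1 i true⟩ : Pos θ b true) = π (Sum.inl i) :=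
    fun i => Subtype.ext (mkF_inl_self true π i)
  have hF : ∀ i, (⟨_, (mkBD (G := G) (σ := true) π).h1 i false⟩ : Pos θ b false) = i :=
    fun i => Subtype.ext (mkF_inl_not true π i)
  have hE : ∀ i, (if y true ⟨_, (mkBD (G := G) (σ := true) π).h1 i true⟩ =
      y false ⟨_, (mkBD (G := G) (σ := true) π).h1 i false⟩ then (1 : ℂ) else 0) =
      if y true (π (Sum.inl i)) = y false i then 1 else 0 := by
    intro i
    rw [hT i, hF i]
  unfold BD.mon monV
  have h3 : (∏ i : Pos θ b false, if y true (π (Sum.inl i)) = y false i then (1 : ℂ) else 0) =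
      if (fun i => y true (π (Sum.inl i))) = y false then 1 else 0 := by
    rw [Finset.prod_ite_zero]
    simp [funext_iff]
  have h4 : (∏ i : (mkBD (G := G) (σ := true) π).J1,
      if y true ⟨_, (mkBD (G := G) (σ := true) π).h1 i true⟩ =
      y false ⟨_, (mkBD (G := G) (σ := true) π).h1 i false⟩ then (1 : ℂ) else 0) =
      if (fun i => y true (π (Sum.inl i))) = y false then 1 else 0 :=
    (Finset.prod_congr rfl fun i _ => hE i).trans h3
  rw [h4, ite_mul, one_mul, zero_mul]
  rfl

theorem mon_false {θ : T → Bk × Bool} {b : Bk} {m : ℕ}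
    (π : Pos θ b true ⊕ (Fin m × G b) ≃ Pos θ b false) (y : XX G θ b) :
    (mkBD (G := G) (σ := false) π).mon y = monV ℂ π (y false) (y true) := by
  have hF : ∀ i, (⟨_, (mkBD (G := G) (σ := false) π).h1 i false⟩ : Pos θ b false) =
      π (Sum.inl i) := fun i => Subtype.ext (mkF_inl_self false π i)
  have hT : ∀ i, (⟨_, (mkBD (G := G) (σ := false) π).h1 i true⟩ : Pos θ b true) = i :=
    fun i => Subtype.ext (mkF_inl_not false π i)
  have hE : ∀ i, (if y true ⟨_, (mkBD (G := G) (σ := false) π).h1 i true⟩ =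
      y false ⟨_, (mkBD (G := G) (σ := false) π).h1 i false⟩ then (1 : ℂ) else 0) =
      if y false (π (Sum.inl i)) = y true i then 1 else 0 := by
    intro i
    rw [hT i, hF i]
    exact if_congr eq_comm rfl rfl
  unfold BD.mon monV
  have h3 : (∏ i : Pos θ b true, if y false (π (Sum.inl i)) = y true i then (1 : ℂ) else 0) =
      if (fun i => y false (π (Sum.inl i))) = y true then 1 else 0 := by
    rw [Finset.prod_ite_zero]
    simp [funext_iff]
  have h4 : (∏ i : (mkBD (G := G) (σ := false) π).J1,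
      if y true ⟨_, (mkBD (G := G) (σ := false) π).h1 i true⟩ =
      y false ⟨_, (mkBD (G := G) (σ := false) π).h1 i false⟩ then (1 : ℂ) else 0) =
      if (fun i => y false (π (Sum.inl i))) = y true then 1 else 0 :=
    (Finset.prod_congr rfl fun i _ => hE i).trans h3
  rw [h4, ite_mul, one_mul, zero_mul]
  rfl

/-- One block: the functions of the indices of one block killed by the elementary matrices. -/
theorem one_block [∀ b, Nonempty (G b)] {θ : T → Bk × Bool} {b : Bk} (φ : XX G θ b → ℂ)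
    (hφ : SLF.Killed fun (i : Pos θ b true → G b) (j : Pos θ b false → G b) => φ (mk2 i j)) :
    φ ∈ Submodule.span ℂ {μ | ∃ D : BD G θ b, μ = D.mon} := by
  have hmk : ∀ y : XX G θ b, mk2 (y true) (y false) = y := by
    intro y
    funext ε
    cases ε <;> rfl
  rcases SLF.fft (k := ℂ) hφ with h | ⟨m, _, w, _, hw⟩ | ⟨m, _, w, _, hw⟩
  · have : φ = 0 := by
      funext y
      rw [← hmk y]
      exact h _ _
    rw [this]
    exact Submodule.zero_mem _
  · have h1 : φ = ∑ π, w π • (mkBD (G := G) (σ := true) π).mon := by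
      funext y
      conv_lhs => rw [← hmk y]
      rw [hw, Finset.sum_apply]
      refine Finset.sum_congr rfl fun π _ => ?_
      rw [Pi.smul_apply, smul_eq_mul, smul_eq_mul, mul_comm, mon_true]
    rw [h1]
    exact Submodule.sum_mem _ fun π _ => Submodule.smul_mem _ _ (Submodule.subset_span ⟨_, rfl⟩)
  · have h1 : φ = ∑ π, w π • (mkBD (G := G) (σ := false) π).mon := by
      funext y
      conv_lhs => rw [← hmk y]
      rw [hw, Finset.sum_apply]
      refine Finset.sum_congr rfl fun π _ => ?_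
      rw [Pi.smul_apply, smul_eq_mul, smul_eq_mul, mul_comm, mon_false]
    rw [h1]
    exact Submodule.sum_mem _ fun π _ => Submodule.smul_mem _ _ (Submodule.subset_span ⟨_, rfl⟩)

end

end Pool.Agent.UNIT.Ub
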