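import Pool.Agent.Lib.UNIT.UBa

set_option autoImplicit false
set_option linter.unusedSectionVars false

open Function Pool.Agent.SLF

namespace Pool.Agent.UNIT.Ub

noncomputable section

/-- The span of the products, factor by factor. -/
theorem prod_span {B : Type} [Fintype B] [DecidableEq B] (X : B → Type)
    (S : ∀ b, Set (X b → ℂ)) (φ : ∀ b, X b → ℂ) (h : ∀ b, φ b ∈ Submodule.span ℂ (S b)) :
    (fun x : ∀ b, X b => ∏ b, φ b (x b)) ∈ Submodule.span ℂ {F : (∀ b, X b) → ℂ |
      ∃ ψ : ∀ b, X b → ℂ, (∀ b, ψ b ∈ S b) ∧ F = fun x => ∏ b, ψ b (x b)} := by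
  have key : ∀ (s : Finset B) (φ : ∀ b, X b → ℂ), (∀ b ∈ s, φ b ∈ Submodule.span ℂ (S b)) →
      (∀ b, b ∉ s → φ b ∈ S b) → (fun x : ∀ b, X b => ∏ b, φ b (x b)) ∈
      Submodule.span ℂ {F : (∀ b, X b) → ℂ |
        ∃ ψ : ∀ b, X b → ℂ, (∀ b, ψ b ∈ S b) ∧ F = fun x => ∏ b, ψ b (x b)} := by
    intro s
    induction s using Finset.induction_on with
    | empty =>
      intro φ _ h2
      exact Submodule.subset_span ⟨φ, fun b => h2 b (Finset.notMem_empty b), rfl⟩
    | insert c s hc ih =>
      intro φ h1 h2
      have h3 : ∀ ψ ∈ Submodule.span ℂ (S c), (fun x : ∀ b, X b => ∏ b, update φ c ψ b (x b)) ∈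
          Submodule.span ℂ {F : (∀ b, X b) → ℂ |
            ∃ ψ : ∀ b, X b → ℂ, (∀ b, ψ b ∈ S b) ∧ F = fun x => ∏ b, ψ b (x b)} := by
        have h5 : ∀ (ψ : X c → ℂ) (x : ∀ b, X b), ∏ b, update φ c ψ b (x b) =
            ψ (x c) * ∏ b ∈ Finset.univ.erase c, φ b (x b) := by
          intro ψ x
          rw [← Finset.mul_prod_erase _ _ (Finset.mem_univ c), update_self]
          congr 1
          refine Finset.prod_congr rfl fun b hb => ?_
          rw [update_of_ne (Finset.ne_of_mem_erase hb)]
        intro ψ hψ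
        induction hψ using Submodule.span_induction with
        | mem ψ hψ =>
          refine ih _ (fun b hb => ?_) (fun b hb => ?_)
          · rw [update_of_ne (by rintro rfl; exact hc hb)]
            exact h1 b (Finset.mem_insert_of_mem hb)
          · by_cases hbc : b = c
            · subst hbc
              rwa [update_self]
            · rw [update_of_ne hbc]
              exact h2 b (by simp [hbc, hb])
        | zero =>
          have : (fun x : ∀ b, X b => ∏ b, update φ c 0 b (x b)) = 0 := by
            funext x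
            rw [h5]
            simp
          rw [this]
          exact Submodule.zero_mem _
        | add ψ ψ' _ _ h6 h7 =>
          have : (fun x : ∀ b, X b => ∏ b, update φ c (ψ + ψ') b (x b)) =
              (fun x => ∏ b, update φ c ψ b (x b)) + fun x => ∏ b, update φ c ψ' b (x b) := by
            funext x
            rw [Pi.add_apply, h5, h5, h5, Pi.add_apply, add_mul]
          rw [this]
          exact Submodule.add_mem _ h6 h7
        | smul z ψ _ h6 =>
          have : (fun x : ∀ b, X b => ∏ b, update φ c (z • ψ) b (x b)) =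
              z • fun x => ∏ b, update φ c ψ b (x b) := by
            funext x
            rw [Pi.smul_apply, h5, h5, Pi.smul_apply, smul_eq_mul, smul_eq_mul, mul_assoc]
          rw [this]
          exact Submodule.smul_mem _ _ h6
      have h4 := h3 (φ c) (h1 c (Finset.mem_insert_self c s))
      rwa [update_eq_self] at h4
  exact key Finset.univ φ (fun b _ => h b) fun b hb => absurd (Finset.mem_univ b) hb

variable {Bk : Type} [Fintype Bk] [DecidableEq Bk] {G : Bk → Type} [∀ b, Fintype (G b)]
  [∀ b, DecidableEq (G b)] {T : Type} [Fintype T] [DecidableEq T]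

/-- The sections of `u` in the direction of one block. -/
theorem section_mem [∀ b, Nonempty (G b)] {u : (T → LL G) → ℂ} (hu : Kd u)
    (θ : T → Bk × Bool) (b : Bk) (x : ∀ b, XX G θ b) :
    (fun y : XX G θ b => u (wd θ (update x b y))) ∈
      Submodule.span ℂ {μ | ∃ D : BD G θ b, μ = D.mon} := by
  refine one_block _ ?_
  intro p q hpq i j
  have h := hu b p q hpq (wd θ (update x b (mk2 i j)))
  have key : ∀ (ε : Bool) (p q : G b) (x' : ∀ b, XX G θ b),
      (∑ a, if wd θ x' a = ⟨b, p, ε⟩ then u (update (wd θ x') a ⟨b, q, ε⟩) else 0) =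
        ∑ a : Pos θ b ε, if x' b ε a = p then
          u (wd θ (update x' b (update (x' b) ε (update (x' b ε) a q)))) else 0 := by
    intro ε p q x'
    rw [← Finset.sum_filter_add_sum_filter_not Finset.univ (fun a => θ a = (b, ε))]
    have h1 : (∑ a ∈ Finset.univ.filter (fun a => ¬ θ a = (b, ε)),
        if wd θ x' a = ⟨b, p, ε⟩ then u (update (wd θ x') a ⟨b, q, ε⟩) else 0) = 0 := by
      refine Finset.sum_eq_zero fun a ha => ?_
      rw [if_neg]
      intro h'
      have h2 := typ_wd θ x' a
      rw [h'] at h2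
      exact (Finset.mem_filter.mp ha).2 h2.symm
    rw [h1, add_zero, ← Finset.sum_subtype_eq_sum_filter]
    have h3 : (Finset.univ : Finset T).subtype (fun a => θ a = (b, ε)) = Finset.univ := by
      ext a
      simp
    rw [h3]
    refine Finset.sum_congr rfl fun a _ => ?_
    have h4 : wd θ x' a.1 = ⟨b, p, ε⟩ ↔ x' b ε a = p := by
      rw [wd_apply x' a.2]
      simp
    by_cases h5 : x' b ε a = p
    · rw [if_pos (h4.mpr h5), if_pos h5, update_wd x' a.2]
    · rw [if_neg (fun h' => h5 (h4.mp h')), if_neg h5]
  rw [key, key] at h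
  simp only [update_self, update_idem] at h
  have h6 : ∀ (a : Pos θ b true) (q : G b), update (mk2 i j : XX G θ b) true
      (update ((mk2 i j : XX G θ b) true) a q) = mk2 (update i a q) j := by
    intro a q
    funext ε
    cases ε
    · rw [update_of_ne (by simp)]
      rfl
    · rw [update_self]
      rfl
  have h7 : ∀ (a : Pos θ b false) (q : G b), update (mk2 i j : XX G θ b) false
      (update ((mk2 i j : XX G θ b) false) a q) = mk2 i (update j a q) := by
    intro a q
    funext ε
    cases ε
    · rw [update_self]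
      rfl
    · rw [update_of_ne (by simp)]
      rfl
  simp only [h6, h7] at h
  exact h

/-- The products of all blocks. -/
theorem all_blocks [∀ b, Nonempty (G b)] {u : (T → LL G) → ℂ} (hu : Kd u)
    (θ : T → Bk × Bool) :
    (fun x : ∀ b, XX G θ b => u (wd θ x)) ∈
      Submodule.span ℂ {F : (∀ b, XX G θ b) → ℂ | ∃ D : ∀ b, BD G θ b,
        F = fun x => ∏ b, (D b).mon (x b)} := by
  have h := mem_span_prod (fun b => XX G θ b)
    (fun b => Submodule.span ℂ {μ | ∃ D : BD G θ b, μ = D.mon}) (fun x => u (wd θ x))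
    (fun b x => section_mem hu θ b x)
  refine Submodule.span_le.mpr ?_ h
  rintro F ⟨φ, hφ, rfl⟩
  have h1 := prod_span (fun b => XX G θ b) (fun b => {μ | ∃ D : BD G θ b, μ = D.mon}) φ hφ
  refine Submodule.span_mono ?_ h1
  rintro F ⟨ψ, hψ, rfl⟩
  choose D hD using hψ
  exact ⟨D, by simp only [hD]⟩

end

end Pool.Agent.UNIT.Ub
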